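import Pool.Agent.Helper77.MK.Defs

namespace Pool.Agent.Helper77.MK

/-- `allB n f` tests `f k = true` for all `k < n`. -/
noncomputable def allB (n : ℕ) (f : ℕ → Bool) : Bool :=
  Nat.rec true (fun k r => f k && r) n

theorem allB_spec {n : ℕ} {f : ℕ → Bool} (h : allB n f = true) : ∀ k, k < n → f k = true := by
  induction n with
  | zero => intro k hk; omega
  | succ n ih =>
    have h' : (f n && allB n f) = true := h
    rw [Bool.and_eq_true] at h'
    intro k hk
    rcases Nat.lt_succ_iff_lt_or_eq.mp hk with h1 | h1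
    · exact ih h'.2 k h1
    · subst h1; exact h'.1

/-- the `z`-th word of 32 bits of `X`. -/
def word (X z : ℕ) : ℕ := (X >>> (32 * z)) % 4294967296

/-- bit `t` of the `z`-th word of `X` -/
def bitAt (X z t : ℕ) : Bool := Nat.testBit X (32 * z + t)

theorem word_testBit (X z t : ℕ) (ht : t < 32) : (word X z).testBit t = bitAt X z t := by
  have e : (4294967296 : ℕ) = 2 ^ 32 := by norm_num
  unfold word bitAt
  rw [e, Nat.testBit_mod_two_pow, Nat.testBit_shiftRight]
  simp [ht]

theorem bitAt_or (X Y z t : ℕ) : bitAt (X ||| Y) z t = (bitAt X z t || bitAt Y z t) := by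
  unfold bitAt; exact Nat.testBit_or X Y _

theorem bitAt_and (X Y z t : ℕ) : bitAt (X &&& Y) z t = (bitAt X z t && bitAt Y z t) := by
  unfold bitAt; exact Nat.testBit_and X Y _

theorem bitAt_zero (z t : ℕ) : bitAt 0 z t = false := by
  unfold bitAt; exact Nat.zero_testBit _

/-- bit `t` of the `z`-th word as bit 0 of the shifted number -/
theorem bitAt_shift (X z t : ℕ) : bitAt (X >>> t) z 0 = bitAt X z t := by
  unfold bitAt
  rw [Nat.testBit_shiftRight]
  congr 1
  omega

/-- `W`-translates: `X` lists, at every class `z`, the value of `W` at the class of `z` plus a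
fixed multiset. -/
def Tr (act : ℕ → ℕ → ℕ) [LeftCommutative act] (W : ℕ) (y X : ℕ) : Prop :=
  ∃ r : Multiset ℕ, r.foldr act 0 = y ∧
    ∀ M : Multiset ℕ, ∀ t, t < 32 →
      bitAt X (M.foldr act 0) t = bitAt W ((M + r).foldr act 0) t

theorem Tr_zero (act : ℕ → ℕ → ℕ) [LeftCommutative act] (W : ℕ) : Tr act W 0 W :=
  ⟨0, by simp, fun M t _ => by simp⟩

/-- comparison of `X` with the translate of `X'` by a table -/
noncomputable def chkPW (N T X X' : ℕ) : Bool :=
  allB N (fun z => Nat.beq (word X z) (word X' ((T >>> (10 * z)) % 1024)))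

theorem Tr_step {act : ℕ → ℕ → ℕ} [LeftCommutative act] {N W y' X' : ℕ} (h : Tr act W y' X')
    (g y X T : ℕ) (hlt : ∀ M : Multiset ℕ, M.foldr act 0 < N)
    (hT : ∀ z, z < N → (T >>> (10 * z)) % 1024 = act g z) (hy : act g y' = y)
    (hc : chkPW N T X X' = true) : Tr act W y X := by
  obtain ⟨r, hr, hM⟩ := h
  refine ⟨g ::ₘ r, ?_, ?_⟩
  · rw [Multiset.foldr_cons, hr, hy]
  · intro M t ht
    have hz := hlt M
    have h1 := allB_spec hc _ hz
    have h2 := Nat.eq_of_beq_eq_true h1
    rw [← word_testBit _ _ _ ht, h2, hT _ hz, word_testBit _ _ _ ht]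
    have h3 := hM (g ::ₘ M) t ht
    rw [Multiset.foldr_cons] at h3
    rw [h3]
    congr 2
    rw [Multiset.add_cons, Multiset.cons_add]

theorem Tr_apply {act : ℕ → ℕ → ℕ} [LeftCommutative act] {W y X : ℕ} (h : Tr act W y X)
    (M M' : Multiset ℕ) (hM' : M'.foldr act 0 = y) (t : ℕ) (ht : t < 32) :
    bitAt X (M.foldr act 0) t = bitAt W ((M + M').foldr act 0) t := by
  obtain ⟨r, hr, hM⟩ := h
  rw [hM M t ht]
  congr 1
  rw [add_comm M r, add_comm M M', add_comm r M, add_comm M' M, Multiset.foldr_add,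
    Multiset.foldr_add, hr, hM']

end Pool.Agent.Helper77.MK
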