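import Pool.Agent.Helper77.MK.C34Chk1

namespace Pool.Agent.Helper77.MK.C34

/-- The action of generator `a` on the classes `z < 624`. -/
def actA (a z : ℕ) : ℕ :=
  if a < 18 then (if z < 624 then (Gs.getD a 0 >>> (10 * z)) % 1024 else z) else z

theorem Gs_len : Gs.length = 18 := rfl

theorem actA_of (a z : ℕ) (ha : a < 18) (hz : z < 624) :
    actA a z = (Gs.getD a 0 >>> (10 * z)) % 1024 := by
  unfold actA; rw [if_pos ha, if_pos hz]

theorem Gs_mem (a : ℕ) (ha : a < 18) : Gs.getD a 0 ∈ Gs := by
  rw [List.getD_eq_getElem _ _ (by rw [Gs_len]; exact ha)]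
  exact List.getElem_mem _

theorem actA_lt (a z : ℕ) (hz : z < 624) : actA a z < 624 := by
  by_cases ha : a < 18
  · rw [actA_of a z ha hz]
    have h := chk_clos
    rw [List.all_eq_true] at h
    have h1 := allB_spec (h _ (Gs_mem a ha)) z hz
    have h2 := Nat.le_of_ble_eq_true h1
    omega
  · unfold actA; rw [if_neg ha]; exact hz

theorem commT_spec {T T' : ℕ} (h : commT T T' = true) (z : ℕ) (hz : z < 624) :
    (T >>> (10 * ((T' >>> (10 * z)) % 1024))) % 1024
      = (T' >>> (10 * ((T >>> (10 * z)) % 1024))) % 1024 :=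
  Nat.eq_of_beq_eq_true (allB_spec h z hz)

theorem pairChk_spec : ∀ {l : List ℕ}, pairChk l = true → ∀ T ∈ l, ∀ T' ∈ l,
    T = T' ∨ commT T T' = true ∨ commT T' T = true
  | [], _, T, hT, _, _ => by simp at hT
  | S :: l, h, T, hT, T', hT' => by
    have h1 : (l.all (commT S) && pairChk l) = true := h
    rw [Bool.and_eq_true, List.all_eq_true] at h1
    rcases List.mem_cons.mp hT with rfl | hT1
    · rcases List.mem_cons.mp hT' with rfl | hT1'
      · exact Or.inl rfl
      · exact Or.inr (Or.inl (h1.1 _ hT1'))
    · rcases List.mem_cons.mp hT' with rfl | hT1'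
      · exact Or.inr (Or.inr (h1.1 _ hT1))
      · exact pairChk_spec h1.2 T hT1 T' hT1'

theorem actA_comm (a b z : ℕ) : actA a (actA b z) = actA b (actA a z) := by
  by_cases ha : a < 18
  · by_cases hb : b < 18
    · by_cases hz : z < 624
      · rw [actA_of a _ ha (actA_lt b z hz), actA_of b _ hb (actA_lt a z hz),
          actA_of a z ha hz, actA_of b z hb hz]
        rcases pairChk_spec chk_comm _ (Gs_mem a ha) _ (Gs_mem b hb) with h | h | h
        · rw [h]
        · exact commT_spec h z hz
        · exact (commT_spec h z hz).symm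
      · have h : ∀ c, actA c z = z := by
          intro c; unfold actA; rw [if_neg hz]; simp
        rw [h b, h a, h b]
    · have h : ∀ x, actA b x = x := by
        intro x; unfold actA; rw [if_neg hb]
      rw [h, h]
  · have h : ∀ x, actA a x = x := by
      intro x; unfold actA; rw [if_neg ha]
    rw [h, h]

instance : LeftCommutative actA := ⟨actA_comm⟩

/-- The class of a multiset of generators. -/
def cls (M : Multiset ℕ) : ℕ := M.foldr actA 0

theorem cls_lt (M : Multiset ℕ) : M.foldr actA 0 < 624 := by
  induction M using Multiset.induction with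
  | empty => simp
  | cons a M ih => rw [Multiset.foldr_cons]; exact actA_lt _ _ ih

end Pool.Agent.Helper77.MK.C34
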