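import Pool.Agent.Helper77.MK.C34Data
import Pool.Agent.Helper77.MK.Base

namespace Pool.Agent.Helper77.MK.C34

noncomputable def commT (T T' : ℕ) : Bool :=
  allB 624 (fun z => Nat.beq ((T >>> (10 * ((T' >>> (10 * z)) % 1024))) % 1024)
    ((T' >>> (10 * ((T >>> (10 * z)) % 1024))) % 1024))

noncomputable def closT (T : ℕ) : Bool :=
  allB 624 (fun z => Nat.ble ((T >>> (10 * z)) % 1024 + 1) 624)

noncomputable def pairChk : List ℕ → Bool
  | [] => true
  | T :: l => l.all (commT T) && pairChk l

theorem chk_clos : Gs.all closT = true := by decide +kernel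

theorem chk_comm : pairChk Gs = true := by decide +kernel

end Pool.Agent.Helper77.MK.C34
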