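import Pool.Agent.Helper77.MK.C34Data
import Pool.Agent.Helper77.MK.Base

namespace Pool.Agent.Helper77.MK.C34

noncomputable def chkTW (D Tw T : ℕ) : Bool :=
  allB 624 (fun y => Nat.beq
    ((word D y ||| word Tw ((T >>> (10 * y)) % 1024)) &&& 268435455) 268435455)

/-- the rest heaps which act nontrivially -/
def ntHeaps : List ℕ :=
  [2, 3, 4, 6, 7, 8, 10, 11, 12, 13, 14, 16, 17, 18, 19, 20, 21, 22, 23, 24, 25, 26, 27, 28, 29, 31]

theorem chk_TW : ntHeaps.all (fun H =>
    chkTW (DWs.getD H 0) (TWs.getD (gi H) 0) (Gs.getD (gi H) 0)) = true := by decide +kernel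

/-- the submonoids are closed under their generators -/
noncomputable def chkM (T g : ℕ) : Bool :=
  allB 624 (fun z => Nat.beq
    ((word MW z &&& g) &&& word MW ((T >>> (10 * z)) % 1024)) (word MW z &&& g))

theorem chk_M : (List.range 18).all (fun a => chkM (Gs.getD a 0) (GM.getD a 0)) = true := by
  decide +kernel

theorem chk_M0 : Nat.beq (word MW 0 &&& 4095) 4095 = true := by decide +kernel

/-- `rest` heap sizes, zero included -/
def isRest (a : ℕ) : Bool := Nat.ble a 31 && !(Nat.beq a 30)

def pairsR (H : ℕ) : List (ℕ × ℕ) :=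
  ((List.range (H - 1)).map (fun a => (a, H - 2 - a))).filter (fun p => isRest p.1 && isRest p.2)

/-- class of the pair of heaps `a`, `b` -/
def ycl (a b : ℕ) : ℕ :=
  let x := if Nat.blt (gi b) 18 then (Gs.getD (gi b) 0 >>> (10 * 0)) % 1024 else 0
  if Nat.blt (gi a) 18 then (Gs.getD (gi a) 0 >>> (10 * x)) % 1024 else x

def DWof (l : List (ℕ × ℕ)) : ℕ := l.foldr (fun p acc => PW (ycl p.1 p.2) ||| acc) 0

/-- all heaps considered, of size at least 2 -/
def heaps2 : List ℕ :=
  [2, 3, 4, 5, 6, 7, 8, 9, 10, 11, 12, 13, 14, 15, 16, 17, 18, 19, 20, 21, 22, 23, 24, 25, 26, 27,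
    28, 29, 30, 31, 32, 34]

/-- the rest heaps of size at least 2 -/
def rest2 : List ℕ :=
  [2, 3, 4, 5, 6, 7, 8, 9, 10, 11, 12, 13, 14, 15, 16, 17, 18, 19, 20, 21, 22, 23, 24, 25, 26, 27,
    28, 29, 31]

theorem chk_pairs : heaps2.all (fun H => (pairsR H).all (fun p =>
    Ylist.contains (ycl p.1 p.2))) = true := by decide +kernel

theorem chk_DW : heaps2.all (fun H => Nat.beq (DWs.getD H 0) (DWof (pairsR H))) = true := by
  decide +kernel

theorem chk_single : rest2.all (fun H => Ylist.contains (ycl H 0)) = true := by decide +kernel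

/-- inside a level no two positions connected by a rest move are both P -/
theorem chk_A : rest2.all (fun H => Nat.beq (PW (ycl H 0) &&& DWs.getD H 0) 0) = true := by
  decide +kernel

/-- a rest heap whose removal leads to the class 0 has, at level 0, a winning option -/
noncomputable def chkZ (D g : ℕ) : Bool :=
  allB 624 (fun y => (!(Nat.beq (if Nat.blt g 18 then (Gs.getD g 0 >>> (10 * y)) % 1024 else y) 0))
    || Nat.testBit D (32 * y))

theorem chk_zero : rest2.all (fun H => chkZ (DWs.getD H 0) (gi H)) = true := by decide +kernel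

end Pool.Agent.Helper77.MK.C34
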