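import Pool.Agent.Helper77.MK.C34Chk2

namespace Pool.Agent.Helper77.MK.C34

/-- union of the `TW` tables of the generators outside the submonoid number `k` -/
def KW (k : ℕ) : ℕ :=
  (List.range 18).foldr
    (fun a acc => (if Nat.testBit (GM.getD a 0) k then 0 else TWs.getD a 0) ||| acc) 0

/-- the submonoid number `k`, with words all or nothing -/
def M1 (k : ℕ) : ℕ := ((MW >>> k) &&& PL) * 268435455

theorem chk_M1 : allB 11 (fun k => allB 624 (fun z =>
    Nat.beq (word (M1 k) z) (if bitAt MW z k then 268435455 else 0))) = true := by decide +kernel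

def inter : ℕ := (List.range 11).foldr (fun k acc => (KW k ||| M1 k) &&& acc) SSW

def EXW : ℕ := exL.foldr (fun e acc => 2 ^ (32 * e.2.1 + e.1) ||| acc) 0

theorem chk_SS : Nat.beq inter EXW = true := by decide +kernel

theorem chk_SSlow : allB 624 (fun z => Nat.ble (word SSW z) 268435455) = true := by decide +kernel

/-- one step of a chain of submonoids -/
noncomputable def stepB (t z m m' H : ℕ) : Bool :=
  (!(Nat.testBit (GM.getD (gi H) 0) m)) || Nat.testBit (GM.getD (gi H) 0) m' ||
    allB 624 (fun y => (!(bitAt MW y m)) ||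
      (!(Nat.beq ((Gs.getD (gi H) 0 >>> (10 * y)) % 1024) z)) || bitAt (DWs.getD H 0) y t)

noncomputable def chainB (t z : ℕ) : ℕ → List ℕ → Bool
  | m, [] => !(bitAt MW z m)
  | m, m' :: ms => ntHeaps.all (stepB t z m m') && chainB t z m' ms

noncomputable def headB (t z m : ℕ) : Bool :=
  ntHeaps.all (fun H => Nat.testBit (GM.getD (gi H) 0) m || !(bitAt (TWs.getD (gi H) 0) z t))

noncomputable def exB (e : ℕ × ℕ × List ℕ) : Bool :=
  match e.2.2 with
  | [] => false
  | m :: ms => Nat.ble (e.1 + 1) 28 && (headB e.1 e.2.1 m && (ms.all (fun k => Nat.ble (k + 1) 12) &&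
      (Nat.ble (m + 1) 12 && chainB e.1 e.2.1 m ms)))

theorem chk_ex : exL.all exB = true := by decide +kernel

/-! levels -/

def ci (i : ℕ) : ℕ := if i ≤ 3 then i else 2 + i % 2
def cj (j : ℕ) : ℕ := if j ≤ 3 then j else 4 + j % 2
def ee (i j : ℕ) : ℕ := if j ≤ i then 0 else (if j ≤ i + 1 then 1 else 2)

/-- The type of the level with `i` heaps 30, `j` heaps 34 and (reduced) number `s` of heaps 32. -/
def tauS (s i j : ℕ) : ℕ := (TT >>> (5 * (((s * 4 + ci i) * 6 + cj j) * 3 + ee i j))) % 32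

def snext (s : ℕ) : ℕ := if s < 3 then s + 1 else 2

def D30 (s i j : ℕ) : ℕ := DW_30 >>> tauS s i j
def D32 (s i j : ℕ) : ℕ := (DW_32 >>> tauS s i j) ||| (PW_0 >>> tauS s (i + 1) j)
def D34 (s i j : ℕ) : ℕ :=
  (DW_34 >>> tauS s i j) ||| ((PW_0 >>> tauS (snext s) i j) ||| (PW_1 >>> tauS s (i + 1) j))

/-- consistency at the context `(s, i, j)` -/
def cellA (s i j : ℕ) : Bool :=
  Nat.beq (((PW_0 >>> tauS s (i + 1) j) &&& D30 s i j) &&& PL) 0 &&
  (Nat.beq (((PW_0 >>> tauS (snext s) i j) &&& D32 s i j) &&& PL) 0 &&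
  (Nat.beq (((PW_0 >>> tauS s i (j + 1)) &&& D34 s i j) &&& PL) 0 && Nat.ble (tauS s i j + 1) 28))

/-- classes with a winning removal of some heap 32 -/
def kill (s i j : ℕ) : ℕ :=
  if s = 0 then 0 else if s = 1 then D32 0 i j
    else if s = 2 then D32 1 i j &&& D32 3 i j else D32 2 i j

def cover (s i j : ℕ) : ℕ :=
  (PW_0 >>> tauS s i j) ||| ((SSW >>> tauS s i j) |||
    ((if i = 0 then 0 else D30 s (i - 1) j) ||| ((if j = 0 then 0 else D34 s i (j - 1)) |||
      (kill s i j ||| (if s + i + j = 0 then 1 else 0)))))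

def cellB (s i j : ℕ) : Bool := Nat.beq (cover s i j &&& PL) PL

theorem chk_PL : allB 624 (fun z => Nat.testBit PL (32 * z)) = true := by decide +kernel

theorem chk_cells : allB 4 (fun s => allB 11 (fun i => allB 10 (fun j =>
    cellA s i j && cellB s i j))) = true := by decide +kernel

theorem chk_bit0 : Nat.testBit PW_0 (tauS 0 0 0) = false := by decide +kernel

end Pool.Agent.Helper77.MK.C34
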