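import Pool.Agent.Helper77.MK.C34Main

namespace Pool.Agent.Helper77.MK.C34

theorem tauR_erase_rest {G : Multiset ℕ} {H : ℕ} (h : H ≤ 31) (h' : H ≠ 30) :
    tauR (G.erase H) = tauR G := by
  unfold tauR
  rw [Multiset.count_erase_of_ne (by omega), Multiset.count_erase_of_ne (by omega),
    Multiset.count_erase_of_ne (by omega)]

/-- the main completeness step -/
theorem complete {G : Multiset ℕ} (ho : okG G) (h0 : outM G = false)
    (hno : ∀ H ∈ G, ¬ HasP H (G.erase H)) : ∀ H ∈ G, H = 1 := by
  have hs : Stuck G := by
    intro H hH hr
    by_contra h1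
    rw [Bool.not_eq_false] at h1
    refine hno H hH ((hasP_rest hr _).mpr ?_)
    obtain ⟨_, h2, h3⟩ := rest2_sub hr
    rw [tauR_erase_rest h2 h3]; exact h1
  have hz := rc_lt G
  have hc := cover_cases (s := sred (G.count 32)) (i := G.count 30) (j := G.count 34) (sred_lt _) hz
  have hrc : ∀ H ∈ G, gi H = 18 → rc (G.erase H) = rc G := by
    intro H hH hg
    rw [rc_erase hH, hg, act18]
  rcases hc with h | h | h | h | h | h | h | h
  · exfalso; unfold outM tauR at h0; rw [h0] at h; exact absurd h (by decide)
  · exact (SS_sound ho hs h).elim
  · exfalso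
    obtain ⟨hi, h⟩ := h
    have hm : 30 ∈ G := Multiset.count_pos.mp hi
    refine hno 30 hm ((hasP_30 _).mpr ?_)
    rw [hrc 30 hm gi30]
    unfold tauR
    rw [Multiset.count_erase_self, Multiset.count_erase_of_ne (by norm_num),
      Multiset.count_erase_of_ne (by norm_num)]
    exact h
  · exfalso
    obtain ⟨hj, h⟩ := h
    have hm : 34 ∈ G := Multiset.count_pos.mp hj
    refine hno 34 hm ((hasP_34 _).mpr ?_)
    rw [hrc 34 hm gi34]
    unfold tauR
    rw [Multiset.count_erase_self, Multiset.count_erase_of_ne (by norm_num),
      Multiset.count_erase_of_ne (by norm_num)]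
    exact h
  · exfalso
    obtain ⟨hs1, h⟩ := h
    have hc0 : G.count 32 = 1 := by
      unfold sred at hs1; split_ifs at hs1 <;> omega
    have hm : 32 ∈ G := Multiset.count_pos.mp (by omega)
    refine hno 32 hm ((hasP_32 _).mpr ?_)
    rw [hrc 32 hm gi32]
    unfold tauR
    rw [Multiset.count_erase_self, Multiset.count_erase_of_ne (by norm_num),
      Multiset.count_erase_of_ne (by norm_num), hc0]
    exact h
  · exfalso
    obtain ⟨hs1, h1, h3⟩ := h
    have hc0 : 2 ≤ G.count 32 ∧ G.count 32 % 2 = 0 := by
      unfold sred at hs1; split_ifs at hs1 <;> omega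
    have hm : 32 ∈ G := Multiset.count_pos.mp (by omega)
    refine hno 32 hm ((hasP_32 _).mpr ?_)
    rw [hrc 32 hm gi32]
    unfold tauR
    rw [Multiset.count_erase_self, Multiset.count_erase_of_ne (by norm_num),
      Multiset.count_erase_of_ne (by norm_num)]
    have h4 : sred (G.count 32 - 1) = 1 ∨ sred (G.count 32 - 1) = 3 := by
      unfold sred; split_ifs <;> omega
    rcases h4 with h4 | h4 <;> rw [h4]
    · exact h1
    · exact h3
  · exfalso
    obtain ⟨hs1, h⟩ := h
    have hc0 : 3 ≤ G.count 32 ∧ G.count 32 % 2 = 1 := by
      unfold sred at hs1; split_ifs at hs1 <;> omega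
    have hm : 32 ∈ G := Multiset.count_pos.mp (by omega)
    refine hno 32 hm ((hasP_32 _).mpr ?_)
    rw [hrc 32 hm gi32]
    unfold tauR
    rw [Multiset.count_erase_self, Multiset.count_erase_of_ne (by norm_num),
      Multiset.count_erase_of_ne (by norm_num)]
    have h4 : sred (G.count 32 - 1) = 2 := by
      unfold sred; split_ifs <;> omega
    rw [h4]
    exact h
  · obtain ⟨hs0, hi0, hj0, hz0⟩ := h
    have hc0 : G.count 32 = 0 := by
      unfold sred at hs0; split_ifs at hs0 <;> omega
    intro H hH
    rcases ho H hH with h | h
    · exact h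
    · exfalso
      rcases heaps2_cases h with h1 | rfl | rfl | rfl
      · have hchk := chk_zero
        rw [List.all_eq_true] at hchk
        have h2 := allB_spec (hchk H h1) _ (rc_lt (G.erase H))
        have h3 := rc_erase hH
        rw [hz0] at h3
        have h5 : (if Nat.blt (gi H) 18 then
            (Gs.getD (gi H) 0 >>> (10 * rc (G.erase H))) % 1024 else rc (G.erase H)) = 0 := by
          rcases gi_le H with h4 | h4
          · have : Nat.blt (gi H) 18 = true := by rw [Nat.blt_eq]; exact h4
            rw [this, if_pos rfl, ← actA_of _ _ h4 (rc_lt _)]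
            exact h3.symm
          · have : Nat.blt (gi H) 18 = false := by rw [h4]; rfl
            rw [this]
            rw [h4, act18] at h3
            simpa using h3.symm
        rw [h5] at h2
        have h6 : Nat.testBit (DWs.getD H 0) (32 * rc (G.erase H)) = true := by
          simpa using h2
        have h7 := hs H hH h1
        have h8 : tauR G = 0 := by
          unfold tauR; rw [hc0, hi0, hj0]; decide +kernel
        rw [h8] at h7
        unfold bitAt at h7
        rw [add_zero, h6] at h7
        exact absurd h7 (by decide)
      · have := Multiset.count_pos.mpr hH; omega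
      · have := Multiset.count_pos.mpr hH; omega
      · have := Multiset.count_pos.mpr hH; omega

theorem ok_opt {H a b : ℕ} {R : Multiset ℕ} (hH : H ∈ heaps2) (hab : a + b + 2 = H)
    (hR : okG R) : okG (heap a + heap b + R) := by
  have key : ∀ c, c ≤ 32 → ∀ x ∈ heap c, x = 1 ∨ x ∈ heaps2 := by
    intro c hc x hx
    by_cases h0 : c = 0
    · rw [h0, heap_zero] at hx; simp at hx
    · rw [heap_pos h0, Multiset.mem_singleton] at hx
      subst hx
      by_cases h1 : x = 1
      · exact Or.inl h1
      · right
        simp only [heaps2, List.mem_cons, List.not_mem_nil, or_false]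
        omega
  have := heaps2_ge hH
  intro x hx
  rw [Multiset.mem_add, Multiset.mem_add] at hx
  rcases hx with (hx | hx) | hx
  · exact key a (by omega) x hx
  · exact key b (by omega) x hx
  · exact hR x hx

theorem out_ones {G : Multiset ℕ} (h : ∀ H ∈ G, H = 1) : outM G = false := by
  have h1 : G = Multiset.replicate (Multiset.card G) 1 := Multiset.eq_replicate_card.mpr h
  have hrc : ∀ n, rc (Multiset.replicate n 1) = 0 := by
    intro n
    induction n with
    | zero => unfold rc; simp
    | succ n ih =>
      rw [Multiset.replicate_succ, rc_cons, ih]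
      exact act18 0
  unfold outM tauR
  rw [h1, hrc]
  have hc : ∀ c, c ≠ 1 → Multiset.count c (Multiset.replicate (Multiset.card G) 1) = 0 := by
    intro c hc
    rw [Multiset.count_replicate, if_neg (fun h => hc h.symm)]
  rw [hc 32 (by norm_num), hc 30 (by norm_num), hc 34 (by norm_num)]
  have e : sred 0 = 0 := rfl
  unfold bitAt
  rw [e, Nat.mul_zero, Nat.zero_add]
  exact chk_bit0

/-- The predicted outcome is the misere outcome. -/
theorem misereP_iff (G : Multiset ℕ) (ho : okG G) : MisereP G ↔ outM G = true := by
  have main : ∀ n, ∀ G : Multiset ℕ, G.sum = n → okG G → (MisereP G ↔ outM G = true) := by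
    intro n
    induction n using Nat.strong_induction_on with
    | _ n ih =>
      intro G hn ho
      have step : ∀ H ∈ G, ∀ a b, a + b + 2 = H →
          (MisereP (heap a + heap b + G.erase H) ↔ outM (heap a + heap b + G.erase H) = true) := by
        intro H hH a b hab
        have hHh : H ∈ heaps2 := by
          rcases ho H hH with h | h
          · omega
          · exact h
        have hok : okG (heap a + heap b + G.erase H) :=
          ok_opt hHh hab (fun x hx => ho x (Multiset.mem_of_mem_erase hx))
        have hmv : Move G (heap a + heap b + G.erase H) :=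
          ⟨G.erase H, a, b, by rw [hab, Multiset.cons_erase hH], rfl⟩
        have := hmv.sum_lt
        exact ih _ (by omega) _ rfl hok
      rw [MisereP]
      constructor
      · rintro ⟨⟨G', R, a, b, hG, -⟩, hall⟩
        by_contra hout
        rw [Bool.not_eq_true] at hout
        have hno : ∀ H ∈ G, ¬ HasP H (G.erase H) := by
          rintro H hH ⟨a, b, hab, hp⟩
          refine hall (heap a + heap b + G.erase H)
            ⟨G.erase H, a, b, by rw [hab, Multiset.cons_erase hH], rfl⟩ ?_
          exact (step H hH a b hab).mpr hp
        have h1 := complete ho hout hno (a + b + 2) (by rw [hG]; exact Multiset.mem_cons_self _ _)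
        omega
      · intro hout
        refine ⟨?_, ?_⟩
        · by_contra hnm
          have hones : ∀ H ∈ G, H = 1 := by
            intro H hH
            rcases ho H hH with h | h
            · exact h
            · exfalso
              apply hnm
              have := heaps2_ge h
              exact ⟨heap (H - 2) + heap 0 + G.erase H, G.erase H, H - 2, 0,
                by rw [show H - 2 + 0 + 2 = H by omega, Multiset.cons_erase hH], rfl⟩
          rw [out_ones hones] at hout
          exact absurd hout (by decide)
        · rintro G' ⟨R, a, b, hG, rfl⟩ hP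
          have hmem : (a + b + 2) ∈ G := by rw [hG]; exact Multiset.mem_cons_self _ _
          have hR : G.erase (a + b + 2) = R := by rw [hG, Multiset.erase_cons_head]
          have h1 := (step (a + b + 2) hmem a b rfl).mp (by rw [hR]; exact hP)
          rw [hR] at h1
          have hHh : (a + b + 2) ∈ heaps2 := by
            rcases ho _ hmem with h | h
            · omega
            · exact h
          rw [hG] at hout
          exact consistent hHh R hout ⟨a, b, rfl, h1⟩
  exact main _ G rfl ho

end Pool.Agent.Helper77.MK.C34
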