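import Pool.Agent.Helper77.MK.C34Fin

namespace Pool.Agent.Helper77.MK.C34

def tabB (a b e : ℕ) : Bool :=
  bitAt PW_0 40 ((TT >>> (5 * (((0 * 4 + a) * 6 + b) * 3 + e))) % 32)

def refB (a b e : ℕ) : Bool :=
  (Nat.beq a 0 && ((Nat.beq b 1 && Nat.beq e 1) || (Nat.ble 2 b && Nat.beq e 2))) ||
    ((Nat.beq a 1 && (Nat.ble 3 b && Nat.beq e 2)) || (Nat.ble 2 a && (Nat.ble 4 b && Nat.beq e 2)))

theorem chk_tab : allB 4 (fun a => allB 5 (fun b => allB 3 (fun e =>
    (tabB a (b + 1) e == refB a (b + 1) e)))) = true := by decide +kernel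

theorem refB_iff (a b e : ℕ) : refB a b e = true ↔
    ((a = 0 ∧ ((b = 1 ∧ e = 1) ∨ (2 ≤ b ∧ e = 2))) ∨ ((a = 1 ∧ 3 ≤ b ∧ e = 2) ∨
      (2 ≤ a ∧ 4 ≤ b ∧ e = 2))) := by
  unfold refB
  simp only [Bool.or_eq_true, Bool.and_eq_true, Nat.ble_eq, Nat.beq_eq]

theorem ee_one (i j : ℕ) : ee i j = 1 ↔ j = i + 1 := by
  unfold ee
  by_cases h : j ≤ i
  · rw [if_pos h]; omega
  · rw [if_neg h]
    by_cases h' : j ≤ i + 1
    · rw [if_pos h']; omega
    · rw [if_neg h']; omega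

theorem ee_two (i j : ℕ) : ee i j = 2 ↔ i + 2 ≤ j := by
  unfold ee
  by_cases h : j ≤ i
  · rw [if_pos h]; omega
  · rw [if_neg h]
    by_cases h' : j ≤ i + 1
    · rw [if_pos h']; omega
    · rw [if_neg h']; omega

theorem value (i j : ℕ) (hj : 1 ≤ j) :
    bitAt PW_0 40 (tauS 0 i j) = true ↔ (i = 0 ∨ i + 2 ≤ j) := by
  have ha : ci i < 4 := by unfold ci; split_ifs <;> omega
  have hb : 1 ≤ cj j ∧ cj j < 6 := by unfold cj; split_ifs <;> omega
  have he : ee i j < 3 := by unfold ee; split_ifs <;> omega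
  have h1 := allB_spec (allB_spec (allB_spec chk_tab _ ha) (cj j - 1) (by omega)) _ he
  rw [show cj j - 1 + 1 = cj j by omega, beq_iff_eq] at h1
  have h2 : bitAt PW_0 40 (tauS 0 i j) = tabB (ci i) (cj j) (ee i j) := rfl
  have e1 : ci i = 0 ↔ i = 0 := by unfold ci; split_ifs <;> omega
  have e2 : ci i = 1 ↔ i = 1 := by unfold ci; split_ifs <;> omega
  have e3 : 2 ≤ ci i ↔ 2 ≤ i := by unfold ci; split_ifs <;> omega
  have f1 : cj j = 1 ↔ j = 1 := by unfold cj; split_ifs <;> omega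
  have f2 : 2 ≤ cj j ↔ 2 ≤ j := by unfold cj; split_ifs <;> omega
  have f3 : 3 ≤ cj j ↔ 3 ≤ j := by unfold cj; split_ifs <;> omega
  have f4 : 4 ≤ cj j ↔ 4 ≤ j := by unfold cj; split_ifs <;> omega
  have g1 : ee i j = 1 ↔ j = i + 1 := ee_one i j
  have g2 : ee i j = 2 ↔ i + 2 ≤ j := ee_two i j
  rw [h2, h1, refB_iff, e1, e2, e3, f1, f2, f3, f4, g1, g2]
  clear ha hb he h1 h2 e1 e2 e3 f1 f2 f3 f4 g1 g2
  constructor
  · rintro (⟨h, -⟩ | h | h) <;> omega
  · rintro (h | h)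
    · left; omega
    · by_cases h3 : i = 0
      · left; omega
      · right; omega

/-- the positions 19 + 25 + i·30 + j·34 together with `k` heaps 1 -/
def fam (k i j : ℕ) : Multiset ℕ :=
  Multiset.replicate k 1 + (19 ::ₘ 25 ::ₘ (Multiset.replicate i 30 + Multiset.replicate j 34))

theorem rc_add_replicate (n h : ℕ) (hg : gi h = 18) (R : Multiset ℕ) :
    rc (Multiset.replicate n h + R) = rc R := by
  induction n with
  | zero => simp
  | succ n ih => rw [Multiset.replicate_succ, Multiset.cons_add, rc_big hg, ih]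

theorem rc_fam (k i j : ℕ) : rc (fam k i j) = 40 := by
  unfold fam
  rw [rc_add_replicate k 1 rfl, rc_cons, rc_cons, rc_add_replicate i 30 gi30]
  have h : rc (Multiset.replicate j 34) = 0 := by
    have := rc_add_replicate j 34 gi34 0
    rw [add_zero] at this
    rw [this]; unfold rc; simp
  rw [h]
  decide +kernel

theorem ok_fam (k i j : ℕ) : okG (fam k i j) := by
  intro x hx
  unfold fam at hx
  simp only [Multiset.mem_add, Multiset.mem_cons, Multiset.mem_replicate] at hx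
  rcases hx with ⟨-, rfl⟩ | rfl | rfl | ⟨-, rfl⟩ | ⟨-, rfl⟩
  · exact Or.inl rfl
  all_goals (right; decide)

theorem fam_iff (k i j : ℕ) (hj : 1 ≤ j) : MisereP (fam k i j) ↔ (i = 0 ∨ i + 2 ≤ j) := by
  rw [misereP_iff _ (ok_fam k i j), ← value i j hj]
  unfold outM
  rw [rc_fam]
  have h : tauR (fam k i j) = tauS 0 i j := by
    unfold tauR fam
    simp only [Multiset.count_add, Multiset.count_replicate, Multiset.count_cons]
    norm_num
    rfl
  rw [h]

end Pool.Agent.Helper77.MK.C34
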