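import Pool.Agent.Helper77.MK.C34Sem

namespace Pool.Agent.Helper77.MK.C34

/-- class of the rest part of a position -/
def rc (G : Multiset ℕ) : ℕ := (G.map gi).foldr actA 0

def sred (c : ℕ) : ℕ := if c < 2 then c else 2 + c % 2

def tauR (G : Multiset ℕ) : ℕ := tauS (sred (G.count 32)) (G.count 30) (G.count 34)

/-- predicted outcome -/
def outM (G : Multiset ℕ) : Bool := bitAt PW_0 (rc G) (tauR G)

def okG (G : Multiset ℕ) : Prop := ∀ h ∈ G, h = 1 ∨ h ∈ heaps2

theorem sred_lt (c : ℕ) : sred c < 4 := by unfold sred; split_ifs <;> omega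

theorem snext_sred (c : ℕ) : snext (sred c) = sred (c + 1) := by
  unfold snext sred; split_ifs <;> omega

theorem rc_cons (h : ℕ) (G : Multiset ℕ) : rc (h ::ₘ G) = actA (gi h) (rc G) := by
  unfold rc; rw [Multiset.map_cons, Multiset.foldr_cons]

theorem rc_lt (G : Multiset ℕ) : rc G < 624 := cls_lt _

theorem tauR_lt (G : Multiset ℕ) : tauR G < 28 := tauS_lt (sred_lt _) _ _

theorem heap_pos {a : ℕ} (h : a ≠ 0) : heap a = {a} := by unfold heap; rw [if_neg h]

theorem heap_zero : heap 0 = 0 := by unfold heap; rw [if_pos rfl]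

theorem act18 (z : ℕ) : actA 18 z = z := by unfold actA; rw [if_neg (by norm_num)]

theorem fold_heap (a z : ℕ) : ((heap a).map gi).foldr actA z = actA (gi a) z := by
  by_cases h : a = 0
  · subst h
    rw [heap_zero, Multiset.map_zero, Multiset.foldr_zero]
    exact (act18 z).symm
  · rw [heap_pos h, Multiset.map_singleton, Multiset.foldr_singleton]

theorem ycl_eq (a b : ℕ) :
    (((heap a).map gi) + ((heap b).map gi)).foldr actA 0 = ycl a b := by
  rw [Multiset.foldr_add, fold_heap, fold_heap]
  have key : ∀ c z, z < 624 →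
      actA (gi c) z = (if Nat.blt (gi c) 18 then (Gs.getD (gi c) 0 >>> (10 * z)) % 1024 else z) := by
    intro c z hz
    by_cases hc : gi c < 18
    · have : Nat.blt (gi c) 18 = true := by rw [Nat.blt_eq]; exact hc
      rw [this, actA_of _ _ hc hz]; rfl
    · have : Nat.blt (gi c) 18 = false := by
        rw [Bool.eq_false_iff]; intro h; rw [Nat.blt_eq] at h; exact hc h
      rw [this]
      unfold actA; rw [if_neg hc]; rfl
  rw [key a _ (actA_lt _ _ (by norm_num)), key b 0 (by norm_num)]
  rfl

theorem count_heap (c a : ℕ) (h : a ≠ c) : (heap a).count c = 0 := by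
  by_cases h0 : a = 0
  · rw [h0, heap_zero]; simp
  · rw [heap_pos h0, Multiset.count_singleton, if_neg (Ne.symm h)]

theorem isRest_ne {a : ℕ} (h : isRest a = true) : a ≤ 31 ∧ a ≠ 30 := by
  unfold isRest at h
  rw [Bool.and_eq_true] at h
  refine ⟨Nat.le_of_ble_eq_true h.1, ?_⟩
  intro h30
  rw [h30] at h
  exact absurd h.2 (by decide)

theorem isRest_of {a : ℕ} (h : a ≤ 31) (h' : a ≠ 30) : isRest a = true := by
  unfold isRest
  rw [Bool.and_eq_true]
  refine ⟨Nat.ble_eq.mpr h, ?_⟩
  rw [Bool.not_eq_true']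
  exact Bool.eq_false_iff.mpr (fun h1 => h' (Nat.eq_of_beq_eq_true h1))

/-- value of `rc` on the sum of a position and a pair of heaps -/
theorem bit_pair (X a b : ℕ) (R : Multiset ℕ) (hy : Tr actA PW_0 (ycl a b) X) (t : ℕ)
    (ht : t < 32) : bitAt PW_0 (rc (heap a + heap b + R)) t = bitAt X (rc R) t := by
  have h := Tr_apply hy (R.map gi) (((heap a).map gi) + ((heap b).map gi)) (ycl_eq a b) t ht
  unfold rc
  rw [h, Multiset.map_add, Multiset.map_add, add_comm (R.map gi)]

theorem tau_pair (a b : ℕ) (ha : isRest a = true) (hb : isRest b = true) (R : Multiset ℕ) :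
    tauR (heap a + heap b + R) = tauR R := by
  obtain ⟨a1, a2⟩ := isRest_ne ha
  obtain ⟨b1, b2⟩ := isRest_ne hb
  unfold tauR
  simp only [Multiset.count_add]
  rw [count_heap 32 a (by omega), count_heap 32 b (by omega), count_heap 30 a a2,
    count_heap 30 b b2, count_heap 34 a (by omega), count_heap 34 b (by omega)]
  simp

theorem out_pair (a b : ℕ) (ha : isRest a = true) (hb : isRest b = true) (R : Multiset ℕ)
    (hy : ycl a b ∈ Ylist) : outM (heap a + heap b + R) = bitAt (PW (ycl a b)) (rc R) (tauR R) := by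
  unfold outM
  rw [tau_pair a b ha hb]
  exact bit_pair _ a b R (tr_all _ hy) _ (lt_trans (tauR_lt R) (by norm_num))

theorem DWof_bit (l : List (ℕ × ℕ)) (z t : ℕ) :
    bitAt (DWof l) z t = true ↔ ∃ p ∈ l, bitAt (PW (ycl p.1 p.2)) z t = true := by
  induction l with
  | nil => unfold DWof; rw [List.foldr_nil, bitAt_zero]; simp
  | cons p l ih =>
    have h : DWof (p :: l) = PW (ycl p.1 p.2) ||| DWof l := rfl
    rw [h, bitAt_or, Bool.or_eq_true, ih]
    simp

theorem mem_pairsR {H a b : ℕ} (hH : 2 ≤ H) :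
    (a, b) ∈ pairsR H ↔ a + b + 2 = H ∧ isRest a = true ∧ isRest b = true := by
  unfold pairsR
  rw [List.mem_filter, List.mem_map, Bool.and_eq_true]
  constructor
  · rintro ⟨⟨c, hc, he⟩, h2⟩
    rw [List.mem_range] at hc
    have e1 : c = a := congrArg Prod.fst he
    have e2 : H - 2 - c = b := congrArg Prod.snd he
    exact ⟨by omega, h2⟩
  · rintro ⟨h1, h2⟩
    refine ⟨⟨a, List.mem_range.mpr (by omega), ?_⟩, h2⟩
    have : H - 2 - a = b := by omega
    rw [this]

theorem heaps2_ge {H : ℕ} (h : H ∈ heaps2) : 2 ≤ H ∧ H ≤ 34 ∧ H ≠ 33 := by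
  simp only [heaps2, List.mem_cons, List.not_mem_nil, or_false] at h
  omega

theorem DW_bit {H : ℕ} (hH : H ∈ heaps2) (z t : ℕ) :
    bitAt (DWs.getD H 0) z t = true ↔
      ∃ a b, a + b + 2 = H ∧ isRest a = true ∧ isRest b = true ∧
        ycl a b ∈ Ylist ∧ bitAt (PW (ycl a b)) z t = true := by
  have h := chk_DW
  rw [List.all_eq_true] at h
  rw [Nat.eq_of_beq_eq_true (h H hH), DWof_bit]
  have hp := chk_pairs
  rw [List.all_eq_true] at hp
  have hp2 := hp H hH
  rw [List.all_eq_true] at hp2
  constructor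
  · rintro ⟨⟨a, b⟩, hm, hb⟩
    have h1 := (mem_pairsR (heaps2_ge hH).1).mp hm
    have h2 := hp2 _ hm
    exact ⟨a, b, h1.1, h1.2.1, h1.2.2, by simpa using h2, hb⟩
  · rintro ⟨a, b, h1, h2, h3, -, h4⟩
    exact ⟨(a, b), (mem_pairsR (heaps2_ge hH).1).mpr ⟨h1, h2, h3⟩, h4⟩

theorem pair_mem {H a b : ℕ} (hH : H ∈ heaps2) (hab : a + b + 2 = H) (ha : isRest a = true)
    (hb : isRest b = true) : ycl a b ∈ Ylist := by
  have hp := chk_pairs
  rw [List.all_eq_true] at hp
  have hp2 := hp H hH
  rw [List.all_eq_true] at hp2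
  have := hp2 _ ((mem_pairsR (heaps2_ge hH).1).mpr ⟨hab, ha, hb⟩)
  simpa using this

/-- an option of `H` inside the rest heaps -/
theorem DW_opt {H : ℕ} (hH : H ∈ heaps2) (R : Multiset ℕ) :
    bitAt (DWs.getD H 0) (rc R) (tauR R) = true ↔
      ∃ a b, a + b + 2 = H ∧ isRest a = true ∧ isRest b = true ∧
        outM (heap a + heap b + R) = true := by
  rw [DW_bit hH]
  constructor
  · rintro ⟨a, b, h1, h2, h3, h4, h5⟩
    exact ⟨a, b, h1, h2, h3, by rw [out_pair a b h2 h3 R h4]; exact h5⟩
  · rintro ⟨a, b, h1, h2, h3, h5⟩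
    have h4 := pair_mem hH h1 h2 h3
    exact ⟨a, b, h1, h2, h3, h4, by rw [out_pair a b h2 h3 R h4] at h5; exact h5⟩

theorem rest2_sub {H : ℕ} (h : H ∈ rest2) : H ∈ heaps2 ∧ H ≤ 31 ∧ H ≠ 30 := by
  simp only [rest2, heaps2, List.mem_cons, List.not_mem_nil, or_false] at h ⊢
  omega

theorem heaps2_cases {H : ℕ} (h : H ∈ heaps2) : H ∈ rest2 ∨ H = 30 ∨ H = 32 ∨ H = 34 := by
  simp only [rest2, heaps2, List.mem_cons, List.not_mem_nil, or_false] at h ⊢
  omega

/-- the position after a winning move in a heap `H` of `H ::ₘ R` -/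
def HasP (H : ℕ) (R : Multiset ℕ) : Prop :=
  ∃ a b, a + b + 2 = H ∧ outM (heap a + heap b + R) = true

theorem hasP_rest {H : ℕ} (h : H ∈ rest2) (R : Multiset ℕ) :
    HasP H R ↔ bitAt (DWs.getD H 0) (rc R) (tauR R) = true := by
  obtain ⟨h1, h2, h3⟩ := rest2_sub h
  rw [DW_opt h1]
  constructor
  · rintro ⟨a, b, hab, ho⟩
    exact ⟨a, b, hab, isRest_of (by omega) (by omega), isRest_of (by omega) (by omega), ho⟩
  · rintro ⟨a, b, hab, -, -, ho⟩
    exact ⟨a, b, hab, ho⟩

theorem gi30 : gi 30 = 18 := rfl
theorem gi32 : gi 32 = 18 := rfl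
theorem gi34 : gi 34 = 18 := rfl
theorem gi0 : gi 0 = 18 := rfl

theorem rc_big {H : ℕ} (h : gi H = 18) (R : Multiset ℕ) : rc (H ::ₘ R) = rc R := by
  rw [rc_cons, h, act18]

theorem out30 (R : Multiset ℕ) : outM (30 ::ₘ R) =
    bitAt PW_0 (rc R) (tauS (sred (R.count 32)) (R.count 30 + 1) (R.count 34)) := by
  unfold outM tauR
  rw [rc_big gi30]
  simp

theorem out32 (R : Multiset ℕ) : outM (32 ::ₘ R) =
    bitAt PW_0 (rc R) (tauS (snext (sred (R.count 32))) (R.count 30) (R.count 34)) := by
  unfold outM tauR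
  rw [rc_big gi32, snext_sred]
  simp

theorem out34 (R : Multiset ℕ) : outM (34 ::ₘ R) =
    bitAt PW_0 (rc R) (tauS (sred (R.count 32)) (R.count 30) (R.count 34 + 1)) := by
  unfold outM tauR
  rw [rc_big gi34]
  simp

theorem hz_add (H : ℕ) (h : H ≠ 0) (R : Multiset ℕ) :
    heap 0 + heap H + R = H ::ₘ R ∧ heap H + heap 0 + R = H ::ₘ R := by
  rw [heap_zero, heap_pos h, zero_add, add_zero]
  exact ⟨Multiset.singleton_add _ _, Multiset.singleton_add _ _⟩

theorem hasP_30 (R : Multiset ℕ) : HasP 30 R ↔ bitAt DW_30 (rc R) (tauR R) = true := by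
  have h0 : (30 : ℕ) ∈ heaps2 := by decide
  have h := DW_opt h0 R
  have e : DWs.getD 30 0 = DW_30 := rfl
  rw [e] at h
  rw [h]
  constructor
  · rintro ⟨a, b, hab, ho⟩
    exact ⟨a, b, hab, isRest_of (by omega) (by omega), isRest_of (by omega) (by omega), ho⟩
  · rintro ⟨a, b, hab, -, -, ho⟩
    exact ⟨a, b, hab, ho⟩

theorem hasP_32 (R : Multiset ℕ) : HasP 32 R ↔ (bitAt DW_32 (rc R) (tauR R) = true ∨
    bitAt PW_0 (rc R) (tauS (sred (R.count 32)) (R.count 30 + 1) (R.count 34)) = true) := by
  have h0 : (32 : ℕ) ∈ heaps2 := by decide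
  have h := DW_opt h0 R
  have e : DWs.getD 32 0 = DW_32 := rfl
  rw [e] at h
  rw [h, ← out30]
  constructor
  · rintro ⟨a, b, hab, ho⟩
    by_cases ha : a = 30
    · have hb : b = 0 := by omega
      subst ha; subst hb
      rw [(hz_add 30 (by norm_num) R).2] at ho
      exact Or.inr ho
    · by_cases hb : b = 30
      · have ha : a = 0 := by omega
        subst ha; subst hb
        rw [(hz_add 30 (by norm_num) R).1] at ho
        exact Or.inr ho
      · exact Or.inl ⟨a, b, hab, isRest_of (by omega) ha, isRest_of (by omega) hb, ho⟩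
  · rintro (⟨a, b, hab, -, -, ho⟩ | ho)
    · exact ⟨a, b, hab, ho⟩
    · exact ⟨30, 0, by norm_num, by rw [(hz_add 30 (by norm_num) R).2]; exact ho⟩

theorem out_2_30 (R : Multiset ℕ) : outM (heap 2 + heap 30 + R) =
    bitAt PW_1 (rc R) (tauS (sred (R.count 32)) (R.count 30 + 1) (R.count 34)) := by
  have e : heap 2 + heap 30 + R = heap 2 + heap 0 + (30 ::ₘ R) := by
    rw [heap_zero, add_zero, heap_pos (show (30 : ℕ) ≠ 0 by norm_num), add_assoc,
      Multiset.singleton_add]
  rw [e]
  have h1 : ycl 2 0 = 1 := by decide +kernel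
  have h2 := out_pair 2 0 (by decide) (by decide) (30 ::ₘ R) (by rw [h1]; decide)
  rw [h2, h1, rc_big gi30]
  have : tauR (30 ::ₘ R) = tauS (sred (R.count 32)) (R.count 30 + 1) (R.count 34) := by
    unfold tauR; simp
  rw [this]
  rfl

theorem hasP_34 (R : Multiset ℕ) : HasP 34 R ↔ (bitAt DW_34 (rc R) (tauR R) = true ∨
    bitAt PW_0 (rc R) (tauS (snext (sred (R.count 32))) (R.count 30) (R.count 34)) = true ∨
    bitAt PW_1 (rc R) (tauS (sred (R.count 32)) (R.count 30 + 1) (R.count 34)) = true) := by
  have h0 : (34 : ℕ) ∈ heaps2 := by decide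
  have h := DW_opt h0 R
  have e : DWs.getD 34 0 = DW_34 := rfl
  rw [e] at h
  rw [h, ← out32, ← out_2_30]
  constructor
  · rintro ⟨a, b, hab, ho⟩
    by_cases ha : a = 32
    · have hb : b = 0 := by omega
      subst ha; subst hb
      rw [(hz_add 32 (by norm_num) R).2] at ho
      exact Or.inr (Or.inl ho)
    · by_cases hb : b = 32
      · have ha : a = 0 := by omega
        subst ha; subst hb
        rw [(hz_add 32 (by norm_num) R).1] at ho
        exact Or.inr (Or.inl ho)
      · by_cases ha2 : a = 30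
        · have hb : b = 2 := by omega
          subst ha2; subst hb
          rw [add_comm (heap 30)] at ho
          exact Or.inr (Or.inr ho)
        · by_cases hb2 : b = 30
          · have ha : a = 2 := by omega
            subst hb2; subst ha
            exact Or.inr (Or.inr ho)
          · exact Or.inl ⟨a, b, hab, isRest_of (by omega) ha2, isRest_of (by omega) hb2, ho⟩
  · rintro (⟨a, b, hab, -, -, ho⟩ | ho | ho)
    · exact ⟨a, b, hab, ho⟩
    · exact ⟨32, 0, by norm_num, by rw [(hz_add 32 (by norm_num) R).2]; exact ho⟩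
    · exact ⟨2, 30, by norm_num, ho⟩

/-- consistency: from a position predicted P no option is predicted P -/
theorem consistent {H : ℕ} (hH : H ∈ heaps2) (R : Multiset ℕ) (h1 : outM (H ::ₘ R) = true)
    (h2 : HasP H R) : False := by
  rcases heaps2_cases hH with h | rfl | rfl | rfl
  · have h3 := (hasP_rest h R).mp h2
    obtain ⟨h4, h5, h6⟩ := rest2_sub h
    have hA := chk_A
    rw [List.all_eq_true] at hA
    have hS := chk_single
    rw [List.all_eq_true] at hS
    have hy : ycl H 0 ∈ Ylist := by simpa using hS H h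
    have h7 := out_pair H 0 (isRest_of h5 h6) (by decide) R hy
    rw [(hz_add H (by have := (heaps2_ge h4).1; omega) R).2, h1] at h7
    have h8 := Nat.eq_of_beq_eq_true (hA H h)
    have h9 : bitAt (PW (ycl H 0) &&& DWs.getD H 0) (rc R) (tauR R) = true := by
      rw [bitAt_and, ← h7, h3]; rfl
    rw [h8, bitAt_zero] at h9
    exact absurd h9 (by simp)
  · rw [out30] at h1
    exact noP30 (sred_lt _) (rc_lt R) h1 ((hasP_30 R).mp h2)
  · rw [out32] at h1
    exact noP32 (sred_lt _) (rc_lt R) h1 ((hasP_32 R).mp h2)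
  · rw [out34] at h1
    exact noP34 (sred_lt _) (rc_lt R) h1 ((hasP_34 R).mp h2)

/-! ### stuck positions -/

/-- generator number `a` (or a trivial heap) belongs to the submonoid number `m` -/
def genM (m H : ℕ) : Bool := Nat.testBit (GM.getD (gi H) 0) m

theorem gi_le (H : ℕ) : gi H < 18 ∨ gi H = 18 := by
  by_cases h : H < 35
  · interval_cases H <;> decide
  · right
    have : gi H = 18 := by
      show List.getD _ H 18 = 18
      rw [List.getD_eq_default]
      simpa using h
    exact this

theorem memM_cls (m : ℕ) (hm : m < 12) (G : Multiset ℕ)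
    (h : ∀ H ∈ G, gi H = 18 ∨ genM m H = true) : bitAt MW (rc G) m = true := by
  induction G using Multiset.induction with
  | empty =>
    have h0 := Nat.eq_of_beq_eq_true chk_M0
    have h1 : rc 0 = 0 := by unfold rc; simp
    rw [h1, ← word_testBit _ _ _ (by omega)]
    have h2 : (word MW 0 &&& 4095).testBit m = true := by
      rw [h0, show (4095 : ℕ) = 2 ^ 12 - 1 by norm_num, Nat.testBit_two_pow_sub_one]
      simp [hm]
    rw [Nat.testBit_and, Bool.and_eq_true] at h2
    exact h2.1
  | cons H G ih =>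
    have ih' := ih (fun K hK => h K (Multiset.mem_cons_of_mem hK))
    rw [rc_cons]
    rcases h H (Multiset.mem_cons_self _ _) with h1 | h1
    · rw [h1, act18]; exact ih'
    · rcases gi_le H with h2 | h2
      · have hc := chk_M
        rw [List.all_eq_true] at hc
        have hc1 := allB_spec (hc (gi H) (List.mem_range.mpr h2)) (rc G) (rc_lt G)
        have hc2 := Nat.eq_of_beq_eq_true hc1
        rw [← actA_of _ _ h2 (rc_lt G)] at hc2
        have hm32 : m < 32 := by omega
        have h3 : ((word MW (rc G) &&& GM.getD (gi H) 0) &&&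
            word MW (actA (gi H) (rc G))).testBit m = true := by
          rw [hc2, Nat.testBit_and, word_testBit _ _ _ hm32, ih']
          exact h1
        rw [Nat.testBit_and, Bool.and_eq_true, word_testBit _ _ _ hm32] at h3
        exact h3.2
      · rw [h2, act18]; exact ih'

theorem nt_of {H : ℕ} (hH : H = 1 ∨ H ∈ heaps2) (h : gi H ≠ 18) : H ∈ ntHeaps := by
  rcases hH with rfl | hH
  · exact absurd rfl h
  · simp only [heaps2, List.mem_cons, List.not_mem_nil, or_false] at hH
    rcases hH with rfl | rfl | rfl | rfl | rfl | rfl | rfl | rfl | rfl | rfl | rfl | rfl | rfl |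
      rfl | rfl | rfl | rfl | rfl | rfl | rfl | rfl | rfl | rfl | rfl | rfl | rfl | rfl | rfl |
      rfl | rfl | rfl | rfl <;> first | decide | exact absurd rfl h

theorem nt_rest {H : ℕ} (h : H ∈ ntHeaps) : H ∈ rest2 ∧ gi H < 18 := by
  simp only [ntHeaps, List.mem_cons, List.not_mem_nil, or_false] at h
  rcases h with rfl | rfl | rfl | rfl | rfl | rfl | rfl | rfl | rfl | rfl | rfl | rfl | rfl |
      rfl | rfl | rfl | rfl | rfl | rfl | rfl | rfl | rfl | rfl | rfl | rfl | rfl <;> decide

theorem full_bit (t : ℕ) (ht : t < 28) : (268435455 : ℕ).testBit t = true := by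
  rw [show (268435455 : ℕ) = 2 ^ 28 - 1 by norm_num, Nat.testBit_two_pow_sub_one]
  simp [ht]

/-- if `z` is not in the table `TW` of the heap `H`, then `H` has a winning option -/
theorem TW_use {H : ℕ} (hH : H ∈ ntHeaps) (y t : ℕ) (hy : y < 624) (ht : t < 28)
    (h : bitAt (TWs.getD (gi H) 0) (actA (gi H) y) t = false) :
    bitAt (DWs.getD H 0) y t = true := by
  have hc := chk_TW
  rw [List.all_eq_true] at hc
  have h1 := Nat.eq_of_beq_eq_true (allB_spec (hc H hH) y hy)
  rw [← actA_of _ _ (nt_rest hH).2 hy] at h1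
  have h2 := congrArg (fun x => Nat.testBit x t) h1
  simp only [Nat.testBit_and, Nat.testBit_or] at h2
  rw [full_bit t ht, word_testBit _ _ _ (by omega), word_testBit _ _ _ (by omega), h] at h2
  simpa using h2

/-- no rest heap of `G` has a winning option -/
def Stuck (G : Multiset ℕ) : Prop :=
  ∀ H ∈ G, H ∈ rest2 → bitAt (DWs.getD H 0) (rc (G.erase H)) (tauR G) = false

theorem rc_erase {G : Multiset ℕ} {H : ℕ} (h : H ∈ G) : rc G = actA (gi H) (rc (G.erase H)) := by
  conv_lhs => rw [← Multiset.cons_erase h]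
  rw [rc_cons]

theorem chain_sound {G : Multiset ℕ} (ho : okG G) (hs : Stuck G) :
    ∀ (ms : List ℕ) (m : ℕ), m < 12 → (∀ k ∈ ms, k < 12) →
      (∀ H ∈ G, gi H = 18 ∨ genM m H = true) →
      chainB (tauR G) (rc G) m ms = true → False := by
  intro ms
  induction ms with
  | nil =>
    intro m hm _ h1 h2
    have h3 := memM_cls m hm G h1
    have h4 : (!(bitAt MW (rc G) m)) = true := h2
    rw [h3] at h4
    exact absurd h4 (by decide)
  | cons m' ms ih =>
    intro m hm hms h1 h2
    have h3 : (ntHeaps.all (stepB (tauR G) (rc G) m m') && chainB (tauR G) (rc G) m' ms) = true := h2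
    rw [Bool.and_eq_true, List.all_eq_true] at h3
    refine ih m' (hms m' List.mem_cons_self) (fun k hk => hms k (List.mem_cons_of_mem _ hk)) ?_ h3.2
    intro H hH
    by_cases hg : gi H = 18
    · exact Or.inl hg
    · right
      have hnt := nt_of (ho H hH) hg
      have h4 := h3.1 H hnt
      have h5 : genM m H = true := (h1 H hH).resolve_left hg
      unfold stepB at h4
      rw [Bool.or_eq_true, Bool.or_eq_true] at h4
      rcases h4 with (h4 | h4) | h4
      · unfold genM at h5; rw [h5] at h4; exact absurd h4 (by decide)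
      · exact h4
      · exfalso
        have hy := rc_lt (G.erase H)
        have h6 := allB_spec h4 _ hy
        have h7 : bitAt MW (rc (G.erase H)) m = true :=
          memM_cls m hm _ (fun K hK => h1 K (Multiset.mem_of_mem_erase hK))
        rw [h7, ← actA_of _ _ (nt_rest hnt).2 hy, ← rc_erase hH,
          hs H hH (nt_rest hnt).1] at h6
        simp at h6

theorem foldr_and_bit (f : ℕ → ℕ) (l : List ℕ) (X i : ℕ) :
    Nat.testBit (l.foldr (fun k acc => f k &&& acc) X) i = true ↔
      (Nat.testBit X i = true ∧ ∀ k ∈ l, Nat.testBit (f k) i = true) := by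
  induction l with
  | nil => simp
  | cons k l ih =>
    rw [List.foldr_cons, Nat.testBit_and, Bool.and_eq_true, ih]
    simp only [List.forall_mem_cons]
    tauto

theorem exw_bit (l : List (ℕ × ℕ × List ℕ)) (i : ℕ) :
    Nat.testBit (l.foldr (fun e acc => 2 ^ (32 * e.2.1 + e.1) ||| acc) 0) i = true →
      ∃ e ∈ l, 32 * e.2.1 + e.1 = i := by
  induction l with
  | nil => simp
  | cons e l ih =>
    rw [List.foldr_cons, Nat.testBit_or, Bool.or_eq_true, Nat.testBit_two_pow]
    rintro (h | h)
    · exact ⟨e, List.mem_cons_self, by simpa using h⟩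
    · obtain ⟨e', he, h'⟩ := ih h
      exact ⟨e', List.mem_cons_of_mem _ he, h'⟩

theorem KW_bit {k a i : ℕ} (ha : a < 18) (hk : Nat.testBit (GM.getD a 0) k = false)
    (h : Nat.testBit (KW k) i = false) : Nat.testBit (TWs.getD a 0) i = false := by
  have aux : ∀ l : List ℕ, a ∈ l →
      Nat.testBit (l.foldr (fun a acc =>
        (if Nat.testBit (GM.getD a 0) k then 0 else TWs.getD a 0) ||| acc) 0) i = false →
      Nat.testBit (TWs.getD a 0) i = false := by
    intro l
    induction l with
    | nil => simp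
    | cons b l ih =>
      intro h1 h2
      rw [List.foldr_cons, Nat.testBit_or, Bool.or_eq_false_iff] at h2
      rcases List.mem_cons.mp h1 with rfl | h3
      · rw [hk] at h2; exact h2.1
      · exact ih h3 h2.2
  exact aux _ (List.mem_range.mpr ha) h

/-- a class listed in `SSW` is never stuck -/
theorem SS_sound {G : Multiset ℕ} (ho : okG G) (hs : Stuck G)
    (h : bitAt SSW (rc G) (tauR G) = true) : False := by
  have hz := rc_lt G
  have ht := tauR_lt G
  have hin := Nat.eq_of_beq_eq_true chk_SS
  by_cases hex : bitAt EXW (rc G) (tauR G) = true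
  · obtain ⟨e, he, hi⟩ := exw_bit _ _ hex
    have hc := chk_ex
    rw [List.all_eq_true] at hc
    have h1 := hc e he
    obtain ⟨t, z, ms⟩ := e
    cases ms with
    | nil => exact absurd h1 (by simp [exB])
    | cons m ms =>
      have h2 : (Nat.ble (t + 1) 28 && (headB t z m && (ms.all (fun k => Nat.ble (k + 1) 12) &&
        (Nat.ble (m + 1) 12 && chainB t z m ms)))) = true := h1
      simp only [Bool.and_eq_true] at h2
      obtain ⟨a1, a2, a3, a4, a5⟩ := h2
      have ht28 := Nat.le_of_ble_eq_true a1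
      have hm12 := Nat.le_of_ble_eq_true a4
      have e1 : z = rc G ∧ t = tauR G := by
        have : 32 * z + t = 32 * rc G + tauR G := hi
        omega
      obtain ⟨rfl, rfl⟩ := e1
      refine chain_sound ho hs ms m (by omega) ?_ ?_ a5
      · intro k hk
        rw [List.all_eq_true] at a3
        have := Nat.le_of_ble_eq_true (a3 k hk)
        omega
      · intro H hH
        by_cases hg : gi H = 18
        · exact Or.inl hg
        · right
          have hnt := nt_of (ho H hH) hg
          unfold headB at a2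
          rw [List.all_eq_true] at a2
          have h3 := a2 H hnt
          rw [Bool.or_eq_true] at h3
          rcases h3 with h3 | h3
          · exact h3
          · exfalso
            rw [rc_erase hH] at h3
            have h4 := TW_use hnt _ _ (rc_lt (G.erase H)) (tauR_lt G) (by simpa using h3)
            rw [hs H hH (nt_rest hnt).1] at h4
            exact absurd h4 (by decide)
  · have h1 : ¬ (∀ k ∈ List.range 11,
        Nat.testBit (KW k ||| M1 k) (32 * rc G + tauR G) = true) := by
      intro h2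
      apply hex
      have h3 := (foldr_and_bit (fun k => KW k ||| M1 k) (List.range 11) SSW
        (32 * rc G + tauR G)).mpr ⟨h, h2⟩
      unfold bitAt
      rw [← hin]
      exact h3
    push Not at h1
    obtain ⟨k, hk, hk2⟩ := h1
    rw [List.mem_range] at hk
    have hk3 : Nat.testBit (KW k ||| M1 k) (32 * rc G + tauR G) = false := by
      simpa using hk2
    rw [Nat.testBit_or, Bool.or_eq_false_iff] at hk3
    have hM : bitAt MW (rc G) k = false := by
      have h4 := allB_spec (allB_spec chk_M1 k hk) (rc G) hz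
      have h5 := Nat.eq_of_beq_eq_true h4
      by_contra h6
      rw [Bool.not_eq_false] at h6
      rw [h6] at h5
      have h7 := congrArg (fun x => Nat.testBit x (tauR G)) h5
      simp only [word_testBit _ _ _ (show tauR G < 32 by omega)] at h7
      have h8 : bitAt (M1 k) (rc G) (tauR G) = false := hk3.2
      rw [h8] at h7
      simp only [if_true] at h7
      rw [full_bit _ ht] at h7
      exact absurd h7 (by decide)
    have hall : ∀ H ∈ G, gi H = 18 ∨ genM k H = true := by
      intro H hH
      by_cases hg : gi H = 18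
      · exact Or.inl hg
      · right
        by_contra hgen
        have hnt := nt_of (ho H hH) hg
        have h5 : bitAt (TWs.getD (gi H) 0) (rc G) (tauR G) = false := by
          unfold bitAt
          refine KW_bit (nt_rest hnt).2 ?_ hk3.1
          unfold genM at hgen
          simpa using hgen
        rw [rc_erase hH] at h5
        have h6 := TW_use hnt _ _ (rc_lt (G.erase H)) (tauR_lt G) h5
        rw [hs H hH (nt_rest hnt).1] at h6
        exact absurd h6 (by decide)
    have h9 := memM_cls k (by omega) G hall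
    rw [hM] at h9
    exact absurd h9 (by decide)

end Pool.Agent.Helper77.MK.C34
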