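import Pool.Agent.Helper77.MK.C34Tr
import Pool.Agent.Helper77.MK.C34Chk3

namespace Pool.Agent.Helper77.MK.C34

/-! ### levels -/

theorem ci_add (x : ℕ) (h : 2 ≤ x) : ci (x + 2) = ci x := by
  unfold ci; split_ifs <;> omega

theorem cj_add (x : ℕ) (h : 4 ≤ x) : cj (x + 2) = cj x := by
  unfold cj; split_ifs <;> omega

theorem tauS_congr {s a b a' b' : ℕ} (h1 : ci a = ci a') (h2 : cj b = cj b')
    (h3 : ee a b = ee a' b') : tauS s a b = tauS s a' b' := by
  unfold tauS; rw [h1, h2, h3]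

theorem tauS_diag (s a b : ℕ) (ha : 2 ≤ a) (hb : 4 ≤ b) : tauS s (a + 2) (b + 2) = tauS s a b :=
  tauS_congr (ci_add a ha) (cj_add b hb) (by unfold ee; split_ifs <;> omega)

theorem tauS_up (s a b : ℕ) (hb : 4 ≤ b) (h : a + 2 ≤ b) : tauS s a (b + 2) = tauS s a b :=
  tauS_congr rfl (cj_add b hb) (by unfold ee; split_ifs <;> omega)

theorem tauS_right (s a b : ℕ) (ha : 2 ≤ a) (h : b ≤ a) : tauS s (a + 2) b = tauS s a b :=
  tauS_congr (ci_add a ha) rfl (by unfold ee; split_ifs <;> omega)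

/-- the same levels around `(i, j)` and `(i', j')` -/
def SameWin (i j i' j' : ℕ) : Prop :=
  (i = 0 ↔ i' = 0) ∧ (j = 0 ↔ j' = 0) ∧ ∀ s, tauS s i j = tauS s i' j' ∧
    tauS s (i + 1) j = tauS s (i' + 1) j' ∧ tauS s i (j + 1) = tauS s i' (j' + 1) ∧
    tauS s (i - 1) j = tauS s (i' - 1) j' ∧ tauS s i (j - 1) = tauS s i' (j' - 1) ∧
    tauS s (i + 1) (j - 1) = tauS s (i' + 1) (j' - 1)

theorem SameWin.trans {i j i' j' i'' j'' : ℕ} (h : SameWin i j i' j') (k : SameWin i' j' i'' j'') :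
    SameWin i j i'' j'' := by
  refine ⟨h.1.trans k.1, h.2.1.trans k.2.1, fun s => ?_⟩
  obtain ⟨a1, a2, a3, a4, a5, a6⟩ := h.2.2 s
  obtain ⟨b1, b2, b3, b4, b5, b6⟩ := k.2.2 s
  exact ⟨a1.trans b1, a2.trans b2, a3.trans b3, a4.trans b4, a5.trans b5, a6.trans b6⟩

theorem win_diag (i j : ℕ) (hi : 3 ≤ i) (hj : 5 ≤ j) : SameWin (i + 2) (j + 2) i j := by
  refine ⟨by omega, by omega, fun s => ⟨tauS_diag s i j (by omega) (by omega), ?_, ?_, ?_, ?_, ?_⟩⟩
  · exact tauS_diag s (i + 1) j (by omega) (by omega)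
  · exact tauS_diag s i (j + 1) (by omega) (by omega)
  · have := tauS_diag s (i - 1) j (by omega) (by omega)
    rwa [show i - 1 + 2 = i + 2 - 1 by omega] at this
  · have := tauS_diag s i (j - 1) (by omega) (by omega)
    rwa [show j - 1 + 2 = j + 2 - 1 by omega] at this
  · have := tauS_diag s (i + 1) (j - 1) (by omega) (by omega)
    rwa [show j - 1 + 2 = j + 2 - 1 by omega] at this

theorem win_up (i j : ℕ) (hj : 5 ≤ j) (h : i + 4 ≤ j) : SameWin i (j + 2) i j := by
  refine ⟨by omega, by omega, fun s => ⟨tauS_up s i j (by omega) (by omega), ?_, ?_, ?_, ?_, ?_⟩⟩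
  · exact tauS_up s (i + 1) j (by omega) (by omega)
  · exact tauS_up s i (j + 1) (by omega) (by omega)
  · exact tauS_up s (i - 1) j (by omega) (by omega)
  · have := tauS_up s i (j - 1) (by omega) (by omega)
    rwa [show j - 1 + 2 = j + 2 - 1 by omega] at this
  · have := tauS_up s (i + 1) (j - 1) (by omega) (by omega)
    rwa [show j - 1 + 2 = j + 2 - 1 by omega] at this

theorem win_right (i j : ℕ) (hi : 3 ≤ i) (h : j + 3 ≤ i) : SameWin (i + 2) j i j := by
  refine ⟨by omega, by omega, fun s => ⟨tauS_right s i j (by omega) (by omega), ?_, ?_, ?_, ?_, ?_⟩⟩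
  · exact tauS_right s (i + 1) j (by omega) (by omega)
  · exact tauS_right s i (j + 1) (by omega) (by omega)
  · have := tauS_right s (i - 1) j (by omega) (by omega)
    rwa [show i - 1 + 2 = i + 2 - 1 by omega] at this
  · exact tauS_right s i (j - 1) (by omega) (by omega)
  · exact tauS_right s (i + 1) (j - 1) (by omega) (by omega)

theorem exists_win : ∀ n i j : ℕ, i + j = n → ∃ i' j', i' < 11 ∧ j' < 10 ∧ SameWin i j i' j' := by
  intro n
  induction n using Nat.strong_induction_on with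
  | _ n ih =>
    intro i j hij
    by_cases h1 : 5 ≤ i ∧ 7 ≤ j
    · obtain ⟨i', j', a, b, c⟩ := ih (n - 4) (by omega) (i - 2) (j - 2) (by omega)
      have h2 := win_diag (i - 2) (j - 2) (by omega) (by omega)
      rw [show i - 2 + 2 = i by omega, show j - 2 + 2 = j by omega] at h2
      exact ⟨i', j', a, b, h2.trans c⟩
    · by_cases h2 : i + 6 ≤ j ∧ 7 ≤ j
      · obtain ⟨i', j', a, b, c⟩ := ih (n - 2) (by omega) i (j - 2) (by omega)
        have h3 := win_up i (j - 2) (by omega) (by omega)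
        rw [show j - 2 + 2 = j by omega] at h3
        exact ⟨i', j', a, b, h3.trans c⟩
      · by_cases h3 : j + 5 ≤ i ∧ 5 ≤ i
        · obtain ⟨i', j', a, b, c⟩ := ih (n - 2) (by omega) (i - 2) j (by omega)
          have h4 := win_right (i - 2) j (by omega) (by omega)
          rw [show i - 2 + 2 = i by omega] at h4
          exact ⟨i', j', a, b, h4.trans c⟩
        · exact ⟨i, j, by omega, by omega, Iff.rfl, Iff.rfl,
            fun s => ⟨rfl, rfl, rfl, rfl, rfl, rfl⟩⟩

theorem cells {s i j : ℕ} (hs : s < 4) (hi : i < 11) (hj : j < 10) :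
    cellA s i j = true ∧ cellB s i j = true := by
  have h := allB_spec (allB_spec (allB_spec chk_cells s hs) i hi) j hj
  rwa [Bool.and_eq_true] at h

theorem PL_bit {z : ℕ} (hz : z < 624) : bitAt PL z 0 = true := allB_spec chk_PL z hz

theorem tauS_lt {s : ℕ} (hs : s < 4) (i j : ℕ) : tauS s i j < 28 := by
  obtain ⟨i', j', hi, hj, hw⟩ := exists_win _ i j rfl
  have h := (cells hs hi hj).1
  unfold cellA at h
  simp only [Bool.and_eq_true] at h
  have h4 := Nat.le_of_ble_eq_true h.2.2.2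
  rw [(hw.2.2 s).1]
  omega

theorem disj_of {X Y : ℕ} (h : Nat.beq ((X &&& Y) &&& PL) 0 = true) {z : ℕ} (hz : z < 624)
    (hX : bitAt X z 0 = true) (hY : bitAt Y z 0 = true) : False := by
  have h1 := Nat.eq_of_beq_eq_true h
  have h2 : bitAt ((X &&& Y) &&& PL) z 0 = true := by
    rw [bitAt_and, bitAt_and, hX, hY, PL_bit hz]; rfl
  rw [h1, bitAt_zero] at h2
  exact absurd h2 (by simp)

theorem snext_lt {s : ℕ} (hs : s < 4) : snext s < 4 := by
  unfold snext; split_ifs <;> omega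

/-- consistency for the heap 30 -/
theorem noP30 {s i j z : ℕ} (hs : s < 4) (hz : z < 624)
    (h1 : bitAt PW_0 z (tauS s (i + 1) j) = true) (h2 : bitAt DW_30 z (tauS s i j) = true) :
    False := by
  obtain ⟨i', j', hi, hj, hw⟩ := exists_win _ i j rfl
  have h := (cells hs hi hj).1
  unfold cellA D30 at h
  simp only [Bool.and_eq_true] at h
  obtain ⟨a1, a2, a3, -, -, -⟩ := hw.2.2 s
  refine disj_of h.1 hz ?_ ?_
  · rw [bitAt_shift, ← a2]; exact h1
  · rw [bitAt_shift, ← a1]; exact h2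

theorem noP32 {s i j z : ℕ} (hs : s < 4) (hz : z < 624)
    (h1 : bitAt PW_0 z (tauS (snext s) i j) = true)
    (h2 : bitAt DW_32 z (tauS s i j) = true ∨ bitAt PW_0 z (tauS s (i + 1) j) = true) :
    False := by
  obtain ⟨i', j', hi, hj, hw⟩ := exists_win _ i j rfl
  have h := (cells hs hi hj).1
  unfold cellA D32 at h
  simp only [Bool.and_eq_true] at h
  obtain ⟨a1, a2, a3, -, -, -⟩ := hw.2.2 s
  refine disj_of h.2.1 hz ?_ ?_
  · rw [bitAt_shift, ← (hw.2.2 (snext s)).1]; exact h1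
  · rw [bitAt_or, bitAt_shift, bitAt_shift, ← a1, ← a2, Bool.or_eq_true]; exact h2

theorem noP34 {s i j z : ℕ} (hs : s < 4) (hz : z < 624)
    (h1 : bitAt PW_0 z (tauS s i (j + 1)) = true)
    (h2 : bitAt DW_34 z (tauS s i j) = true ∨ bitAt PW_0 z (tauS (snext s) i j) = true ∨
      bitAt PW_1 z (tauS s (i + 1) j) = true) : False := by
  obtain ⟨i', j', hi, hj, hw⟩ := exists_win _ i j rfl
  have h := (cells hs hi hj).1
  unfold cellA D34 at h
  simp only [Bool.and_eq_true] at h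
  obtain ⟨a1, a2, a3, -, -, -⟩ := hw.2.2 s
  refine disj_of h.2.2.1 hz ?_ ?_
  · rw [bitAt_shift, ← a3]; exact h1
  · rw [bitAt_or, bitAt_or, bitAt_shift, bitAt_shift, bitAt_shift, ← a1, ← a2,
      ← (hw.2.2 (snext s)).1, Bool.or_eq_true, Bool.or_eq_true]
    exact h2

/-- covering -/
theorem cover_cases {s i j z : ℕ} (hs : s < 4) (hz : z < 624) :
    bitAt PW_0 z (tauS s i j) = true ∨ bitAt SSW z (tauS s i j) = true ∨
    (0 < i ∧ bitAt DW_30 z (tauS s (i - 1) j) = true) ∨
    (0 < j ∧ (bitAt DW_34 z (tauS s i (j - 1)) = true ∨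
      bitAt PW_0 z (tauS (snext s) i (j - 1)) = true ∨
      bitAt PW_1 z (tauS s (i + 1) (j - 1)) = true)) ∨
    (s = 1 ∧ (bitAt DW_32 z (tauS 0 i j) = true ∨ bitAt PW_0 z (tauS 0 (i + 1) j) = true)) ∨
    (s = 2 ∧ (bitAt DW_32 z (tauS 1 i j) = true ∨ bitAt PW_0 z (tauS 1 (i + 1) j) = true) ∧
      (bitAt DW_32 z (tauS 3 i j) = true ∨ bitAt PW_0 z (tauS 3 (i + 1) j) = true)) ∨
    (s = 3 ∧ (bitAt DW_32 z (tauS 2 i j) = true ∨ bitAt PW_0 z (tauS 2 (i + 1) j) = true)) ∨
    (s = 0 ∧ i = 0 ∧ j = 0 ∧ z = 0) := by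
  obtain ⟨i', j', hi, hj, hw⟩ := exists_win _ i j rfl
  have h := (cells hs hi hj).2
  unfold cellB at h
  have h0 := Nat.eq_of_beq_eq_true h
  have h1 : bitAt (cover s i' j' &&& PL) z 0 = true := by rw [h0]; exact PL_bit hz
  rw [bitAt_and, Bool.and_eq_true] at h1
  have h2 := h1.1
  unfold cover at h2
  have hw0 := fun s => (hw.2.2 s).1
  have hw1 := fun s => (hw.2.2 s).2.1
  have hw3 := fun s => (hw.2.2 s).2.2.2.1
  have hw4 := fun s => (hw.2.2 s).2.2.2.2.1
  have hw5 := fun s => (hw.2.2 s).2.2.2.2.2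
  rw [bitAt_or, bitAt_or, bitAt_or, bitAt_or, bitAt_or, bitAt_shift, bitAt_shift, ← hw0] at h2
  simp only [Bool.or_eq_true] at h2
  rcases h2 with h2 | h2 | h2 | h2 | h2 | h2
  · exact Or.inl h2
  · exact Or.inr (Or.inl h2)
  · refine Or.inr (Or.inr (Or.inl ?_))
    split_ifs at h2 with h3
    · rw [bitAt_zero] at h2; exact absurd h2 (by simp)
    · unfold D30 at h2
      rw [bitAt_shift, ← hw3] at h2
      refine ⟨?_, h2⟩
      have := hw.1
      omega
  · refine Or.inr (Or.inr (Or.inr (Or.inl ?_)))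
    split_ifs at h2 with h3
    · rw [bitAt_zero] at h2; exact absurd h2 (by simp)
    · unfold D34 at h2
      rw [bitAt_or, bitAt_or, bitAt_shift, bitAt_shift, bitAt_shift, ← hw4, ← hw4, ← hw5,
        Bool.or_eq_true, Bool.or_eq_true] at h2
      refine ⟨?_, h2⟩
      have := hw.2.1
      omega
  · unfold kill at h2
    by_cases s0 : s = 0
    · rw [if_pos s0, bitAt_zero] at h2; exact absurd h2 (by simp)
    · rw [if_neg s0] at h2
      by_cases s1 : s = 1
      · rw [if_pos s1] at h2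
        unfold D32 at h2
        rw [bitAt_or, bitAt_shift, bitAt_shift, ← hw0, ← hw1, Bool.or_eq_true] at h2
        exact Or.inr (Or.inr (Or.inr (Or.inr (Or.inl ⟨s1, h2⟩))))
      · rw [if_neg s1] at h2
        by_cases s2 : s = 2
        · rw [if_pos s2] at h2
          unfold D32 at h2
          rw [bitAt_and, bitAt_or, bitAt_or, bitAt_shift, bitAt_shift, bitAt_shift, bitAt_shift,
            ← hw0, ← hw1, ← hw0, ← hw1, Bool.and_eq_true, Bool.or_eq_true, Bool.or_eq_true] at h2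
          exact Or.inr (Or.inr (Or.inr (Or.inr (Or.inr (Or.inl ⟨s2, h2⟩)))))
        · rw [if_neg s2] at h2
          unfold D32 at h2
          rw [bitAt_or, bitAt_shift, bitAt_shift, ← hw0, ← hw1, Bool.or_eq_true] at h2
          exact Or.inr (Or.inr (Or.inr (Or.inr (Or.inr (Or.inr (Or.inl ⟨by omega, h2⟩))))))
  · refine Or.inr (Or.inr (Or.inr (Or.inr (Or.inr (Or.inr (Or.inr ?_))))))
    split_ifs at h2 with h3
    · have h4 : z = 0 := by
        unfold bitAt at h2
        by_contra hz0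
        have : Nat.testBit (2 ^ 0) (32 * z + 0) = false := by
          rw [Nat.testBit_two_pow]
          simp
          omega
        rw [pow_zero] at this
        rw [this] at h2
        exact absurd h2 (by simp)
      have := hw.1
      have := hw.2.1
      exact ⟨by omega, by omega, by omega, h4⟩
    · rw [bitAt_zero] at h2; exact absurd h2 (by simp)

end Pool.Agent.Helper77.MK.C34
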