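import Pool.Agent.Helper77.MK.C34Act

namespace Pool.Agent.Helper77.MK.C34

theorem hT (g : ℕ) (hg : g < 18) : ∀ z, z < 624 → ((Gs.getD g 0) >>> (10 * z)) % 1024 = actA g z :=
  fun z hz => (actA_of g z hg hz).symm

theorem tr_0 : Tr actA PW_0 0 PW_0 := Tr_zero actA PW_0

theorem tr_1 : Tr actA PW_0 1 PW_1 := Tr_step tr_0 0 1 PW_1 G_0 cls_lt (hT 0 (by norm_num))
  (by decide +kernel) (by decide +kernel)
theorem tr_2 : Tr actA PW_0 2 PW_2 := Tr_step tr_0 1 2 PW_2 G_1 cls_lt (hT 1 (by norm_num))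
  (by decide +kernel) (by decide +kernel)
theorem tr_3 : Tr actA PW_0 3 PW_3 := Tr_step tr_0 2 3 PW_3 G_2 cls_lt (hT 2 (by norm_num))
  (by decide +kernel) (by decide +kernel)
theorem tr_4 : Tr actA PW_0 4 PW_4 := Tr_step tr_0 3 4 PW_4 G_3 cls_lt (hT 3 (by norm_num))
  (by decide +kernel) (by decide +kernel)
theorem tr_5 : Tr actA PW_0 5 PW_5 := Tr_step tr_0 4 5 PW_5 G_4 cls_lt (hT 4 (by norm_num))
  (by decide +kernel) (by decide +kernel)
theorem tr_6 : Tr actA PW_0 6 PW_6 := Tr_step tr_0 5 6 PW_6 G_5 cls_lt (hT 5 (by norm_num))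
  (by decide +kernel) (by decide +kernel)
theorem tr_7 : Tr actA PW_0 7 PW_7 := Tr_step tr_0 6 7 PW_7 G_6 cls_lt (hT 6 (by norm_num))
  (by decide +kernel) (by decide +kernel)
theorem tr_8 : Tr actA PW_0 8 PW_8 := Tr_step tr_0 7 8 PW_8 G_7 cls_lt (hT 7 (by norm_num))
  (by decide +kernel) (by decide +kernel)
theorem tr_9 : Tr actA PW_0 9 PW_9 := Tr_step tr_6 0 9 PW_9 G_0 cls_lt (hT 0 (by norm_num))
  (by decide +kernel) (by decide +kernel)
theorem tr_10 : Tr actA PW_0 10 PW_10 := Tr_step tr_0 9 10 PW_10 G_9 cls_lt (hT 9 (by norm_num))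
  (by decide +kernel) (by decide +kernel)
theorem tr_11 : Tr actA PW_0 11 PW_11 := Tr_step tr_0 10 11 PW_11 G_10 cls_lt (hT 10 (by norm_num))
  (by decide +kernel) (by decide +kernel)
theorem tr_12 : Tr actA PW_0 12 PW_12 := Tr_step tr_0 11 12 PW_12 G_11 cls_lt (hT 11 (by norm_num))
  (by decide +kernel) (by decide +kernel)
theorem tr_13 : Tr actA PW_0 13 PW_13 := Tr_step tr_12 0 13 PW_13 G_0 cls_lt (hT 0 (by norm_num))
  (by decide +kernel) (by decide +kernel)
theorem tr_14 : Tr actA PW_0 14 PW_14 := Tr_step tr_0 13 14 PW_14 G_13 cls_lt (hT 13 (by norm_num))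
  (by decide +kernel) (by decide +kernel)
theorem tr_15 : Tr actA PW_0 15 PW_15 := Tr_step tr_0 14 15 PW_15 G_14 cls_lt (hT 14 (by norm_num))
  (by decide +kernel) (by decide +kernel)
theorem tr_16 : Tr actA PW_0 16 PW_16 := Tr_step tr_2 0 16 PW_16 G_0 cls_lt (hT 0 (by norm_num))
  (by decide +kernel) (by decide +kernel)
theorem tr_17 : Tr actA PW_0 17 PW_17 := Tr_step tr_3 0 17 PW_17 G_0 cls_lt (hT 0 (by norm_num))
  (by decide +kernel) (by decide +kernel)
theorem tr_18 : Tr actA PW_0 18 PW_18 := Tr_step tr_4 0 18 PW_18 G_0 cls_lt (hT 0 (by norm_num))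
  (by decide +kernel) (by decide +kernel)
theorem tr_19 : Tr actA PW_0 19 PW_19 := Tr_step tr_5 0 19 PW_19 G_0 cls_lt (hT 0 (by norm_num))
  (by decide +kernel) (by decide +kernel)
theorem tr_20 : Tr actA PW_0 20 PW_20 := Tr_step tr_7 0 20 PW_20 G_0 cls_lt (hT 0 (by norm_num))
  (by decide +kernel) (by decide +kernel)
theorem tr_21 : Tr actA PW_0 21 PW_21 := Tr_step tr_8 0 21 PW_21 G_0 cls_lt (hT 0 (by norm_num))
  (by decide +kernel) (by decide +kernel)
theorem tr_22 : Tr actA PW_0 22 PW_22 := Tr_step tr_10 0 22 PW_22 G_0 cls_lt (hT 0 (by norm_num))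
  (by decide +kernel) (by decide +kernel)
theorem tr_23 : Tr actA PW_0 23 PW_23 := Tr_step tr_11 0 23 PW_23 G_0 cls_lt (hT 0 (by norm_num))
  (by decide +kernel) (by decide +kernel)
theorem tr_24 : Tr actA PW_0 24 PW_24 := Tr_step tr_14 0 24 PW_24 G_0 cls_lt (hT 0 (by norm_num))
  (by decide +kernel) (by decide +kernel)
theorem tr_26 : Tr actA PW_0 26 PW_26 := Tr_step tr_2 1 26 PW_26 G_1 cls_lt (hT 1 (by norm_num))
  (by decide +kernel) (by decide +kernel)
theorem tr_27 : Tr actA PW_0 27 PW_27 := Tr_step tr_3 1 27 PW_27 G_1 cls_lt (hT 1 (by norm_num))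
  (by decide +kernel) (by decide +kernel)
theorem tr_28 : Tr actA PW_0 28 PW_28 := Tr_step tr_4 1 28 PW_28 G_1 cls_lt (hT 1 (by norm_num))
  (by decide +kernel) (by decide +kernel)
theorem tr_29 : Tr actA PW_0 29 PW_29 := Tr_step tr_5 1 29 PW_29 G_1 cls_lt (hT 1 (by norm_num))
  (by decide +kernel) (by decide +kernel)
theorem tr_30 : Tr actA PW_0 30 PW_30 := Tr_step tr_6 1 30 PW_30 G_1 cls_lt (hT 1 (by norm_num))
  (by decide +kernel) (by decide +kernel)
theorem tr_31 : Tr actA PW_0 31 PW_31 := Tr_step tr_7 1 31 PW_31 G_1 cls_lt (hT 1 (by norm_num))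
  (by decide +kernel) (by decide +kernel)
theorem tr_32 : Tr actA PW_0 32 PW_32 := Tr_step tr_30 0 32 PW_32 G_0 cls_lt (hT 0 (by norm_num))
  (by decide +kernel) (by decide +kernel)
theorem tr_35 : Tr actA PW_0 35 PW_35 := Tr_step tr_27 0 35 PW_35 G_0 cls_lt (hT 0 (by norm_num))
  (by decide +kernel) (by decide +kernel)
theorem tr_36 : Tr actA PW_0 36 PW_36 := Tr_step tr_14 1 36 PW_36 G_1 cls_lt (hT 1 (by norm_num))
  (by decide +kernel) (by decide +kernel)
theorem tr_38 : Tr actA PW_0 38 PW_38 := Tr_step tr_3 2 38 PW_38 G_2 cls_lt (hT 2 (by norm_num))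
  (by decide +kernel) (by decide +kernel)
theorem tr_39 : Tr actA PW_0 39 PW_39 := Tr_step tr_4 2 39 PW_39 G_2 cls_lt (hT 2 (by norm_num))
  (by decide +kernel) (by decide +kernel)
theorem tr_42 : Tr actA PW_0 42 PW_42 := Tr_step tr_7 2 42 PW_42 G_2 cls_lt (hT 2 (by norm_num))
  (by decide +kernel) (by decide +kernel)
theorem tr_45 : Tr actA PW_0 45 PW_45 := Tr_step tr_38 0 45 PW_45 G_0 cls_lt (hT 0 (by norm_num))
  (by decide +kernel) (by decide +kernel)
theorem tr_47 : Tr actA PW_0 47 PW_47 := Tr_step tr_4 3 47 PW_47 G_3 cls_lt (hT 3 (by norm_num))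
  (by decide +kernel) (by decide +kernel)
theorem tr_55 : Tr actA PW_0 55 PW_55 := Tr_step tr_39 0 55 PW_55 G_0 cls_lt (hT 0 (by norm_num))
  (by decide +kernel) (by decide +kernel)
theorem tr_69 : Tr actA PW_0 69 PW_69 := Tr_step tr_26 0 69 PW_69 G_0 cls_lt (hT 0 (by norm_num))
  (by decide +kernel) (by decide +kernel)
theorem tr_90 : Tr actA PW_0 90 PW_90 := Tr_step tr_28 0 90 PW_90 G_0 cls_lt (hT 0 (by norm_num))
  (by decide +kernel) (by decide +kernel)
theorem tr_92 : Tr actA PW_0 92 PW_92 := Tr_step tr_31 0 92 PW_92 G_0 cls_lt (hT 0 (by norm_num))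
  (by decide +kernel) (by decide +kernel)
theorem tr_98 : Tr actA PW_0 98 PW_98 := Tr_step tr_47 0 98 PW_98 G_0 cls_lt (hT 0 (by norm_num))
  (by decide +kernel) (by decide +kernel)

theorem tr_all : ∀ y ∈ Ylist, Tr actA PW_0 y (PW y) := by
  intro y hy
  simp only [Ylist, List.mem_cons, List.not_mem_nil, or_false] at hy
  rcases hy with rfl | rfl | rfl | rfl | rfl | rfl | rfl | rfl | rfl | rfl | rfl | rfl | rfl | rfl | rfl | rfl | rfl | rfl | rfl | rfl | rfl | rfl | rfl | rfl | rfl | rfl | rfl | rfl | rfl | rfl | rfl | rfl | rfl | rfl | rfl | rfl | rfl | rfl | rfl | rfl | rfl | rfl | rfl | rfl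
  · exact tr_0
  · exact tr_1
  · exact tr_2
  · exact tr_3
  · exact tr_4
  · exact tr_5
  · exact tr_6
  · exact tr_7
  · exact tr_8
  · exact tr_9
  · exact tr_10
  · exact tr_11
  · exact tr_12
  · exact tr_13
  · exact tr_14
  · exact tr_15
  · exact tr_16
  · exact tr_17
  · exact tr_18
  · exact tr_19
  · exact tr_20
  · exact tr_21
  · exact tr_22
  · exact tr_23
  · exact tr_24
  · exact tr_26
  · exact tr_27
  · exact tr_28
  · exact tr_29
  · exact tr_30
  · exact tr_31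
  · exact tr_32
  · exact tr_35
  · exact tr_36
  · exact tr_38
  · exact tr_39
  · exact tr_42
  · exact tr_45
  · exact tr_47
  · exact tr_55
  · exact tr_69
  · exact tr_90
  · exact tr_92
  · exact tr_98

end Pool.Agent.Helper77.MK.C34
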