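import Pool.Agent.Helper77.MK.D42Dat

namespace Pool.Agent.Helper77.MK.D42

open Gen

theorem chkA : (dat.Gs.all (closT dat) = true) ∧
    (pairChk dat dat.Gs = true) ∧
    (chkS dat = true) ∧
    (chkScomm dat = true) ∧
    (chkHeaps dat cert = true) ∧
    (chkPRE dat cert = true) ∧
    (chkMS dat cert = true) ∧
    (chkKC dat cert = true) ∧
    (chkWin dat cert = true) :=
  ⟨by decide +kernel,
   by decide +kernel,
   by decide +kernel,
   by decide +kernel,
   by decide +kernel,
   by decide +kernel,
   by decide +kernel,
   by decide +kernel,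
   by decide +kernel⟩

theorem kclos : dat.Gs.all (closT dat) = true := chkA.1

theorem kcomm : pairChk dat dat.Gs = true := chkA.2.1

theorem kS : chkS dat = true := chkA.2.2.1

theorem kScomm : chkScomm dat = true := chkA.2.2.2.1

theorem kheaps : chkHeaps dat cert = true := chkA.2.2.2.2.1

theorem kPRE : chkPRE dat cert = true := chkA.2.2.2.2.2.1

theorem kMS : chkMS dat cert = true := chkA.2.2.2.2.2.2.1

theorem kKC : chkKC dat cert = true := chkA.2.2.2.2.2.2.2.1

theorem kwin : chkWin dat cert = true := chkA.2.2.2.2.2.2.2.2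

end Pool.Agent.Helper77.MK.D42
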