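import Pool.Agent.Helper77.MK.D42Dat

namespace Pool.Agent.Helper77.MK.D42

open Gen

theorem chkB : (Nat.beq (word dat cert cert.MW 0 &&& cert.MF) cert.MF = true) ∧
    ((heaps2 dat).all (fun H => (pairsR H).all (fun p => memN cert.PWl (ycl dat p.1 p.2))) = true) ∧
    ((heaps2 dat).all (fun H => (nrl dat H).all (fun b => isRest (H - 2 - b) &&
    memN cert.PWl (ycl dat (H - 2 - b) b))) = true) ∧
    ((heaps2 dat).all (fun H => eqOL dat cert (nrl dat H) (cert.OL.getD H []) H) = true) ∧
    ((cert.bigL == big2 dat) = true) ∧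
    (rest2.all (fun H => memN cert.PWl (ycl dat H 0)) = true) ∧
    ((heaps2 dat).all (fun H => Nat.beq (DW dat cert H) (DWof dat cert (pairsR H))) = true) ∧
    (rest2.all (fun H => Nat.beq (PWof dat cert (ycl dat H 0) &&& DW dat cert H) 0) = true) ∧
    (chkM1 dat cert = true) ∧
    (Nat.beq (inter dat cert) (EXW dat cert) = true) ∧
    (cert.exL.all (exB dat cert) = true) ∧
    (allB dat.N (fun z => Nat.testBit cert.PL (dat.SB * z)) = true) :=
  ⟨by decide +kernel,
   by decide +kernel,
   by decide +kernel,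
   by decide +kernel,
   by decide +kernel,
   by decide +kernel,
   by decide +kernel,
   by decide +kernel,
   by decide +kernel,
   by decide +kernel,
   by decide +kernel,
   by decide +kernel⟩

theorem kM0 : Nat.beq (word dat cert cert.MW 0 &&& cert.MF) cert.MF = true := chkB.1

theorem kpairs : (heaps2 dat).all (fun H => (pairsR H).all (fun p => memN cert.PWl (ycl dat p.1 p.2))) = true := chkB.2.1

theorem kpairs2 : (heaps2 dat).all (fun H => (nrl dat H).all (fun b => isRest (H - 2 - b) &&
    memN cert.PWl (ycl dat (H - 2 - b) b))) = true := chkB.2.2.1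

theorem kOL : (heaps2 dat).all (fun H => eqOL dat cert (nrl dat H) (cert.OL.getD H []) H) = true := chkB.2.2.2.1

theorem kbig : (cert.bigL == big2 dat) = true := chkB.2.2.2.2.1

theorem ksingle : rest2.all (fun H => memN cert.PWl (ycl dat H 0)) = true := chkB.2.2.2.2.2.1

theorem kDW : (heaps2 dat).all (fun H => Nat.beq (DW dat cert H) (DWof dat cert (pairsR H))) = true := chkB.2.2.2.2.2.2.1

theorem kA : rest2.all (fun H => Nat.beq (PWof dat cert (ycl dat H 0) &&& DW dat cert H) 0) = true := chkB.2.2.2.2.2.2.2.1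

theorem kM1 : chkM1 dat cert = true := chkB.2.2.2.2.2.2.2.2.1

theorem kSS : Nat.beq (inter dat cert) (EXW dat cert) = true := chkB.2.2.2.2.2.2.2.2.2.1

theorem kex : cert.exL.all (exB dat cert) = true := chkB.2.2.2.2.2.2.2.2.2.2.1

theorem kPL : allB dat.N (fun z => Nat.testBit cert.PL (dat.SB * z)) = true := chkB.2.2.2.2.2.2.2.2.2.2.2

end Pool.Agent.Helper77.MK.D42
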