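import Pool.Agent.Helper77.MK.D42Dat

namespace Pool.Agent.Helper77.MK.D42

open Gen

theorem kTW_all : ∀ H ∈ nt2 dat, chkTW dat cert (DW dat cert H) (cert.TWs.getD (gi dat H) 0)
    (dat.Gs.getD (gi dat H) 0) = true := by
  have e : nt2 dat = [2, 3, 4, 6, 7, 8, 10, 11, 12, 13, 14, 16, 17, 18, 19, 20, 21, 22, 23, 24, 25, 26, 27, 28, 29, 31] := by decide +kernel
  rw [e]
  intro H hH
  simp only [List.mem_cons, List.not_mem_nil, or_false] at hH
  rcases hH with rfl | rfl | rfl | rfl | rfl | rfl | rfl | rfl | rfl | rfl | rfl | rfl | rfl | rfl | rfl | rfl | rfl | rfl | rfl | rfl | rfl | rfl | rfl | rfl | rfl | rfl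
  · decide +kernel
  · decide +kernel
  · decide +kernel
  · decide +kernel
  · decide +kernel
  · decide +kernel
  · decide +kernel
  · decide +kernel
  · decide +kernel
  · decide +kernel
  · decide +kernel
  · decide +kernel
  · decide +kernel
  · decide +kernel
  · decide +kernel
  · decide +kernel
  · decide +kernel
  · decide +kernel
  · decide +kernel
  · decide +kernel
  · decide +kernel
  · decide +kernel
  · decide +kernel
  · decide +kernel
  · decide +kernel
  · decide +kernel

theorem kTW : (nt2 dat).all (fun H => chkTW dat cert (DW dat cert H) (cert.TWs.getD (gi dat H) 0)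
    (dat.Gs.getD (gi dat H) 0)) = true := List.all_eq_true.mpr kTW_all

theorem kM_all : ∀ H ∈ List.range dat.ng, chkM dat cert (dat.Gs.getD H 0) (cert.GM.getD H 0) = true := by
  have e : List.range dat.ng = [0, 1, 2, 3, 4, 5, 6, 7, 8, 9, 10, 11, 12, 13, 14, 15, 16, 17] := by decide +kernel
  rw [e]
  intro H hH
  simp only [List.mem_cons, List.not_mem_nil, or_false] at hH
  rcases hH with rfl | rfl | rfl | rfl | rfl | rfl | rfl | rfl | rfl | rfl | rfl | rfl | rfl | rfl | rfl | rfl | rfl | rfl
  · decide +kernel
  · decide +kernel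
  · decide +kernel
  · decide +kernel
  · decide +kernel
  · decide +kernel
  · decide +kernel
  · decide +kernel
  · decide +kernel
  · decide +kernel
  · decide +kernel
  · decide +kernel
  · decide +kernel
  · decide +kernel
  · decide +kernel
  · decide +kernel
  · decide +kernel
  · decide +kernel

theorem kM : (List.range dat.ng).all (fun a => chkM dat cert (dat.Gs.getD a 0) (cert.GM.getD a 0)) = true :=
  List.all_eq_true.mpr kM_all

theorem kzero_all : ∀ H ∈ rest2, chkZ dat (DW dat cert H) (gi dat H) = true := by
  have e : rest2 = [2, 3, 4, 5, 6, 7, 8, 9, 10, 11, 12, 13, 14, 15, 16, 17, 18, 19, 20, 21, 22, 23, 24, 25, 26, 27, 28, 29, 31] := by decide +kernel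
  rw [e]
  intro H hH
  simp only [List.mem_cons, List.not_mem_nil, or_false] at hH
  rcases hH with rfl | rfl | rfl | rfl | rfl | rfl | rfl | rfl | rfl | rfl | rfl | rfl | rfl | rfl | rfl | rfl | rfl | rfl | rfl | rfl | rfl | rfl | rfl | rfl | rfl | rfl | rfl | rfl | rfl
  · decide +kernel
  · decide +kernel
  · decide +kernel
  · decide +kernel
  · decide +kernel
  · decide +kernel
  · decide +kernel
  · decide +kernel
  · decide +kernel
  · decide +kernel
  · decide +kernel
  · decide +kernel
  · decide +kernel
  · decide +kernel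
  · decide +kernel
  · decide +kernel
  · decide +kernel
  · decide +kernel
  · decide +kernel
  · decide +kernel
  · decide +kernel
  · decide +kernel
  · decide +kernel
  · decide +kernel
  · decide +kernel
  · decide +kernel
  · decide +kernel
  · decide +kernel
  · decide +kernel

theorem kzero : rest2.all (fun H => chkZ dat (DW dat cert H) (gi dat H)) = true :=
  List.all_eq_true.mpr kzero_all

end Pool.Agent.Helper77.MK.D42
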