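import Pool.Agent.Helper77.MK.D42Dat

namespace Pool.Agent.Helper77.MK.D42

open Gen

theorem ctxs_0 : ∀ s, 0 ≤ s → s < 29 → ctx dat cert s = true := by
  intro s h1 h2
  interval_cases s
  · decide +kernel
  · decide +kernel
  · decide +kernel
  · decide +kernel
  · decide +kernel
  · decide +kernel
  · decide +kernel
  · decide +kernel
  · decide +kernel
  · decide +kernel
  · decide +kernel
  · decide +kernel
  · decide +kernel
  · decide +kernel
  · decide +kernel
  · decide +kernel
  · decide +kernel
  · decide +kernel
  · decide +kernel
  · decide +kernel
  · decide +kernel
  · decide +kernel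
  · decide +kernel
  · decide +kernel
  · decide +kernel
  · decide +kernel
  · decide +kernel
  · decide +kernel
  · decide +kernel

end Pool.Agent.Helper77.MK.D42
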