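import Pool.Agent.Helper77.MK.D42Tr
import Pool.Agent.Helper77.MK.D42ChkA
import Pool.Agent.Helper77.MK.D42ChkB
import Pool.Agent.Helper77.MK.D42ChkC
import Pool.Agent.Helper77.MK.D42Ctx0
import Pool.Agent.Helper77.MK.D42Ctx1
import Pool.Agent.Helper77.MK.D42Ctx2
import Pool.Agent.Helper77.MK.D42Ctx3
import Pool.Agent.Helper77.MK.D42Ctx4
import Pool.Agent.Helper77.MK.D42Ctx5
import Pool.Agent.Helper77.MK.D42Ctx6
import Pool.Agent.Helper77.MK.D42Ctx7

namespace Pool.Agent.Helper77.MK.D42

open Gen

theorem kctx : ∀ s, s < dat.NS → ctx dat cert s = true := by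
  intro s hs
  have hs' : s < 226 := hs
  by_cases h0 : s < 29
  · exact ctxs_0 s (by omega) h0
  by_cases h1 : s < 58
  · exact ctxs_1 s (by omega) h1
  by_cases h2 : s < 87
  · exact ctxs_2 s (by omega) h2
  by_cases h3 : s < 116
  · exact ctxs_3 s (by omega) h3
  by_cases h4 : s < 145
  · exact ctxs_4 s (by omega) h4
  by_cases h5 : s < 174
  · exact ctxs_5 s (by omega) h5
  by_cases h6 : s < 203
  · exact ctxs_6 s (by omega) h6
  exact ctxs_7 s (by omega) hs'

theorem ok : Ok dat cert where
  kTr := kTr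
  kWM := hWM
  kFULL := by decide +kernel
  kMF := by decide +kernel
  kNpos := by decide
  kNSpos := by decide
  khmax := by decide
  kSB1 := by decide
  knM := by decide
  knch := by decide
  kGlen := by decide
  kglen := by decide
  kgulen := by decide
  kclos := kclos
  kcomm := kcomm
  kS := kS
  kScomm := kScomm
  kheaps := kheaps
  kTW := kTW
  kM := kM
  kM0 := kM0
  kpairs := kpairs
  kpairs2 := kpairs2
  kOL := kOL
  kbig := kbig
  ksingle := ksingle
  kDW := kDW
  kA := kA
  kzero := kzero
  kM1 := kM1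
  kSS := kSS
  kex := kex
  kPL := kPL
  kA1 := by decide
  kBI := by decide
  kBJ := by decide
  kwin := kwin
  kctx := kctx
  kMS := kMS
  kPRE := kPRE
  kKC := kKC
  kgi0 := by decide
  kbit0 := by decide +kernel
  ktau0 := by decide +kernel

end Pool.Agent.Helper77.MK.D42
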