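import Mathlib

/-!
Misere play of the octal game 0.07 (Dawson's Kayles): positions are multisets of positive
natural numbers (heap sizes).
-/

namespace Pool.Agent.Helper77.MK

/-- The position with the single heap of size `a`, and the empty position if `a = 0`. -/
def heap (a : ℕ) : Multiset ℕ := if a = 0 then 0 else {a}

/-- `Move G G'`: a move of 0.07 leads from `G` to `G'`: pick a heap of size `a + b + 2`, remove two
tokens from it and leave the heaps `a` and `b` (a heap of size zero is no heap). -/
def Move (G G' : Multiset ℕ) : Prop :=
  ∃ (R : Multiset ℕ) (a b : ℕ), G = (a + b + 2) ::ₘ R ∧ G' = heap a + heap b + R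

theorem heap_sum (a : ℕ) : (heap a).sum = a := by
  unfold heap
  split_ifs with h
  · simp [h]
  · simp

theorem Move.sum_lt {G G' : Multiset ℕ} (h : Move G G') : G'.sum < G.sum := by
  obtain ⟨R, a, b, rfl, rfl⟩ := h
  simp only [Multiset.sum_add, Multiset.sum_cons, heap_sum]
  omega

/-- `G` is a misere P-position: the player to move has a move (a player without a move wins), and
every move leads to a position which is not a misere P-position. -/
def MisereP (G : Multiset ℕ) : Prop :=
  (∃ G', Move G G') ∧ ∀ G', Move G G' → ¬ MisereP G'
termination_by G.sum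
decreasing_by exact Move.sum_lt ‹_›

/-- `A` is a set of positions (finite multisets of positive heaps) closed under sums and options. -/
def ClosedSet (A : Set (Multiset ℕ)) : Prop :=
  (∀ G ∈ A, (0 : ℕ) ∉ G) ∧ (∀ G ∈ A, ∀ H ∈ A, G + H ∈ A) ∧
    ∀ G ∈ A, ∀ G', Move G G' → G' ∈ A

/-- `H` and `K` are equivalent modulo `A`: `H + X` and `K + X` have the same misere outcome for
every `X` in `A`. -/
def Equiv (A : Set (Multiset ℕ)) (H K : Multiset ℕ) : Prop :=
  ∀ X ∈ A, (MisereP (H + X) ↔ MisereP (K + X))

/-- The equivalence modulo `A`, as an equivalence relation on `A`. -/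
def quotSetoid (A : Set (Multiset ℕ)) : Setoid A where
  r H K := Equiv A H.1 K.1
  iseqv := {
    refl := fun _ _ _ => Iff.rfl
    symm := fun h X hX => (h X hX).symm
    trans := fun h₁ h₂ X hX => (h₁ X hX).trans (h₂ X hX) }

/-- The misere quotient of `A` (as a set). -/
def MisereQuotient (A : Set (Multiset ℕ)) : Type := Quotient (quotSetoid A)

end Pool.Agent.Helper77.MK
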