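import Pool.Agent.Helper77.MK.GenChk
import Pool.Agent.Helper77.MK.Defs

namespace Pool.Agent.Helper77.MK.Gen

variable {d : Dat} {c : Cert d}

/-- the part of the certificate concerning the rest actions -/
structure OkR (d : Dat) : Prop where
  kNpos : Nat.ble 1 d.N = true
  kGlen : Nat.beq d.Gs.length d.ng = true
  kclos : d.Gs.all (closT d) = true
  kcomm : pairChk d d.Gs = true

theorem Ok.toR (ok : Ok d c) : OkR d := ⟨ok.kNpos, ok.kGlen, ok.kclos, ok.kcomm⟩

theorem actR_of (g z : ℕ) (hg : g < d.ng) (hz : z < d.N) :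
    actR d g z = ra d (d.Gs.getD g 0) z := by
  unfold actR ra; rw [if_pos hg, if_pos hz]

theorem actR_id {g : ℕ} (hg : d.ng ≤ g) (z : ℕ) : actR d g z = z := by
  unfold actR; rw [if_neg (by omega)]

theorem Gs_mem (ok : OkR d) {g : ℕ} (hg : g < d.ng) : d.Gs.getD g 0 ∈ d.Gs := by
  have hl := Nat.eq_of_beq_eq_true ok.kGlen
  rw [List.getD_eq_getElem _ _ (by omega)]
  exact List.getElem_mem _

theorem actR_lt (ok : OkR d) (g z : ℕ) (hz : z < d.N) : actR d g z < d.N := by
  by_cases hg : g < d.ng
  · rw [actR_of g z hg hz]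
    have h := ok.kclos
    rw [List.all_eq_true] at h
    have h1 := allB_spec (h _ (Gs_mem ok hg)) z hz
    have h2 := Nat.le_of_ble_eq_true h1
    omega
  · rw [actR_id (by omega)]; exact hz

theorem commT_spec {T T' : ℕ} (h : commT d T T' = true) (z : ℕ) (hz : z < d.N) :
    ra d T (ra d T' z) = ra d T' (ra d T z) :=
  Nat.eq_of_beq_eq_true (allB_spec h z hz)

theorem pairChk_spec : ∀ {l : List ℕ}, pairChk d l = true → ∀ T ∈ l, ∀ T' ∈ l,
    T = T' ∨ commT d T T' = true ∨ commT d T' T = true
  | [], _, T, hT, _, _ => by simp at hT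
  | S :: l, h, T, hT, T', hT' => by
    have h1 : (l.all (commT d S) && pairChk d l) = true := h
    rw [Bool.and_eq_true, List.all_eq_true] at h1
    rcases List.mem_cons.mp hT with rfl | hT1
    · rcases List.mem_cons.mp hT' with rfl | hT1'
      · exact Or.inl rfl
      · exact Or.inr (Or.inl (h1.1 _ hT1'))
    · rcases List.mem_cons.mp hT' with rfl | hT1'
      · exact Or.inr (Or.inr (h1.1 _ hT1))
      · exact pairChk_spec h1.2 T hT1 T' hT1'

theorem actR_comm (ok : OkR d) (a b z : ℕ) : actR d a (actR d b z) = actR d b (actR d a z) := by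
  by_cases ha : a < d.ng
  · by_cases hb : b < d.ng
    · by_cases hz : z < d.N
      · rw [actR_of a _ ha (actR_lt ok b z hz), actR_of b _ hb (actR_lt ok a z hz),
          actR_of a z ha hz, actR_of b z hb hz]
        rcases pairChk_spec ok.kcomm _ (Gs_mem ok ha) _ (Gs_mem ok hb) with h | h | h
        · rw [h]
        · exact commT_spec h z hz
        · exact (commT_spec h z hz).symm
      · have h : ∀ c, actR d c z = z := by
          intro c; unfold actR; rw [if_neg hz]; simp
        rw [h b, h a, h b]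
    · have h : ∀ x, actR d b x = x := fun x => actR_id (by omega) x
      rw [h, h]
  · have h : ∀ x, actR d a x = x := fun x => actR_id (by omega) x
    rw [h, h]

theorem lcR (ok : OkR d) : LeftCommutative (actR d) := ⟨actR_comm ok⟩

theorem foldR_perm (ok : OkR d) {l l' : List ℕ} (h : l.Perm l') (b : ℕ) :
    l.foldr (actR d) b = l'.foldr (actR d) b := by
  have := lcR ok
  exact h.foldr_eq b

theorem foldR_lt (ok : OkR d) (l : List ℕ) (b : ℕ) (hb : b < d.N) :
    l.foldr (actR d) b < d.N := by
  induction l with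
  | nil => exact hb
  | cons g l ih => exact actR_lt ok _ _ ih

theorem Npos (ok : OkR d) : 0 < d.N := Nat.le_of_ble_eq_true ok.kNpos

theorem Tr_zero : Tr d 0 d.W := ⟨[], rfl, fun l t _ => by rw [List.append_nil]⟩

theorem word_testBit (hWM : c.WM = 2 ^ d.SB) (X z t : ℕ) (ht : t < d.SB) :
    (word d c X z).testBit t = bitAt d X z t := by
  unfold word bitAt
  rw [hWM, Nat.testBit_mod_two_pow, Nat.testBit_shiftRight]
  simp [ht]

theorem Tr_step (ok : OkR d) (hWM : c.WM = 2 ^ d.SB) {y' X' : ℕ} (h : Tr d y' X')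
    (g y X : ℕ) (hg : g < d.ng) (hy : ra d (d.Gs.getD g 0) y' = y) (hy' : y' < d.N)
    (hc : chkPW d c (d.Gs.getD g 0) X X' = true) : Tr d y X := by
  obtain ⟨r, hr, hM⟩ := h
  refine ⟨g :: r, ?_, ?_⟩
  · rw [List.foldr_cons, hr, actR_of _ _ hg hy']; exact hy
  · intro l t ht
    have hz := foldR_lt ok l 0 (Npos ok)
    have h1 := allB_spec hc _ hz
    have h2 := Nat.eq_of_beq_eq_true h1
    rw [← word_testBit hWM _ _ _ ht, h2, ← actR_of _ _ hg hz, word_testBit hWM _ _ _ ht]
    have h3 := hM (g :: l) t ht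
    rw [List.foldr_cons] at h3
    rw [h3]
    congr 1
    refine foldR_perm ok ?_ 0
    rw [List.cons_append]
    exact List.perm_middle.symm

/-- translates agree for all lists of class `y` -/
theorem Tr_apply (ok : OkR d) {y X : ℕ} (h : Tr d y X) (l l' : List ℕ)
    (hl : l'.foldr (actR d) 0 = y) (t : ℕ) (ht : t < d.SB) :
    bitAt d X (l.foldr (actR d) 0) t = bitAt d d.W ((l ++ l').foldr (actR d) 0) t := by
  obtain ⟨r, hr, hM⟩ := h
  rw [hM l t ht, List.foldr_append, List.foldr_append, hr, hl]

theorem bitAt_or (X Y z t : ℕ) : bitAt d (X ||| Y) z t = (bitAt d X z t || bitAt d Y z t) := by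
  unfold bitAt; exact Nat.testBit_or X Y _

theorem bitAt_and (X Y z t : ℕ) : bitAt d (X &&& Y) z t = (bitAt d X z t && bitAt d Y z t) := by
  unfold bitAt; exact Nat.testBit_and X Y _

theorem bitAt_zero (z t : ℕ) : bitAt d 0 z t = false := by
  unfold bitAt; exact Nat.zero_testBit _

theorem bitAt_shift (X z t : ℕ) : bitAt d (X >>> t) z 0 = bitAt d X z t := by
  unfold bitAt
  rw [Nat.testBit_shiftRight]
  congr 1
  omega

/-! ### the upper monoid -/

theorem actS_of (g s : ℕ) (hg : g < d.nU) (hs : s < d.NS) : actS d g s = rs d g s := by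
  unfold actS rs; rw [if_pos hg, if_pos hs]

theorem actS_id {g : ℕ} (hg : d.nU ≤ g) (s : ℕ) : actS d g s = s := by
  unfold actS; rw [if_neg (by omega)]

theorem actS_lt (ok : Ok d c) (g s : ℕ) (hs : s < d.NS) : actS d g s < d.NS := by
  by_cases hg : g < d.nU
  · rw [actS_of g s hg hs]
    have h := allB_spec (allB_spec ok.kS g hg) s hs
    rw [Bool.and_eq_true] at h
    have h2 := Nat.le_of_ble_eq_true h.1
    omega
  · rw [actS_id (by omega)]; exact hs

theorem actS_pos (ok : Ok d c) (g s : ℕ) (hg : g < d.nU) (hs : s < d.NS) : 0 < actS d g s := by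
  rw [actS_of g s hg hs]
  have h := allB_spec (allB_spec ok.kS g hg) s hs
  rw [Bool.and_eq_true] at h
  exact Nat.le_of_ble_eq_true h.2

theorem actS_comm (ok : Ok d c) (a b s : ℕ) : actS d a (actS d b s) = actS d b (actS d a s) := by
  by_cases ha : a < d.nU
  · by_cases hb : b < d.nU
    · by_cases hs : s < d.NS
      · have key : ∀ g h, g < d.nU → h < g → rs d g (rs d h s) = rs d h (rs d g s) := by
          intro g h hg hh
          exact Nat.eq_of_beq_eq_true (allB_spec (allB_spec (allB_spec ok.kScomm g hg) h hh) s hs)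
        rw [actS_of a _ ha (actS_lt ok b s hs), actS_of b _ hb (actS_lt ok a s hs),
          actS_of a s ha hs, actS_of b s hb hs]
        rcases lt_trichotomy a b with h | h | h
        · exact (key b a hb h).symm
        · rw [h]
        · exact key a b ha h
      · have h : ∀ c, actS d c s = s := by
          intro c; unfold actS; rw [if_neg hs]; simp
        rw [h b, h a, h b]
    · have h : ∀ x, actS d b x = x := fun x => actS_id (by omega) x
      rw [h, h]
  · have h : ∀ x, actS d a x = x := fun x => actS_id (by omega) x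
    rw [h, h]

theorem foldS_perm (ok : Ok d c) {l l' : List ℕ} (h : l.Perm l') (b : ℕ) :
    l.foldr (actS d) b = l'.foldr (actS d) b := by
  have : LeftCommutative (actS d) := ⟨actS_comm ok⟩
  exact h.foldr_eq b

theorem foldS_lt (ok : Ok d c) (l : List ℕ) (b : ℕ) (hb : b < d.NS) :
    l.foldr (actS d) b < d.NS := by
  induction l with
  | nil => exact hb
  | cons g l ih => exact actS_lt ok _ _ ih

/-! ### classes of positions -/

theorem rc_list (ok : OkR d) (l : List ℕ) :
    rc d (l : Multiset ℕ) = (l.map (gi d)).foldr (actR d) 0 := by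
  unfold rc
  refine foldR_perm ok ?_ 0
  refine List.Perm.map _ ?_
  exact Multiset.coe_eq_coe.mp (Multiset.sort_eq _ _)

theorem sc_list (ok : Ok d c) (l : List ℕ) :
    sc d (l : Multiset ℕ) = (l.map (gu d)).foldr (actS d) 0 := by
  unfold sc
  refine foldS_perm ok ?_ 0
  refine List.Perm.map _ ?_
  exact Multiset.coe_eq_coe.mp (Multiset.sort_eq _ _)

theorem rc_cons (ok : OkR d) (h : ℕ) (G : Multiset ℕ) :
    rc d (h ::ₘ G) = actR d (gi d h) (rc d G) := by
  induction G using Quotient.inductionOn with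
  | h l =>
    show rc d ((h :: l : List ℕ) : Multiset ℕ) = actR d (gi d h) (rc d (l : Multiset ℕ))
    rw [rc_list ok, rc_list ok]; rfl

theorem sc_cons (ok : Ok d c) (h : ℕ) (G : Multiset ℕ) :
    sc d (h ::ₘ G) = actS d (gu d h) (sc d G) := by
  induction G using Quotient.inductionOn with
  | h l =>
    show sc d ((h :: l : List ℕ) : Multiset ℕ) = actS d (gu d h) (sc d (l : Multiset ℕ))
    rw [sc_list ok, sc_list ok]; rfl

theorem rc_zero : rc d 0 = 0 := by
  unfold rc
  simp

theorem sc_zero : sc d 0 = 0 := by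
  unfold sc
  simp

theorem rc_lt (ok : OkR d) (G : Multiset ℕ) : rc d G < d.N := foldR_lt ok _ _ (Npos ok)

theorem sc_lt (ok : Ok d c) (G : Multiset ℕ) : sc d G < d.NS :=
  foldS_lt ok _ _ (Nat.le_of_ble_eq_true ok.kNSpos)

end Pool.Agent.Helper77.MK.Gen
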