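import Pool.Agent.Helper77.MK.D42ChkA
import Pool.Agent.Helper77.MK.GenAct

namespace Pool.Agent.Helper77.MK.D42

open Gen

theorem okR : OkR dat := ⟨by decide, by decide, kclos, kcomm⟩

theorem hWM : cert.WM = 2 ^ dat.SB := by decide +kernel

theorem kTr : ∀ p ∈ cert.PWl, Tr dat p.1 p.2 := by
  have t_0 : Tr dat 0 PW_0 := Tr_zero
  have t_1 : Tr dat 1 PW_1 := Tr_step (c := cert) okR hWM t_0 0 1 PW_1 (by decide +kernel)
    (by decide +kernel) (by decide +kernel) (by decide +kernel)
  have t_2 : Tr dat 2 PW_2 := Tr_step (c := cert) okR hWM t_0 1 2 PW_2 (by decide +kernel)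
    (by decide +kernel) (by decide +kernel) (by decide +kernel)
  have t_3 : Tr dat 3 PW_3 := Tr_step (c := cert) okR hWM t_0 3 3 PW_3 (by decide +kernel)
    (by decide +kernel) (by decide +kernel) (by decide +kernel)
  have t_4 : Tr dat 4 PW_4 := Tr_step (c := cert) okR hWM t_0 13 4 PW_4 (by decide +kernel)
    (by decide +kernel) (by decide +kernel) (by decide +kernel)
  have t_5 : Tr dat 5 PW_5 := Tr_step (c := cert) okR hWM t_0 9 5 PW_5 (by decide +kernel)
    (by decide +kernel) (by decide +kernel) (by decide +kernel)
  have t_6 : Tr dat 6 PW_6 := Tr_step (c := cert) okR hWM t_5 0 6 PW_6 (by decide +kernel)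
    (by decide +kernel) (by decide +kernel) (by decide +kernel)
  have t_7 : Tr dat 7 PW_7 := Tr_step (c := cert) okR hWM t_0 14 7 PW_7 (by decide +kernel)
    (by decide +kernel) (by decide +kernel) (by decide +kernel)
  have t_8 : Tr dat 8 PW_8 := Tr_step (c := cert) okR hWM t_2 0 8 PW_8 (by decide +kernel)
    (by decide +kernel) (by decide +kernel) (by decide +kernel)
  have t_9 : Tr dat 9 PW_9 := Tr_step (c := cert) okR hWM t_2 1 9 PW_9 (by decide +kernel)
    (by decide +kernel) (by decide +kernel) (by decide +kernel)
  have t_10 : Tr dat 10 PW_10 := Tr_step (c := cert) okR hWM t_4 1 10 PW_10 (by decide +kernel)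
    (by decide +kernel) (by decide +kernel) (by decide +kernel)
  have t_11 : Tr dat 11 PW_11 := Tr_step (c := cert) okR hWM t_5 1 11 PW_11 (by decide +kernel)
    (by decide +kernel) (by decide +kernel) (by decide +kernel)
  have t_12 : Tr dat 12 PW_12 := Tr_step (c := cert) okR hWM t_3 2 12 PW_12 (by decide +kernel)
    (by decide +kernel) (by decide +kernel) (by decide +kernel)
  have t_23 : Tr dat 23 PW_23 := Tr_step (c := cert) okR hWM t_0 5 23 PW_23 (by decide +kernel)
    (by decide +kernel) (by decide +kernel) (by decide +kernel)
  have t_24 : Tr dat 24 PW_24 := Tr_step (c := cert) okR hWM t_0 10 24 PW_24 (by decide +kernel)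
    (by decide +kernel) (by decide +kernel) (by decide +kernel)
  have t_25 : Tr dat 25 PW_25 := Tr_step (c := cert) okR hWM t_0 12 25 PW_25 (by decide +kernel)
    (by decide +kernel) (by decide +kernel) (by decide +kernel)
  have t_26 : Tr dat 26 PW_26 := Tr_step (c := cert) okR hWM t_3 3 26 PW_26 (by decide +kernel)
    (by decide +kernel) (by decide +kernel) (by decide +kernel)
  have t_27 : Tr dat 27 PW_27 := Tr_step (c := cert) okR hWM t_0 4 27 PW_27 (by decide +kernel)
    (by decide +kernel) (by decide +kernel) (by decide +kernel)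
  have t_28 : Tr dat 28 PW_28 := Tr_step (c := cert) okR hWM t_0 17 28 PW_28 (by decide +kernel)
    (by decide +kernel) (by decide +kernel) (by decide +kernel)
  have t_29 : Tr dat 29 PW_29 := Tr_step (c := cert) okR hWM t_0 6 29 PW_29 (by decide +kernel)
    (by decide +kernel) (by decide +kernel) (by decide +kernel)
  have t_30 : Tr dat 30 PW_30 := Tr_step (c := cert) okR hWM t_4 0 30 PW_30 (by decide +kernel)
    (by decide +kernel) (by decide +kernel) (by decide +kernel)
  have t_31 : Tr dat 31 PW_31 := Tr_step (c := cert) okR hWM t_25 0 31 PW_31 (by decide +kernel)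
    (by decide +kernel) (by decide +kernel) (by decide +kernel)
  have t_32 : Tr dat 32 PW_32 := Tr_step (c := cert) okR hWM t_7 0 32 PW_32 (by decide +kernel)
    (by decide +kernel) (by decide +kernel) (by decide +kernel)
  have t_33 : Tr dat 33 PW_33 := Tr_step (c := cert) okR hWM t_12 0 33 PW_33 (by decide +kernel)
    (by decide +kernel) (by decide +kernel) (by decide +kernel)
  have t_34 : Tr dat 34 PW_34 := Tr_step (c := cert) okR hWM t_23 1 34 PW_34 (by decide +kernel)
    (by decide +kernel) (by decide +kernel) (by decide +kernel)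
  have t_35 : Tr dat 35 PW_35 := Tr_step (c := cert) okR hWM t_24 1 35 PW_35 (by decide +kernel)
    (by decide +kernel) (by decide +kernel) (by decide +kernel)
  have t_36 : Tr dat 36 PW_36 := Tr_step (c := cert) okR hWM t_11 0 36 PW_36 (by decide +kernel)
    (by decide +kernel) (by decide +kernel) (by decide +kernel)
  have t_38 : Tr dat 38 PW_38 := Tr_step (c := cert) okR hWM t_28 1 38 PW_38 (by decide +kernel)
    (by decide +kernel) (by decide +kernel) (by decide +kernel)
  have t_39 : Tr dat 39 PW_39 := Tr_step (c := cert) okR hWM t_4 5 39 PW_39 (by decide +kernel)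
    (by decide +kernel) (by decide +kernel) (by decide +kernel)
  have t_42 : Tr dat 42 PW_42 := Tr_step (c := cert) okR hWM t_5 5 42 PW_42 (by decide +kernel)
    (by decide +kernel) (by decide +kernel) (by decide +kernel)
  have t_44 : Tr dat 44 PW_44 := Tr_step (c := cert) okR hWM t_34 0 44 PW_44 (by decide +kernel)
    (by decide +kernel) (by decide +kernel) (by decide +kernel)
  have t_62 : Tr dat 62 PW_62 := Tr_step (c := cert) okR hWM t_26 0 62 PW_62 (by decide +kernel)
    (by decide +kernel) (by decide +kernel) (by decide +kernel)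
  have t_63 : Tr dat 63 PW_63 := Tr_step (c := cert) okR hWM t_28 0 63 PW_63 (by decide +kernel)
    (by decide +kernel) (by decide +kernel) (by decide +kernel)
  have t_64 : Tr dat 64 PW_64 := Tr_step (c := cert) okR hWM t_23 3 64 PW_64 (by decide +kernel)
    (by decide +kernel) (by decide +kernel) (by decide +kernel)
  have t_65 : Tr dat 65 PW_65 := Tr_step (c := cert) okR hWM t_4 3 65 PW_65 (by decide +kernel)
    (by decide +kernel) (by decide +kernel) (by decide +kernel)
  have t_66 : Tr dat 66 PW_66 := Tr_step (c := cert) okR hWM t_33 1 66 PW_66 (by decide +kernel)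
    (by decide +kernel) (by decide +kernel) (by decide +kernel)
  have t_67 : Tr dat 67 PW_67 := Tr_step (c := cert) okR hWM t_66 0 67 PW_67 (by decide +kernel)
    (by decide +kernel) (by decide +kernel) (by decide +kernel)
  have t_68 : Tr dat 68 PW_68 := Tr_step (c := cert) okR hWM t_29 3 68 PW_68 (by decide +kernel)
    (by decide +kernel) (by decide +kernel) (by decide +kernel)
  have t_76 : Tr dat 76 PW_76 := Tr_step (c := cert) okR hWM t_10 0 76 PW_76 (by decide +kernel)
    (by decide +kernel) (by decide +kernel) (by decide +kernel)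
  have t_77 : Tr dat 77 PW_77 := Tr_step (c := cert) okR hWM t_35 0 77 PW_77 (by decide +kernel)
    (by decide +kernel) (by decide +kernel) (by decide +kernel)
  have t_78 : Tr dat 78 PW_78 := Tr_step (c := cert) okR hWM t_38 0 78 PW_78 (by decide +kernel)
    (by decide +kernel) (by decide +kernel) (by decide +kernel)
  have t_88 : Tr dat 88 PW_88 := Tr_step (c := cert) okR hWM t_25 5 88 PW_88 (by decide +kernel)
    (by decide +kernel) (by decide +kernel) (by decide +kernel)
  have t_112 : Tr dat 112 PW_112 := Tr_step (c := cert) okR hWM t_24 0 112 PW_112 (by decide +kernel)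
    (by decide +kernel) (by decide +kernel) (by decide +kernel)
  have t_113 : Tr dat 113 PW_113 := Tr_step (c := cert) okR hWM t_7 1 113 PW_113 (by decide +kernel)
    (by decide +kernel) (by decide +kernel) (by decide +kernel)
  have t_114 : Tr dat 114 PW_114 := Tr_step (c := cert) okR hWM t_65 0 114 PW_114 (by decide +kernel)
    (by decide +kernel) (by decide +kernel) (by decide +kernel)
  have t_115 : Tr dat 115 PW_115 := Tr_step (c := cert) okR hWM t_9 0 115 PW_115 (by decide +kernel)
    (by decide +kernel) (by decide +kernel) (by decide +kernel)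
  have t_116 : Tr dat 116 PW_116 := Tr_step (c := cert) okR hWM t_42 0 116 PW_116 (by decide +kernel)
    (by decide +kernel) (by decide +kernel) (by decide +kernel)
  have t_136 : Tr dat 136 PW_136 := Tr_step (c := cert) okR hWM t_24 5 136 PW_136 (by decide +kernel)
    (by decide +kernel) (by decide +kernel) (by decide +kernel)
  have t_139 : Tr dat 139 PW_139 := Tr_step (c := cert) okR hWM t_24 6 139 PW_139 (by decide +kernel)
    (by decide +kernel) (by decide +kernel) (by decide +kernel)
  have t_223 : Tr dat 223 PW_223 := Tr_step (c := cert) okR hWM t_113 0 223 PW_223 (by decide +kernel)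
    (by decide +kernel) (by decide +kernel) (by decide +kernel)
  have t_251 : Tr dat 251 PW_251 := Tr_step (c := cert) okR hWM t_25 6 251 PW_251 (by decide +kernel)
    (by decide +kernel) (by decide +kernel) (by decide +kernel)
  have t_300 : Tr dat 300 PW_300 := Tr_step (c := cert) okR hWM t_7 4 300 PW_300 (by decide +kernel)
    (by decide +kernel) (by decide +kernel) (by decide +kernel)
  have t_302 : Tr dat 302 PW_302 := Tr_step (c := cert) okR hWM t_23 5 302 PW_302 (by decide +kernel)
    (by decide +kernel) (by decide +kernel) (by decide +kernel)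
  have t_317 : Tr dat 317 PW_317 := Tr_step (c := cert) okR hWM t_7 3 317 PW_317 (by decide +kernel)
    (by decide +kernel) (by decide +kernel) (by decide +kernel)
  have t_321 : Tr dat 321 PW_321 := Tr_step (c := cert) okR hWM t_302 0 321 PW_321 (by decide +kernel)
    (by decide +kernel) (by decide +kernel) (by decide +kernel)
  have t_365 : Tr dat 365 PW_365 := Tr_step (c := cert) okR hWM t_1 15 365 PW_365 (by decide +kernel)
    (by decide +kernel) (by decide +kernel) (by decide +kernel)
  have t_395 : Tr dat 395 PW_395 := Tr_step (c := cert) okR hWM t_365 0 395 PW_395 (by decide +kernel)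
    (by decide +kernel) (by decide +kernel) (by decide +kernel)
  have t_429 : Tr dat 429 PW_429 := Tr_step (c := cert) okR hWM t_395 1 429 PW_429 (by decide +kernel)
    (by decide +kernel) (by decide +kernel) (by decide +kernel)
  have t_430 : Tr dat 430 PW_430 := Tr_step (c := cert) okR hWM t_429 0 430 PW_430 (by decide +kernel)
    (by decide +kernel) (by decide +kernel) (by decide +kernel)
  have t_448 : Tr dat 448 PW_448 := Tr_step (c := cert) okR hWM t_27 8 448 PW_448 (by decide +kernel)
    (by decide +kernel) (by decide +kernel) (by decide +kernel)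
  have t_449 : Tr dat 449 PW_449 := Tr_step (c := cert) okR hWM t_448 0 449 PW_449 (by decide +kernel)
    (by decide +kernel) (by decide +kernel) (by decide +kernel)
  have t_450 : Tr dat 450 PW_450 := Tr_step (c := cert) okR hWM t_27 0 450 PW_450 (by decide +kernel)
    (by decide +kernel) (by decide +kernel) (by decide +kernel)
  have t_451 : Tr dat 451 PW_451 := Tr_step (c := cert) okR hWM t_3 0 451 PW_451 (by decide +kernel)
    (by decide +kernel) (by decide +kernel) (by decide +kernel)
  have t_460 : Tr dat 460 PW_460 := Tr_step (c := cert) okR hWM t_24 4 460 PW_460 (by decide +kernel)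
    (by decide +kernel) (by decide +kernel) (by decide +kernel)
  have t_474 : Tr dat 474 PW_474 := Tr_step (c := cert) okR hWM t_112 3 474 PW_474 (by decide +kernel)
    (by decide +kernel) (by decide +kernel) (by decide +kernel)
  have t_480 : Tr dat 480 PW_480 := Tr_step (c := cert) okR hWM t_474 0 480 PW_480 (by decide +kernel)
    (by decide +kernel) (by decide +kernel) (by decide +kernel)
  have t_854 : Tr dat 854 PW_854 := Tr_step (c := cert) okR hWM t_23 0 854 PW_854 (by decide +kernel)
    (by decide +kernel) (by decide +kernel) (by decide +kernel)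
  have t_858 : Tr dat 858 PW_858 := Tr_step (c := cert) okR hWM t_29 0 858 PW_858 (by decide +kernel)
    (by decide +kernel) (by decide +kernel) (by decide +kernel)
  have t_859 : Tr dat 859 PW_859 := Tr_step (c := cert) okR hWM t_23 4 859 PW_859 (by decide +kernel)
    (by decide +kernel) (by decide +kernel) (by decide +kernel)
  have t_860 : Tr dat 860 PW_860 := Tr_step (c := cert) okR hWM t_29 4 860 PW_860 (by decide +kernel)
    (by decide +kernel) (by decide +kernel) (by decide +kernel)
  have t_885 : Tr dat 885 PW_885 := Tr_step (c := cert) okR hWM t_859 0 885 PW_885 (by decide +kernel)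
    (by decide +kernel) (by decide +kernel) (by decide +kernel)
  have t_888 : Tr dat 888 PW_888 := Tr_step (c := cert) okR hWM t_860 0 888 PW_888 (by decide +kernel)
    (by decide +kernel) (by decide +kernel) (by decide +kernel)
  have t_891 : Tr dat 891 PW_891 := Tr_step (c := cert) okR hWM t_64 0 891 PW_891 (by decide +kernel)
    (by decide +kernel) (by decide +kernel) (by decide +kernel)
  have t_893 : Tr dat 893 PW_893 := Tr_step (c := cert) okR hWM t_68 0 893 PW_893 (by decide +kernel)
    (by decide +kernel) (by decide +kernel) (by decide +kernel)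
  have t_965 : Tr dat 965 PW_965 := Tr_step (c := cert) okR hWM t_25 3 965 PW_965 (by decide +kernel)
    (by decide +kernel) (by decide +kernel) (by decide +kernel)
  have t_968 : Tr dat 968 PW_968 := Tr_step (c := cert) okR hWM t_965 0 968 PW_968 (by decide +kernel)
    (by decide +kernel) (by decide +kernel) (by decide +kernel)
  have t_1056 : Tr dat 1056 PW_1056 := Tr_step (c := cert) okR hWM t_0 16 1056 PW_1056 (by decide +kernel)
    (by decide +kernel) (by decide +kernel) (by decide +kernel)
  have t_1066 : Tr dat 1066 PW_1066 := Tr_step (c := cert) okR hWM t_1056 0 1066 PW_1066 (by decide +kernel)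
    (by decide +kernel) (by decide +kernel) (by decide +kernel)
  have t_1097 : Tr dat 1097 PW_1097 := Tr_step (c := cert) okR hWM t_1066 1 1097 PW_1097 (by decide +kernel)
    (by decide +kernel) (by decide +kernel) (by decide +kernel)
  have t_1104 : Tr dat 1104 PW_1104 := Tr_step (c := cert) okR hWM t_1097 0 1104 PW_1104 (by decide +kernel)
    (by decide +kernel) (by decide +kernel) (by decide +kernel)
  intro p hp
  simp only [cert, List.mem_cons, List.not_mem_nil, or_false] at hp
  rcases hp with rfl | rfl | rfl | rfl | rfl | rfl | rfl | rfl | rfl | rfl | rfl | rfl | rfl | rfl | rfl | rfl | rfl | rfl | rfl | rfl | rfl | rfl | rfl | rfl | rfl | rfl | rfl | rfl | rfl | rfl | rfl | rfl | rfl | rfl | rfl | rfl | rfl | rfl | rfl | rfl | rfl | rfl | rfl | rfl | rfl | rfl | rfl | rfl | rfl | rfl | rfl | rfl | rfl | rfl | rfl | rfl | rfl | rfl | rfl | rfl | rfl | rfl | rfl | rfl | rfl | rfl | rfl | rfl | rfl | rfl | rfl | rfl | rfl | rfl | rfl | rfl | rfl | rfl | rfl | rfl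
  · exact t_0
  · exact t_1
  · exact t_2
  · exact t_3
  · exact t_4
  · exact t_5
  · exact t_6
  · exact t_7
  · exact t_8
  · exact t_9
  · exact t_10
  · exact t_11
  · exact t_12
  · exact t_23
  · exact t_24
  · exact t_25
  · exact t_26
  · exact t_27
  · exact t_28
  · exact t_29
  · exact t_30
  · exact t_31
  · exact t_32
  · exact t_33
  · exact t_34
  · exact t_35
  · exact t_36
  · exact t_38
  · exact t_39
  · exact t_42
  · exact t_44
  · exact t_62
  · exact t_63
  · exact t_64
  · exact t_65
  · exact t_66
  · exact t_67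
  · exact t_68
  · exact t_76
  · exact t_77
  · exact t_78
  · exact t_88
  · exact t_112
  · exact t_113
  · exact t_114
  · exact t_115
  · exact t_116
  · exact t_136
  · exact t_139
  · exact t_223
  · exact t_251
  · exact t_300
  · exact t_302
  · exact t_317
  · exact t_321
  · exact t_365
  · exact t_395
  · exact t_429
  · exact t_430
  · exact t_448
  · exact t_449
  · exact t_450
  · exact t_451
  · exact t_460
  · exact t_474
  · exact t_480
  · exact t_854
  · exact t_858
  · exact t_859
  · exact t_860
  · exact t_885
  · exact t_888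
  · exact t_891
  · exact t_893
  · exact t_965
  · exact t_968
  · exact t_1056
  · exact t_1066
  · exact t_1097
  · exact t_1104

end Pool.Agent.Helper77.MK.D42
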