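import Pool.Agent.Helper77.MK.GenDefs

namespace Pool.Agent.Helper77.MK.Gen

/-- `allB n f` tests `f k = true` for all `k < n`. -/
noncomputable def allB (n : ℕ) (f : ℕ → Bool) : Bool :=
  Nat.rec true (fun k r => f k && r) n

theorem allB_spec {n : ℕ} {f : ℕ → Bool} (h : allB n f = true) : ∀ k, k < n → f k = true := by
  induction n with
  | zero => intro k hk; omega
  | succ n ih =>
    have h' : (f n && allB n f) = true := h
    rw [Bool.and_eq_true] at h'
    intro k hk
    rcases Nat.lt_succ_iff_lt_or_eq.mp hk with h1 | h1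
    · exact ih h'.2 k h1
    · subst h1; exact h'.1

/-- the certificate -/
structure Cert (d : Dat) where
  WM : ℕ
  FULL : ℕ
  PWl : List (ℕ × ℕ)
  TWs : List ℕ
  DWl : List ℕ
  SSW : ℕ
  MW : ℕ
  nM : ℕ
  nch : ℕ
  MF : ℕ
  GM : List ℕ
  PL : ℕ
  exL : List (ℕ × ℕ × List ℕ)
  BI : ℕ
  BJ : ℕ
  reps : List (ℕ × ℕ)
  PRE : List (List (List ℕ))
  nMS : ℕ
  GMS : List ℕ
  MMS : List ℕ
  KC : List (List (List ℕ))
  Us : List ℕ
  OL : List (List (ℕ × ℕ))
  bigL : List ℕ

variable (d : Dat) (c : Cert d)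

def lookupN : List (ℕ × ℕ) → ℕ → ℕ
  | [], _ => 0
  | p :: l, y => bif Nat.beq p.1 y then p.2 else lookupN l y

def memN : List (ℕ × ℕ) → ℕ → Bool
  | [], _ => false
  | p :: l, y => Nat.beq p.1 y || memN l y

def word (X z : ℕ) : ℕ := (X >>> (d.SB * z)) % c.WM

/-- raw action -/
def ra (T z : ℕ) : ℕ := (T >>> (d.RB * z)) % d.RM

noncomputable def commT (T T' : ℕ) : Bool :=
  allB d.N (fun z => Nat.beq (ra d T (ra d T' z)) (ra d T' (ra d T z)))

noncomputable def closT (T : ℕ) : Bool := allB d.N (fun z => Nat.ble (ra d T z + 1) d.N)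

noncomputable def pairChk : List ℕ → Bool
  | [] => true
  | T :: l => l.all (commT d T) && pairChk l

noncomputable def chkPW (T X X' : ℕ) : Bool :=
  allB d.N (fun z => Nat.beq (word d c X z) (word d c X' (ra d T z)))

/-- raw upper action -/
def rs (g s : ℕ) : ℕ := (d.ST >>> (8 * (s * d.nU + g))) % 256

noncomputable def chkS : Bool :=
  allB d.nU (fun g => allB d.NS (fun s => Nat.ble (rs d g s + 1) d.NS && Nat.ble 1 (rs d g s)))

noncomputable def chkScomm : Bool :=
  allB d.nU (fun g => allB g (fun h => allB d.NS (fun s =>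
    Nat.beq (rs d g (rs d h s)) (rs d h (rs d g s)))))

noncomputable def chkTW (D Tw T : ℕ) : Bool :=
  allB d.N (fun y => Nat.beq ((word d c D y ||| word d c Tw (ra d T y)) &&& c.FULL) c.FULL)

noncomputable def chkM (T g : ℕ) : Bool :=
  allB d.N (fun z => Nat.beq
    ((word d c c.MW z &&& g) &&& word d c c.MW (ra d T z)) (word d c c.MW z &&& g))

/-- heap sizes at most 31, without 30 -/
def isRest (a : ℕ) : Bool := Nat.ble a 31 && !(Nat.beq a 30)

/-- rest heaps of size at least 2 -/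
def rest2 : List ℕ := (List.range 32).filter (fun a => Nat.ble 2 a && isRest a)

/-- all heaps of size at least 2 -/
def heaps2 : List ℕ := (List.range (d.hmax + 1)).filter (fun a => Nat.ble 2 a)

/-- heaps which are not rest heaps -/
def big2 : List ℕ := (List.range (d.hmax + 1)).filter (fun a => !(isRest a))

/-- rest heaps acting nontrivially -/
def nt2 : List ℕ := rest2.filter (fun a => Nat.blt (gi d a) d.ng)

/-- class of the rest part of the pair of heaps `a`, `b` -/
def ycl (a b : ℕ) : ℕ :=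
  let x := bif Nat.blt (gi d b) d.ng then ra d (d.Gs.getD (gi d b) 0) 0 else 0
  bif Nat.blt (gi d a) d.ng then ra d (d.Gs.getD (gi d a) 0) x else x

def PWof (y : ℕ) : ℕ := lookupN c.PWl y

def pairsR (H : ℕ) : List (ℕ × ℕ) :=
  ((List.range (H - 1)).map (fun a => (a, H - 2 - a))).filter (fun p => isRest p.1 && isRest p.2)

def DWof (l : List (ℕ × ℕ)) : ℕ := l.foldr (fun p acc => PWof d c (ycl d p.1 p.2) ||| acc) 0

def DW (H : ℕ) : ℕ := c.DWl.getD H 0

/-- big parts of an option of the heap `H` -/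
def nrl (H : ℕ) : List ℕ := (big2 d).filter (fun b => Nat.ble (b + 2) H)

/-- fast version of `ci` -/
def ciK (i : ℕ) : ℕ := bif Nat.ble i d.A1 then i else d.A1 - 1 + (i - d.A1 + 1) % 2

def cjK (j : ℕ) : ℕ := bif Nat.ble j d.B1 then j else d.B1 - 1 + (j - d.B1 + 1) % 2

def eeK (i j : ℕ) : ℕ := bif Nat.ble d.HI (j - i) then d.HI else j - i

def tauK (s i j : ℕ) : ℕ :=
  (d.TT >>> (9 * (((s * (d.A1 + 1) + ciK d i) * (d.B1 + 1) + cjK d j) * (d.HI + 1) + eeK d i j)))
    % 512

/-- type after adding the heap `b` -/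
def sht (b s i j : ℕ) : ℕ :=
  bif Nat.beq b 30 then tauK d s (i + 1) j
  else bif Nat.beq b 34 then tauK d s i (j + 1)
  else tauK d (bif Nat.blt (gu d b) d.nU then rs d (gu d b) s else s) i j

/-- classes having a P-option of the heap `H` in the context `(s, i, j)` -/
def DD (H s i j : ℕ) : ℕ :=
  (DW d c H >>> tauK d s i j) ||| (c.OL.getD H []).foldr
    (fun p acc => (p.1 >>> sht d p.2 s i j) ||| acc) 0

/-- the list `OL` is correct -/
def eqOL : List ℕ → List (ℕ × ℕ) → ℕ → Bool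
  | [], [], _ => true
  | b :: l, p :: l', H => (Nat.beq p.2 b && Nat.beq p.1 (PWof d c (ycl d (H - 2 - b) b))) &&
      eqOL l l' H
  | _, _, _ => false

noncomputable def chkZ (D g : ℕ) : Bool :=
  allB d.N (fun y => (!(Nat.beq (bif Nat.blt g d.ng then ra d (d.Gs.getD g 0) y else y) 0))
    || Nat.testBit D (d.SB * y))

def KW (k : ℕ) : ℕ :=
  (List.range d.ng).foldr
    (fun a acc => (bif Nat.testBit (c.GM.getD a 0) k then 0 else c.TWs.getD a 0) ||| acc) 0

def M1 (k : ℕ) : ℕ := ((c.MW >>> k) &&& c.PL) * c.FULL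

noncomputable def chkM1 : Bool := allB c.nch (fun k => allB d.N (fun z =>
    Nat.beq (word d c (M1 d c k) z) (bif bitAt d c.MW z k then c.FULL else 0)))

def inter : ℕ := (List.range c.nch).foldr (fun k acc => (KW d c k ||| M1 d c k) &&& acc) c.SSW

def EXW : ℕ := c.exL.foldr (fun e acc => 2 ^ (d.SB * e.2.1 + e.1) ||| acc) 0

noncomputable def stepB (t z m m' H : ℕ) : Bool :=
  (!(Nat.testBit (c.GM.getD (gi d H) 0) m)) || Nat.testBit (c.GM.getD (gi d H) 0) m' ||
    allB d.N (fun y => (!(bitAt d c.MW y m)) ||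
      (!(Nat.beq (ra d (d.Gs.getD (gi d H) 0) y) z)) || bitAt d (DW d c H) y t)

noncomputable def chainB (t z : ℕ) : ℕ → List ℕ → Bool
  | m, [] => !(bitAt d c.MW z m)
  | m, m' :: ms => (nt2 d).all (stepB d c t z m m') && chainB t z m' ms

noncomputable def headB (t z m : ℕ) : Bool :=
  (nt2 d).all (fun H => Nat.testBit (c.GM.getD (gi d H) 0) m ||
    !(bitAt d (c.TWs.getD (gi d H) 0) z t))

noncomputable def exB (e : ℕ × ℕ × List ℕ) : Bool :=
  match e.2.2 with
  | [] => false
  | m :: ms => Nat.ble (e.1 + 1) d.SB && (headB d c e.1 e.2.1 m &&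
      (ms.all (fun k => Nat.ble (k + 1) c.nM) && (Nat.ble (m + 1) c.nM &&
        chainB d c e.1 e.2.1 m ms)))

/-! levels -/

def winKey (i j : ℕ) : List ℕ :=
  [bif Nat.beq i 0 then 1 else 0, bif Nat.beq j 0 then 1 else 0,
    ci d i, cj d j, ee d i j, ci d (i + 1), ee d (i + 1) j, cj d (j + 1), ee d i (j + 1),
    ci d (i - 1), ee d (i - 1) j, cj d (j - 1), ee d i (j - 1), ee d (i + 1) (j - 1)]

noncomputable def chkWin : Bool := allB c.BI (fun i => allB c.BJ (fun j =>
  c.reps.any (fun p => winKey d i j == winKey d p.1 p.2)))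

def ctxA (s i j H : ℕ) : Bool :=
  Nat.beq (((d.W >>> sht d H s i j) &&& DD d c H s i j) &&& c.PL) 0

def killPre (s i j g mm : ℕ) : ℕ :=
  ((c.PRE.getD s []).getD g []).foldr
    (fun s' acc => bif Nat.testBit mm s' then DD d c (c.Us.getD g 0) s' i j &&& acc else acc) c.PL

def killStep (s i j gprev mprev gm : ℕ) : ℕ :=
  (List.range d.nU).foldr (fun g acc =>
    bif Nat.testBit gprev g && !(Nat.testBit gm g) then killPre d c s i j g mprev &&& acc
    else acc) c.PL

def killChain (s i j : ℕ) : ℕ → ℕ → List ℕ → ℕ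
  | _, mprev, [] => bif Nat.testBit mprev s then 0 else c.PL
  | gprev, mprev, m :: ms =>
    killStep d c s i j gprev mprev (c.GMS.getD m 0) &&&
      killChain s i j (c.GMS.getD m 0) (c.MMS.getD m 0) ms

/-- all generators, all upper classes -/
def allG : ℕ := 2 ^ d.nU - 1
def allS : ℕ := 2 ^ d.NS - 1

def kill (s i j : ℕ) : ℕ :=
  (c.KC.getD s []).foldr (fun ch acc => killChain d c s i j (allG d) (allS d) ch ||| acc) 0

def base (s i j : ℕ) : ℕ :=
  (d.W >>> tauK d s i j) ||| ((c.SSW >>> tauK d s i j) |||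
    ((bif Nat.beq i 0 then 0 else DD d c 30 s (i - 1) j) |||
      (bif Nat.beq j 0 then 0 else DD d c 34 s i (j - 1))))

def ctxB (s i j : ℕ) : Bool :=
  Nat.beq (base d c s i j &&& c.PL) c.PL ||
  Nat.beq ((base d c s i j ||| (kill d c s i j ||| (bif Nat.beq (s + i + j) 0 then 1 else 0)))
    &&& c.PL) c.PL

def ctx (s : ℕ) : Bool :=
  c.reps.all (fun p => Nat.ble (tauK d s p.1 p.2 + 1) d.SB &&
    (c.bigL.all (ctxA d c s p.1 p.2) && ctxB d c s p.1 p.2))

/-- closure of the upper submonoids -/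
noncomputable def chkMS : Bool :=
  allB c.nMS (fun m => Nat.testBit (c.MMS.getD m 0) 0 &&
    allB d.nU (fun g => (!(Nat.testBit (c.GMS.getD m 0) g)) ||
      allB d.NS (fun s => (!(Nat.testBit (c.MMS.getD m 0) s)) ||
        Nat.testBit (c.MMS.getD m 0) (rs d g s))))

noncomputable def chkPRE : Bool :=
  allB d.nU (fun g => allB d.NS (fun s => ((c.PRE.getD (rs d g s) []).getD g []).any
    (fun x => Nat.beq x s)))

def chkKC : Bool := c.KC.all (fun l => l.all (fun ch => ch.all (fun m => Nat.ble (m + 1) c.nMS)))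

/-- consistency of the heap tables -/
noncomputable def chkHeaps : Bool :=
  allB (d.hmax + 1) (fun h => (isRest h || Nat.beq (gi d h) d.ng) &&
    (((!(isRest h)) || Nat.beq (gu d h) d.nU) &&
      ((!(Nat.beq h 30 || Nat.beq h 34)) || Nat.beq (gu d h) d.nU) &&
      ((isRest h || Nat.beq h 30 || Nat.beq h 34) ||
        (Nat.blt (gu d h) d.nU && Nat.beq (c.Us.getD (gu d h) 0) h)) &&
      Nat.ble (gi d h) d.ng))

/-- `X` lists at every class the value of `W` at the class plus a fixed multiset of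
generators, whose class is `y` -/
def Tr (y X : ℕ) : Prop :=
  ∃ r : List ℕ, r.foldr (actR d) 0 = y ∧ ∀ l : List ℕ, ∀ t, t < d.SB →
    bitAt d X (l.foldr (actR d) 0) t = bitAt d d.W ((l ++ r).foldr (actR d) 0) t

/-- the certificate is correct -/
structure Ok : Prop where
  kTr : ∀ p ∈ c.PWl, Tr d p.1 p.2
  kWM : c.WM = 2 ^ d.SB
  kFULL : c.FULL = 2 ^ d.SB - 1
  kMF : c.MF = 2 ^ c.nM - 1
  kNpos : Nat.ble 1 d.N = true
  kNSpos : Nat.ble 1 d.NS = true
  khmax : (Nat.ble 34 d.hmax && Nat.ble d.hmax 60) = true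
  kSB1 : Nat.ble 1 d.SB = true
  knM : Nat.ble c.nM d.SB = true
  knch : Nat.ble c.nch c.nM = true
  kGlen : Nat.beq d.Gs.length d.ng = true
  kglen : Nat.ble d.giL.length (d.hmax + 1) = true
  kgulen : Nat.ble d.guL.length (d.hmax + 1) = true
  kclos : d.Gs.all (closT d) = true
  kcomm : pairChk d d.Gs = true
  kS : chkS d = true
  kScomm : chkScomm d = true
  kheaps : chkHeaps d c = true
  kTW : (nt2 d).all (fun H => chkTW d c (DW d c H) (c.TWs.getD (gi d H) 0)
    (d.Gs.getD (gi d H) 0)) = true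
  kM : (List.range d.ng).all (fun a => chkM d c (d.Gs.getD a 0) (c.GM.getD a 0)) = true
  kM0 : Nat.beq (word d c c.MW 0 &&& c.MF) c.MF = true
  kpairs : (heaps2 d).all (fun H => (pairsR H).all (fun p => memN c.PWl (ycl d p.1 p.2))) = true
  kpairs2 : (heaps2 d).all (fun H => (nrl d H).all (fun b => isRest (H - 2 - b) &&
    memN c.PWl (ycl d (H - 2 - b) b))) = true
  kOL : (heaps2 d).all (fun H => eqOL d c (nrl d H) (c.OL.getD H []) H) = true
  kbig : (c.bigL == big2 d) = true
  ksingle : rest2.all (fun H => memN c.PWl (ycl d H 0)) = true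
  kDW : (heaps2 d).all (fun H => Nat.beq (DW d c H) (DWof d c (pairsR H))) = true
  kA : rest2.all (fun H => Nat.beq (PWof d c (ycl d H 0) &&& DW d c H) 0) = true
  kzero : rest2.all (fun H => chkZ d (DW d c H) (gi d H)) = true
  kM1 : chkM1 d c = true
  kSS : Nat.beq (inter d c) (EXW d c) = true
  kex : c.exL.all (exB d c) = true
  kPL : allB d.N (fun z => Nat.testBit c.PL (d.SB * z)) = true
  kA1 : (Nat.ble 1 d.A1 && Nat.ble 1 d.B1) = true
  kBI : (Nat.ble (d.A1 + 2) c.BI && Nat.ble (d.B1 + 4) c.BI) = true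
  kBJ : (Nat.ble (d.A1 + d.HI + 5) c.BJ && Nat.ble (d.B1 + 2) c.BJ) = true
  kwin : chkWin d c = true
  kctx : ∀ s, s < d.NS → ctx d c s = true
  kMS : chkMS d c = true
  kPRE : chkPRE d c = true
  kKC : chkKC d c = true
  kgi0 : (Nat.beq (gi d 0) d.ng && Nat.beq (gi d 1) d.ng) = true
  kbit0 : Nat.testBit d.W (tau d 0 0 0) = false
  ktau0 : Nat.beq (tau d 0 0 0) 0 = true

end Pool.Agent.Helper77.MK.Gen
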