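import Mathlib

/-!
Table driven outcome functions for the game 0.07: the data (`Dat`) and the outcome function.
-/

namespace Pool.Agent.Helper77.MK.Gen

/-- concatenation of blocks of `k` bits -/
def cat (k : ℕ) : List ℕ → ℕ
  | [] => 0
  | x :: l => x ||| (cat k l <<< k)

/-- The data of an outcome function. -/
structure Dat where
  /-- largest heap -/
  hmax : ℕ
  /-- number of classes of rest positions (heaps at most 31, without 30) -/
  N : ℕ
  /-- bits per entry of the action tables, and its power of two -/
  RB : ℕ
  RM : ℕ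
  /-- number of types (bits per word) -/
  SB : ℕ
  /-- action tables of the generators of the rest monoid -/
  ng : ℕ
  Gs : List ℕ
  /-- generator belonging to a heap -/
  giL : List ℕ
  /-- generators of the upper monoid (heaps above 31, without 34) -/
  nU : ℕ
  guL : List ℕ
  NS : ℕ
  /-- action table of the upper monoid -/
  ST : ℕ
  /-- table of the types -/
  TT : ℕ
  A1 : ℕ
  B1 : ℕ
  HI : ℕ
  /-- the classes which are P, for every type -/
  W : ℕ

/-- generator of the rest monoid belonging to the heap `h` -/
def gi (d : Dat) (h : ℕ) : ℕ := d.giL.getD h d.ng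

/-- generator of the upper monoid belonging to the heap `h` -/
def gu (d : Dat) (h : ℕ) : ℕ := d.guL.getD h d.nU

/-- action of a generator on the classes of rest positions -/
def actR (d : Dat) (g z : ℕ) : ℕ :=
  if g < d.ng then (if z < d.N then ((d.Gs.getD g 0) >>> (d.RB * z)) % d.RM else z) else z

/-- action of a generator on the classes of upper positions -/
def actS (d : Dat) (g s : ℕ) : ℕ :=
  if g < d.nU then (if s < d.NS then (d.ST >>> (8 * (s * d.nU + g))) % 256 else s) else s

/-- class of the rest part of a position -/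
def rc (d : Dat) (G : Multiset ℕ) : ℕ :=
  ((G.sort (· ≤ ·)).map (gi d)).foldr (actR d) 0

/-- class of the upper part of a position -/
def sc (d : Dat) (G : Multiset ℕ) : ℕ :=
  ((G.sort (· ≤ ·)).map (gu d)).foldr (actS d) 0

def ci (d : Dat) (i : ℕ) : ℕ := if i ≤ d.A1 then i else d.A1 - 1 + (i - d.A1 + 1) % 2

def cj (d : Dat) (j : ℕ) : ℕ := if j ≤ d.B1 then j else d.B1 - 1 + (j - d.B1 + 1) % 2

def ee (d : Dat) (i j : ℕ) : ℕ := min d.HI (j - i)

/-- the type of the level with upper class `s`, `i` heaps 30 and `j` heaps 34 -/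
def tau (d : Dat) (s i j : ℕ) : ℕ :=
  (d.TT >>> (9 * (((s * (d.A1 + 1) + ci d i) * (d.B1 + 1) + cj d j) * (d.HI + 1) + ee d i j))) % 512

def bitAt (d : Dat) (X z t : ℕ) : Bool := Nat.testBit X (d.SB * z + t)

/-- the outcome function -/
def out (d : Dat) (G : Multiset ℕ) : Bool :=
  bitAt d d.W (rc d G) (tau d (sc d G) (G.count 30) (G.count 34))

end Pool.Agent.Helper77.MK.Gen
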