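import Pool.Agent.Helper77.MK.GenAct

namespace Pool.Agent.Helper77.MK.Gen

variable {d : Dat} {c : Cert d}

theorem ciK_eq (i : ℕ) : ciK d i = ci d i := by
  unfold ciK ci
  by_cases h : i ≤ d.A1
  · rw [if_pos h, Nat.ble_eq.mpr h]; rfl
  · have : Nat.ble i d.A1 = false := Bool.eq_false_iff.mpr (fun h' => h (Nat.ble_eq.mp h'))
    rw [if_neg h, this]; rfl

theorem cjK_eq (i : ℕ) : cjK d i = cj d i := by
  unfold cjK cj
  by_cases h : i ≤ d.B1
  · rw [if_pos h, Nat.ble_eq.mpr h]; rfl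
  · have : Nat.ble i d.B1 = false := Bool.eq_false_iff.mpr (fun h' => h (Nat.ble_eq.mp h'))
    rw [if_neg h, this]; rfl

theorem eeK_eq (i j : ℕ) : eeK d i j = ee d i j := by
  unfold eeK ee
  by_cases h : d.HI ≤ j - i
  · rw [Nat.ble_eq.mpr h, Nat.min_eq_left h]; rfl
  · have : Nat.ble d.HI (j - i) = false := Bool.eq_false_iff.mpr (fun h' => h (Nat.ble_eq.mp h'))
    rw [this, Nat.min_eq_right (by omega)]; rfl

theorem tauK_eq (s i j : ℕ) : tauK d s i j = tau d s i j := by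
  unfold tauK tau; rw [ciK_eq, cjK_eq, eeK_eq]

theorem tau_congr {s a b a' b' : ℕ} (h1 : ci d a = ci d a') (h2 : cj d b = cj d b')
    (h3 : ee d a b = ee d a' b') : tau d s a b = tau d s a' b' := by
  unfold tau; rw [h1, h2, h3]

theorem A1pos (ok : Ok d c) : 1 ≤ d.A1 ∧ 1 ≤ d.B1 := by
  have h := ok.kA1
  rw [Bool.and_eq_true] at h
  exact ⟨Nat.le_of_ble_eq_true h.1, Nat.le_of_ble_eq_true h.2⟩

theorem ci_add (ok : Ok d c) (x : ℕ) (h : d.A1 ≤ x + 1) : ci d (x + 2) = ci d x := by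
  have := (A1pos ok).1
  unfold ci
  split_ifs <;> omega

theorem cj_add (ok : Ok d c) (x : ℕ) (h : d.B1 ≤ x + 1) : cj d (x + 2) = cj d x := by
  have := (A1pos ok).2
  unfold cj
  split_ifs <;> omega

theorem ee_diag (i j : ℕ) : ee d (i + 2) (j + 2) = ee d i j := by
  unfold ee
  congr 1
  omega

theorem ee_up (i j : ℕ) (h : i + d.HI ≤ j) : ee d i (j + 2) = ee d i j := by
  unfold ee
  rw [Nat.min_eq_left (by omega), Nat.min_eq_left (by omega)]

theorem ee_right (i j : ℕ) (h : j ≤ i) : ee d (i + 2) j = ee d i j := by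
  unfold ee
  congr 1
  omega

theorem tau_diag (ok : Ok d c) (s a b : ℕ) (ha : d.A1 ≤ a + 1) (hb : d.B1 ≤ b + 1) :
    tau d s (a + 2) (b + 2) = tau d s a b :=
  tau_congr (ci_add ok a ha) (cj_add ok b hb) (ee_diag a b)

theorem tau_up (ok : Ok d c) (s a b : ℕ) (hb : d.B1 ≤ b + 1) (h : a + d.HI ≤ b) :
    tau d s a (b + 2) = tau d s a b :=
  tau_congr rfl (cj_add ok b hb) (ee_up a b h)

theorem tau_right (ok : Ok d c) (s a b : ℕ) (ha : d.A1 ≤ a + 1) (h : b ≤ a) :
    tau d s (a + 2) b = tau d s a b :=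
  tau_congr (ci_add ok a ha) rfl (ee_right a b h)

/-- the same levels around `(i, j)` and `(i', j')` -/
def SameWin (d : Dat) (i j i' j' : ℕ) : Prop :=
  (i = 0 ↔ i' = 0) ∧ (j = 0 ↔ j' = 0) ∧ ∀ s, tau d s i j = tau d s i' j' ∧
    tau d s (i + 1) j = tau d s (i' + 1) j' ∧ tau d s i (j + 1) = tau d s i' (j' + 1) ∧
    tau d s (i - 1) j = tau d s (i' - 1) j' ∧ tau d s i (j - 1) = tau d s i' (j' - 1) ∧
    tau d s (i + 1) (j - 1) = tau d s (i' + 1) (j' - 1)

theorem SameWin.trans {i j i' j' i'' j'' : ℕ} (h : SameWin d i j i' j')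
    (k : SameWin d i' j' i'' j'') : SameWin d i j i'' j'' := by
  refine ⟨h.1.trans k.1, h.2.1.trans k.2.1, fun s => ?_⟩
  obtain ⟨a1, a2, a3, a4, a5, a6⟩ := h.2.2 s
  obtain ⟨b1, b2, b3, b4, b5, b6⟩ := k.2.2 s
  exact ⟨a1.trans b1, a2.trans b2, a3.trans b3, a4.trans b4, a5.trans b5, a6.trans b6⟩

theorem win_diag (ok : Ok d c) (i j : ℕ) (hi : d.A1 ≤ i) (hj : d.B1 ≤ j) :
    SameWin d (i + 2) (j + 2) i j := by
  have h0 := A1pos ok
  refine ⟨by omega, by omega, fun s => ⟨tau_diag ok s i j (by omega) (by omega), ?_, ?_, ?_, ?_,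
    ?_⟩⟩
  · exact tau_diag ok s (i + 1) j (by omega) (by omega)
  · exact tau_diag ok s i (j + 1) (by omega) (by omega)
  · have := tau_diag ok s (i - 1) j (by omega) (by omega)
    rwa [show i - 1 + 2 = i + 2 - 1 by omega] at this
  · have := tau_diag ok s i (j - 1) (by omega) (by omega)
    rwa [show j - 1 + 2 = j + 2 - 1 by omega] at this
  · have := tau_diag ok s (i + 1) (j - 1) (by omega) (by omega)
    rwa [show j - 1 + 2 = j + 2 - 1 by omega] at this

theorem win_up (ok : Ok d c) (i j : ℕ) (hj : d.B1 ≤ j) (h : i + d.HI + 2 ≤ j) :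
    SameWin d i (j + 2) i j := by
  have h0 := A1pos ok
  refine ⟨by omega, by omega, fun s => ⟨tau_up ok s i j (by omega) (by omega), ?_, ?_, ?_, ?_,
    ?_⟩⟩
  · exact tau_up ok s (i + 1) j (by omega) (by omega)
  · exact tau_up ok s i (j + 1) (by omega) (by omega)
  · exact tau_up ok s (i - 1) j (by omega) (by omega)
  · have := tau_up ok s i (j - 1) (by omega) (by omega)
    rwa [show j - 1 + 2 = j + 2 - 1 by omega] at this
  · have := tau_up ok s (i + 1) (j - 1) (by omega) (by omega)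
    rwa [show j - 1 + 2 = j + 2 - 1 by omega] at this

theorem win_right (ok : Ok d c) (i j : ℕ) (hi : d.A1 ≤ i) (h : j + 1 ≤ i) :
    SameWin d (i + 2) j i j := by
  have h0 := A1pos ok
  refine ⟨by omega, by omega, fun s => ⟨tau_right ok s i j (by omega) (by omega), ?_, ?_, ?_, ?_,
    ?_⟩⟩
  · exact tau_right ok s (i + 1) j (by omega) (by omega)
  · exact tau_right ok s i (j + 1) (by omega) (by omega)
  · have := tau_right ok s (i - 1) j (by omega) (by omega)
    rwa [show i - 1 + 2 = i + 2 - 1 by omega] at this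
  · exact tau_right ok s i (j - 1) (by omega) (by omega)
  · exact tau_right ok s (i + 1) (j - 1) (by omega) (by omega)

theorem exists_box (ok : Ok d c) : ∀ n i j : ℕ, i + j = n →
    ∃ i' j', i' < c.BI ∧ j' < c.BJ ∧ SameWin d i j i' j' := by
  have hBI := ok.kBI
  have hBJ := ok.kBJ
  rw [Bool.and_eq_true] at hBI hBJ
  have a1 := Nat.le_of_ble_eq_true hBI.1
  have a2 := Nat.le_of_ble_eq_true hBI.2
  have a3 := Nat.le_of_ble_eq_true hBJ.1
  have a4 := Nat.le_of_ble_eq_true hBJ.2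
  have h0 := A1pos ok
  intro n
  induction n using Nat.strong_induction_on with
  | _ n ih =>
    intro i j hij
    by_cases h1 : d.A1 + 2 ≤ i ∧ d.B1 + 2 ≤ j
    · obtain ⟨i', j', a, b, e⟩ := ih (n - 4) (by omega) (i - 2) (j - 2) (by omega)
      have h2 := win_diag ok (i - 2) (j - 2) (by omega) (by omega)
      rw [show i - 2 + 2 = i by omega, show j - 2 + 2 = j by omega] at h2
      exact ⟨i', j', a, b, h2.trans e⟩
    · by_cases h2 : i + d.HI + 4 ≤ j ∧ d.B1 + 2 ≤ j
      · obtain ⟨i', j', a, b, e⟩ := ih (n - 2) (by omega) i (j - 2) (by omega)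
        have h3 := win_up ok i (j - 2) (by omega) (by omega)
        rw [show j - 2 + 2 = j by omega] at h3
        exact ⟨i', j', a, b, h3.trans e⟩
      · by_cases h3 : j + 3 ≤ i ∧ d.A1 + 2 ≤ i
        · obtain ⟨i', j', a, b, e⟩ := ih (n - 2) (by omega) (i - 2) j (by omega)
          have h4 := win_right ok (i - 2) j (by omega) (by omega)
          rw [show i - 2 + 2 = i by omega] at h4
          exact ⟨i', j', a, b, h4.trans e⟩
        · refine ⟨i, j, ?_, ?_, Iff.rfl, Iff.rfl, fun s => ⟨rfl, rfl, rfl, rfl, rfl, rfl⟩⟩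
          · by_contra hc
            by_cases h5 : d.B1 + 2 ≤ j
            · exact h1 ⟨by omega, h5⟩
            · exact h3 ⟨by omega, by omega⟩
          · by_contra hc
            by_cases h5 : d.A1 + 2 ≤ i
            · exact h1 ⟨h5, by omega⟩
            · exact h2 ⟨by omega, by omega⟩

theorem exists_rep (ok : Ok d c) (i j : ℕ) : ∃ p ∈ c.reps, SameWin d i j p.1 p.2 := by
  obtain ⟨i', j', hi, hj, hw⟩ := exists_box ok _ i j rfl
  have h := allB_spec (allB_spec ok.kwin i' hi) j' hj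
  rw [List.any_eq_true] at h
  obtain ⟨p, hp, hk⟩ := h
  refine ⟨p, hp, hw.trans ?_⟩
  have hk2 : winKey d i' j' = winKey d p.1 p.2 := by simpa using hk
  unfold winKey at hk2
  simp only [List.cons.injEq, and_true] at hk2
  obtain ⟨k1, k2, k3, k4, k5, k6, k7, k8, k9, k10, k11, k12, k13, k14⟩ := hk2
  have hz : ∀ x y : ℕ, (bif Nat.beq x 0 then 1 else 0) = (bif Nat.beq y 0 then (1 : ℕ) else 0) →
      (x = 0 ↔ y = 0) := by
    intro x y h
    cases x with
    | zero =>
      cases y with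
      | zero => simp
      | succ y => exact absurd h (by simp [Nat.beq])
    | succ x =>
      cases y with
      | zero => exact absurd h (by simp [Nat.beq])
      | succ y => simp
  refine ⟨hz _ _ k1, hz _ _ k2, fun s => ⟨tau_congr k3 k4 k5, tau_congr k6 k4 k7,
    tau_congr k3 k8 k9, tau_congr k10 k4 k11, tau_congr k3 k12 k13, tau_congr k6 k12 k14⟩⟩

theorem PL_bit (ok : Ok d c) {z : ℕ} (hz : z < d.N) : bitAt d c.PL z 0 = true :=
  allB_spec ok.kPL z hz

theorem ctx_spec (ok : Ok d c) {s : ℕ} (hs : s < d.NS) {p : ℕ × ℕ} (hp : p ∈ c.reps) :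
    tau d s p.1 p.2 < d.SB ∧ (∀ H ∈ big2 d, ctxA d c s p.1 p.2 H = true) ∧
      ctxB d c s p.1 p.2 = true := by
  have h := ok.kctx s hs
  unfold ctx at h
  rw [List.all_eq_true] at h
  have h1 := h p hp
  rw [Bool.and_eq_true, Bool.and_eq_true, List.all_eq_true, tauK_eq] at h1
  have hb : c.bigL = big2 d := by simpa using ok.kbig
  rw [hb] at h1
  exact ⟨by have := Nat.le_of_ble_eq_true h1.1; omega, h1.2.1, h1.2.2⟩

theorem tau_lt (ok : Ok d c) {s : ℕ} (hs : s < d.NS) (i j : ℕ) : tau d s i j < d.SB := by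
  obtain ⟨p, hp, hw⟩ := exists_rep ok i j
  rw [(hw.2.2 s).1]
  exact (ctx_spec ok hs hp).1

theorem disj_of (ok : Ok d c) {X Y : ℕ} (h : Nat.beq ((X &&& Y) &&& c.PL) 0 = true) {z : ℕ}
    (hz : z < d.N) (hX : bitAt d X z 0 = true) (hY : bitAt d Y z 0 = true) : False := by
  have h1 := Nat.eq_of_beq_eq_true h
  have h2 : bitAt d ((X &&& Y) &&& c.PL) z 0 = true := by
    rw [bitAt_and, bitAt_and, hX, hY, PL_bit ok hz]; rfl
  rw [h1, bitAt_zero] at h2
  exact absurd h2 (by simp)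

/-- type after adding the heap `b`, in terms of the action -/
theorem sht_eq (b s i j : ℕ) (hs : s < d.NS) : sht d b s i j =
    if b = 30 then tau d s (i + 1) j else if b = 34 then tau d s i (j + 1)
      else tau d (actS d (gu d b) s) i j := by
  unfold sht
  by_cases h30 : b = 30
  · subst h30; rw [if_pos rfl, ← tauK_eq]; rfl
  · have h1 : Nat.beq b 30 = false :=
      Bool.eq_false_iff.mpr (fun h => h30 (Nat.eq_of_beq_eq_true h))
    rw [if_neg h30, h1]
    by_cases h34 : b = 34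
    · subst h34; rw [if_pos rfl, ← tauK_eq]; rfl
    · have h2 : Nat.beq b 34 = false :=
        Bool.eq_false_iff.mpr (fun h => h34 (Nat.eq_of_beq_eq_true h))
      rw [if_neg h34, h2, ← tauK_eq]
      by_cases hg : gu d b < d.nU
      · have h3 : Nat.blt (gu d b) d.nU = true := by rw [Nat.blt_eq]; exact hg
        rw [h3, actS_of _ _ hg hs]; rfl
      · have h3 : Nat.blt (gu d b) d.nU = false :=
          Bool.eq_false_iff.mpr (fun h => hg (by rw [Nat.blt_eq] at h; exact h))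
        rw [h3, actS_id (by omega)]; rfl

theorem foldr_or_bit {α : Type} (f : α → ℕ) (l : List α) (z t : ℕ) :
    bitAt d (l.foldr (fun p acc => f p ||| acc) 0) z t = true ↔
      ∃ p ∈ l, bitAt d (f p) z t = true := by
  induction l with
  | nil => rw [List.foldr_nil, bitAt_zero]; simp
  | cons p l ih => rw [List.foldr_cons, bitAt_or, Bool.or_eq_true, ih]; simp

theorem mem_eqOL {H : ℕ} : ∀ {l : List ℕ} {l' : List (ℕ × ℕ)}, eqOL d c l l' H = true →
    ∀ P : ℕ → ℕ → Prop, (∃ p ∈ l', P p.2 p.1) ↔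
      ∃ b ∈ l, P b (PWof d c (ycl d (H - 2 - b) b))
  | [], [], _, P => by simp
  | b :: l, p :: l', h, P => by
    have h1 : ((Nat.beq p.2 b && Nat.beq p.1 (PWof d c (ycl d (H - 2 - b) b))) &&
      eqOL d c l l' H) = true := h
    rw [Bool.and_eq_true, Bool.and_eq_true] at h1
    have e1 := Nat.eq_of_beq_eq_true h1.1.1
    have e2 := Nat.eq_of_beq_eq_true h1.1.2
    have ih := mem_eqOL h1.2 P
    simp only [List.exists_mem_cons_iff]
    rw [ih, e1, e2]
  | [], _ :: _, h, _ => absurd h (by simp [eqOL])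
  | _ :: _, [], h, _ => absurd h (by simp [eqOL])

theorem DD_bit (ok : Ok d c) {H : ℕ} (hH : H ∈ heaps2 d) (s i j z : ℕ) :
    bitAt d (DD d c H s i j) z 0 = true ↔ (bitAt d (DW d c H) z (tau d s i j) = true ∨
      ∃ b ∈ nrl d H, bitAt d (PWof d c (ycl d (H - 2 - b) b)) z (sht d b s i j) = true) := by
  unfold DD
  rw [bitAt_or, Bool.or_eq_true, bitAt_shift, tauK_eq]
  have h := ok.kOL
  rw [List.all_eq_true] at h
  rw [foldr_or_bit (fun p : ℕ × ℕ => p.1 >>> sht d p.2 s i j)]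
  simp only [bitAt_shift]
  rw [mem_eqOL (h H hH) (fun b X => bitAt d X z (sht d b s i j) = true)]

end Pool.Agent.Helper77.MK.Gen
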