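import Pool.Agent.Helper77.MK.GenUp

namespace Pool.Agent.Helper77.MK.Gen

open scoped Pointwise

variable {d : Dat} {c : Cert d}

theorem rc_add_congr (ok : Ok d c) {G H : Multiset ℕ} (h : rc d G = rc d H) (X : Multiset ℕ) :
    rc d (X + G) = rc d (X + H) := by
  induction X using Multiset.induction with
  | empty => simpa using h
  | cons a X ih => rw [Multiset.cons_add, Multiset.cons_add, rc_cons' ok, rc_cons' ok, ih]

theorem sc_add_congr (ok : Ok d c) {G H : Multiset ℕ} (h : sc d G = sc d H) (X : Multiset ℕ) :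
    sc d (X + G) = sc d (X + H) := by
  induction X using Multiset.induction with
  | empty => simpa using h
  | cons a X ih => rw [Multiset.cons_add, Multiset.cons_add, sc_cons ok, sc_cons ok, ih]

theorem ci_add_congr (ok : Ok d c) {a b : ℕ} (h : ci d a = ci d b) (x : ℕ) :
    ci d (x + a) = ci d (x + b) := by
  have := (A1pos ok).1
  unfold ci at h ⊢
  split_ifs at h ⊢ <;> omega

theorem cj_add_congr (ok : Ok d c) {a b : ℕ} (h : cj d a = cj d b) (x : ℕ) :
    cj d (x + a) = cj d (x + b) := by
  have := (A1pos ok).2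
  unfold cj at h ⊢
  split_ifs at h ⊢ <;> omega

/-- the finite part of the data of a position -/
def Rel (d : Dat) (G H : Multiset ℕ) : Prop :=
  rc d G = rc d H ∧ sc d G = sc d H ∧ ci d (G.count 30) = ci d (H.count 30) ∧
    cj d (G.count 34) = cj d (H.count 34)

theorem Rel.symm {G H : Multiset ℕ} (h : Rel d G H) : Rel d H G :=
  ⟨h.1.symm, h.2.1.symm, h.2.2.1.symm, h.2.2.2.symm⟩

theorem Rel.trans {G H K : Multiset ℕ} (h : Rel d G H) (k : Rel d H K) : Rel d G K :=
  ⟨h.1.trans k.1, h.2.1.trans k.2.1, h.2.2.1.trans k.2.2.1, h.2.2.2.trans k.2.2.2⟩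

theorem Rel.add (ok : Ok d c) {G H : Multiset ℕ} (h : Rel d G H) (X : Multiset ℕ) :
    Rel d (X + G) (X + H) := by
  refine ⟨rc_add_congr ok h.1 X, sc_add_congr ok h.2.1 X, ?_, ?_⟩
  · rw [Multiset.count_add, Multiset.count_add]; exact ci_add_congr ok h.2.2.1 _
  · rw [Multiset.count_add, Multiset.count_add]; exact cj_add_congr ok h.2.2.2 _

/-- the congruence -/
def con (ok : Ok d c) : AddCon (Multiset ℕ) where
  r := Rel d
  iseqv := ⟨fun _ => ⟨rfl, rfl, rfl, rfl⟩, fun h => h.symm, fun h k => h.trans k⟩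
  add' := by
    intro w x y z h k
    have h1 : Rel d (w + y) (w + z) := k.add ok w
    have h2 : Rel d (z + w) (z + x) := h.add ok z
    rw [add_comm z w, add_comm z x] at h2
    exact h1.trans h2

/-- the monoid of the finite data -/
abbrev Fin' (ok : Ok d c) : Type := (con ok).Quotient

/-- the class of a position -/
def Phi (ok : Ok d c) : Multiset ℕ →+ Fin' ok := (con ok).mk'

theorem Phi_eq (ok : Ok d c) {G H : Multiset ℕ} : Phi ok G = Phi ok H ↔ Rel d G H :=
  (con ok).eq

theorem ci_lt (ok : Ok d c) (i : ℕ) : ci d i < d.A1 + 1 := by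
  have := (A1pos ok).1
  unfold ci; split_ifs <;> omega

theorem cj_lt (ok : Ok d c) (i : ℕ) : cj d i < d.B1 + 1 := by
  have := (A1pos ok).2
  unfold cj; split_ifs <;> omega

/-- injection of the monoid into a finite box -/
def box (ok : Ok d c) : Fin' ok → Fin d.N × Fin d.NS × Fin (d.A1 + 1) × Fin (d.B1 + 1) :=
  fun q => Quotient.liftOn q
    (fun G => (⟨rc d G, rc_lt ok.toR G⟩, ⟨sc d G, sc_lt ok G⟩, ⟨ci d (G.count 30), ci_lt ok _⟩,
      ⟨cj d (G.count 34), cj_lt ok _⟩))
    (by
      intro G H h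
      have h' : Rel d G H := h
      simp only [Prod.mk.injEq, Fin.mk.injEq]
      exact h')

theorem box_inj (ok : Ok d c) : Function.Injective (box ok) := by
  intro q q'
  induction q using Quotient.inductionOn with
  | h G =>
    induction q' using Quotient.inductionOn with
    | h H =>
      intro h
      apply Quotient.sound
      have h' : ((⟨rc d G, rc_lt ok.toR G⟩, ⟨sc d G, sc_lt ok G⟩, ⟨ci d (G.count 30), ci_lt ok _⟩,
        ⟨cj d (G.count 34), cj_lt ok _⟩) : Fin d.N × Fin d.NS × Fin (d.A1 + 1) × Fin (d.B1 + 1)) =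
        (⟨rc d H, rc_lt ok.toR H⟩, ⟨sc d H, sc_lt ok H⟩, ⟨ci d (H.count 30), ci_lt ok _⟩,
        ⟨cj d (H.count 34), cj_lt ok _⟩) := h
      simp only [Prod.mk.injEq, Fin.mk.injEq] at h'
      exact h'

theorem finite_Fin (ok : Ok d c) : Finite (Fin' ok) := Finite.of_injective _ (box_inj ok)

theorem card_Fin (ok : Ok d c) :
    Nat.card (Fin' ok) ≤ d.N * (d.NS * ((d.A1 + 1) * (d.B1 + 1))) := by
  have h := Nat.card_le_card_of_injective _ (box_inj ok)
  have h2 : Nat.card (Fin d.N × Fin d.NS × Fin (d.A1 + 1) × Fin (d.B1 + 1)) =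
    d.N * (d.NS * ((d.A1 + 1) * (d.B1 + 1))) := by
    rw [Nat.card_prod, Nat.card_prod, Nat.card_prod]
    simp only [Nat.card_eq_fintype_card, Fintype.card_fin]
  rw [h2] at h
  exact h

/-- The outcome depends on the class and on `ee`. -/
theorem out_congr {G H : Multiset ℕ} (h : Rel d G H)
    (he : ee d (G.count 30) (G.count 34) = ee d (H.count 30) (H.count 34)) :
    out d G = out d H := by
  unfold out
  rw [h.1, h.2.1, tau_congr h.2.2.1 h.2.2.2 he]

theorem misere_congr (ok : Ok d c) {G H : Multiset ℕ} (hG : okG d G) (hH : okG d H)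
    (h : Rel d G H) (he : ee d (G.count 30) (G.count 34) = ee d (H.count 30) (H.count 34)) :
    MisereP G ↔ MisereP H := by
  rw [misereP_iff ok G hG, misereP_iff ok H hH, out_congr h he]

/-- equal, or both at least `m` and congruent modulo `p` -/
def Same (m p a b : ℕ) : Prop := a = b ∨ (m ≤ a ∧ m ≤ b ∧ a % p = b % p)

theorem nsmul_same {M : Type} [AddCommMonoid M] {x : M} {m p : ℕ} (h : (m + p) • x = m • x)
    {a b : ℕ} (hab : Same m p a b) : a • x = b • x := by
  have h1 : ∀ k n, m ≤ n → (n + p * k) • x = n • x := by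
    intro k
    induction k with
    | zero => intro n _; simp
    | succ k ih =>
      intro n hn
      have e : n + p * (k + 1) = (n + p * k) + p := by ring
      have e2 : (n + p) • x = n • x := by
        rw [show n + p = (n - m) + (m + p) by omega, add_nsmul, h, ← add_nsmul,
          show n - m + m = n by omega]
      rw [e, add_nsmul, ih n hn, ← add_nsmul, e2]
  rcases hab with h2 | ⟨ha, hb, hm⟩
  · rw [h2]
  · rcases le_total a b with hle | hle
    · have : b = a + p * ((b - a) / p) := by
        have h3 : p ∣ b - a := (Nat.modEq_iff_dvd' hle).mp hm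
        rw [Nat.mul_div_cancel' h3]; omega
      rw [this]; exact (h1 _ a ha).symm
    · have : a = b + p * ((a - b) / p) := by
        have h3 : p ∣ a - b := (Nat.modEq_iff_dvd' hle).mp hm.symm
        rw [Nat.mul_div_cancel' h3]; omega
      rw [this]; exact h1 _ b hb

theorem sum_counts {n : ℕ} {G : Multiset ℕ} (h : ∀ x ∈ G, x < n) :
    ∑ a ∈ Finset.range n, G.count a • ({a} : Multiset ℕ) = G := by
  conv_rhs => rw [← Multiset.toFinset_sum_count_nsmul_eq G]
  refine (Finset.sum_subset ?_ ?_).symm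
  · intro a ha
    rw [Multiset.mem_toFinset] at ha
    exact Finset.mem_range.mpr (h a ha)
  · intro a _ ha
    rw [Multiset.mem_toFinset] at ha
    rw [Multiset.count_eq_zero_of_notMem ha, zero_nsmul]

/-- The class is determined by the reduced multiplicities. -/
theorem Phi_same (ok : Ok d c) (m p : ℕ → ℕ)
    (hmp : ∀ h, 1 ≤ h → h ≤ d.hmax → Rel d ((m h + p h) • ({h} : Multiset ℕ)) (m h • {h}))
    {G H : Multiset ℕ} (hG : okG d G) (hH : okG d H)
    (h : ∀ x, 1 ≤ x → x ≤ d.hmax → Same (m x) (p x) (G.count x) (H.count x)) : Rel d G H := by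
  have h0 : ∀ G : Multiset ℕ, okG d G → G.count 0 = 0 := by
    intro G hG
    rw [Multiset.count_eq_zero]
    intro h
    have := hG 0 h; omega
  rw [← Phi_eq ok]
  have e : ∀ G : Multiset ℕ, okG d G → Phi ok G =
      ∑ a ∈ Finset.range (d.hmax + 1), G.count a • Phi ok {a} := by
    intro G hG
    conv_lhs => rw [← sum_counts (n := d.hmax + 1) (G := G) (fun x hx => by have := hG x hx; omega)]
    rw [map_sum]
    simp only [map_nsmul]
  rw [e G hG, e H hH]
  refine Finset.sum_congr rfl (fun x hx => ?_)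
  rw [Finset.mem_range] at hx
  by_cases hx0 : x = 0
  · subst hx0
    rw [h0 G hG, h0 H hH]
  · refine nsmul_same ?_ (h x (by omega) (by omega))
    rw [← map_nsmul, ← map_nsmul, Phi_eq]
    exact hmp x (by omega) (by omega)

/-! ### semilinearity -/

/-- positions with all heaps at most `n`, as an image of `Fin n → ℕ` -/
def psi (n : ℕ) : (Fin n → ℕ) →+ Multiset ℕ where
  toFun v := ∑ k : Fin n, v k • ({k.val + 1} : Multiset ℕ)
  map_zero' := by simp
  map_add' v w := by
    simp only [Pi.add_apply, add_nsmul]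
    exact Finset.sum_add_distrib

theorem psi_range {n : ℕ} (G : Multiset ℕ) :
    (∀ h ∈ G, 1 ≤ h ∧ h ≤ n) ↔ ∃ v, psi n v = G := by
  constructor
  · intro h
    refine ⟨fun k => G.count (k.val + 1), ?_⟩
    show ∑ k : Fin n, G.count (k.val + 1) • ({k.val + 1} : Multiset ℕ) = G
    rw [Fin.sum_univ_eq_sum_range (fun k => G.count (k + 1) • ({k + 1} : Multiset ℕ)) n]
    have h1 := sum_counts (n := n + 1) (G := G) (fun x hx => by have := h x hx; omega)
    rw [Finset.sum_range_succ', show G.count 0 = 0 from Multiset.count_eq_zero.mpr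
      (fun h0 => by have := h 0 h0; omega), zero_nsmul, add_zero] at h1
    exact h1
  · rintro ⟨v, rfl⟩ x hx
    have hx' : x ∈ ∑ k : Fin n, v k • ({k.val + 1} : Multiset ℕ) := hx
    rw [Multiset.mem_sum] at hx'
    obtain ⟨k, -, hk⟩ := hx'
    have := Multiset.mem_of_mem_nsmul hk
    rw [Multiset.mem_singleton] at this
    have := k.isLt
    omega

/-- counting a heap size, as a homomorphism -/
def cnt (x : ℕ) : Multiset ℕ →+ ℕ := Multiset.countAddMonoidHom x

theorem semi_eq {n : ℕ} {M : Type} [AddCommMonoid M] (f : (Fin n → ℕ) →+ M) (q : M) :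
    IsSemilinearSet {v : Fin n → ℕ | f v = q} := by
  have h := isSemilinearSet_setOfPred_eq (M := Fin n → ℕ) (N := M) 0 q f (0 : (Fin n → ℕ) →+ M)
  simpa using h

theorem semi_ee {n : ℕ} (K e : ℕ) (f g : (Fin n → ℕ) →+ ℕ) :
    IsSemilinearSet {v : Fin n → ℕ | min K (g v - f v) = e} := by
  have hlt : ∀ k, IsSemilinearSet {v : Fin n → ℕ | g v = f v + k} := by
    intro k
    have h := isSemilinearSet_setOfPred_eq (M := Fin n → ℕ) (N := ℕ) 0 k g f
    have e : {v : Fin n → ℕ | 0 + g v = k + f v} = {v : Fin n → ℕ | g v = f v + k} := by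
      ext v
      show 0 + g v = k + f v ↔ g v = f v + k
      omega
    rw [e] at h
    exact h
  have hge : ∀ k, IsSemilinearSet {v : Fin n → ℕ | f v + k ≤ g v} := by
    intro k
    have h1 : IsSemilinearSet {p : ℕ × ℕ | p.1 + k ≤ p.2} := by
      have h2 : IsSemilinearSet (Set.univ : Set (ℕ × ℕ)) := IsSemilinearSet.univ
      let φ : ℕ × ℕ →+ ℕ × ℕ :=
        { toFun := fun p => (p.1, p.1 + p.2), map_zero' := rfl,
          map_add' := fun p q => by ext <;> simp <;> ring }
      have h3 := (h2.image φ).vadd ((0, k) : ℕ × ℕ)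
      have e : {p : ℕ × ℕ | p.1 + k ≤ p.2} = ((0, k) : ℕ × ℕ) +ᵥ (φ '' Set.univ) := by
        ext ⟨a, b⟩
        constructor
        · intro h
          have h' : a + k ≤ b := h
          refine ⟨(a, b - k), ⟨(a, b - k - a), trivial, ?_⟩, ?_⟩
          · show (a, a + (b - k - a)) = (a, b - k)
            rw [show a + (b - k - a) = b - k by omega]
          · show ((0, k) : ℕ × ℕ) + (a, b - k) = (a, b)
            rw [Prod.mk_add_mk, zero_add, show k + (b - k) = b by omega]
        · rintro ⟨⟨x, y⟩, ⟨⟨u, w⟩, -, huw⟩, h⟩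
          have h1 : (u, u + w) = (x, y) := huw
          have h2 : ((0, k) : ℕ × ℕ) + (x, y) = (a, b) := h
          rw [Prod.mk_add_mk, zero_add] at h2
          have e1 := congrArg Prod.fst h1
          have e2 := congrArg Prod.snd h1
          have e3 := congrArg Prod.fst h2
          have e4 := congrArg Prod.snd h2
          simp only at e1 e2 e3 e4
          show a + k ≤ b
          omega
      rw [e]; exact h3
    have h4 := h1.preimage (f.prod g)
    exact h4
  by_cases h0 : e = 0
  · by_cases hK : K = 0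
    · have : {v : Fin n → ℕ | min K (g v - f v) = e} = Set.univ := by
        ext v
        show min K (g v - f v) = e ↔ True
        rw [hK, h0]; simp
      rw [this]; exact IsSemilinearSet.univ
    · have : {v : Fin n → ℕ | min K (g v - f v) = e} = {v : Fin n → ℕ | f v + 1 ≤ g v}ᶜ := by
        ext v
        show min K (g v - f v) = e ↔ ¬ (f v + 1 ≤ g v)
        omega
      rw [this]; exact (hge 1).compl
  · by_cases hK : e < K
    · have : {v : Fin n → ℕ | min K (g v - f v) = e} = {v : Fin n → ℕ | g v = f v + e} := by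
        ext v
        show min K (g v - f v) = e ↔ g v = f v + e
        omega
      rw [this]; exact hlt e
    · by_cases hK2 : e = K
      · have : {v : Fin n → ℕ | min K (g v - f v) = e} = {v : Fin n → ℕ | f v + e ≤ g v} := by
          ext v
          show min K (g v - f v) = e ↔ f v + e ≤ g v
          omega
        rw [this]; exact hge e
      · have : {v : Fin n → ℕ | min K (g v - f v) = e} = ∅ := by
          ext v
          show min K (g v - f v) = e ↔ False
          have := min_le_left K (g v - f v)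
          constructor
          · intro h; omega
          · intro h; exact h.elim
        rw [this]; exact IsSemilinearSet.empty

theorem semilinear (ok : Ok d c) :
    IsSemilinearSet {G : Multiset ℕ | (∀ h ∈ G, 1 ≤ h ∧ h ≤ d.hmax) ∧ MisereP G} := by
  have hfin := finite_Fin ok
  let T : Set (Fin' ok × Fin (d.HI + 1)) := {q | ∃ G : Multiset ℕ, okG d G ∧ MisereP G ∧
    Phi ok G = q.1 ∧ ee d (G.count 30) (G.count 34) = q.2.val}
  have hT : T.Finite := Set.toFinite T
  have key : {G : Multiset ℕ | (∀ h ∈ G, 1 ≤ h ∧ h ≤ d.hmax) ∧ MisereP G} =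
      psi d.hmax '' (⋃ q ∈ T, ({v | (Phi ok).comp (psi d.hmax) v = q.1} ∩
        {v | min d.HI (((cnt 34).comp (psi d.hmax)) v - ((cnt 30).comp (psi d.hmax)) v) =
          q.2.val})) := by
    ext G
    constructor
    · rintro ⟨hG, hP⟩
      obtain ⟨v, rfl⟩ := (psi_range G).mp hG
      refine ⟨v, ?_, rfl⟩
      rw [Set.mem_iUnion₂]
      have hlt : ee d ((psi d.hmax v).count 30) ((psi d.hmax v).count 34) < d.HI + 1 := by
        unfold ee; omega
      exact ⟨(Phi ok (psi d.hmax v), ⟨_, hlt⟩), ⟨_, hG, hP, rfl, rfl⟩, rfl, rfl⟩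
    · rintro ⟨v, hv, rfl⟩
      rw [Set.mem_iUnion₂] at hv
      obtain ⟨q, ⟨G, hG, hP, h1, h2⟩, h3, h4⟩ := hv
      have hv' : okG d (psi d.hmax v) := (psi_range _).mpr ⟨v, rfl⟩
      refine ⟨hv', ?_⟩
      have h5 : Rel d (psi d.hmax v) G := by
        rw [← Phi_eq ok, h1]; exact h3
      refine (misere_congr ok hv' hG h5 ?_).mpr hP
      rw [h2]; exact h4
  rw [key]
  refine IsSemilinearSet.image ?_ _
  refine IsSemilinearSet.biUnion hT (fun q _ => ?_)
  exact (semi_eq _ _).inter (semi_ee _ _ _ _)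

end Pool.Agent.Helper77.MK.Gen
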