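import Pool.Agent.Helper77.MK.GenLev

namespace Pool.Agent.Helper77.MK.Gen

variable {d : Dat} {c : Cert d}

theorem heap_pos {a : ℕ} (h : a ≠ 0) : heap a = {a} := by unfold heap; rw [if_neg h]

theorem heap_zero : heap 0 = 0 := by unfold heap; rw [if_pos rfl]

theorem isRest_iff {a : ℕ} : isRest a = true ↔ a ≤ 31 ∧ a ≠ 30 := by
  unfold isRest
  rw [Bool.and_eq_true, Nat.ble_eq, Bool.not_eq_true']
  constructor
  · rintro ⟨h1, h2⟩
    refine ⟨h1, ?_⟩
    intro h; rw [h] at h2; exact absurd h2 (by decide)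
  · rintro ⟨h1, h2⟩
    exact ⟨h1, Bool.eq_false_iff.mpr (fun h => h2 (Nat.eq_of_beq_eq_true h))⟩

theorem hmax_bd (ok : Ok d c) : 34 ≤ d.hmax ∧ d.hmax ≤ 60 := by
  have h := ok.khmax
  rw [Bool.and_eq_true] at h
  exact ⟨Nat.le_of_ble_eq_true h.1, Nat.le_of_ble_eq_true h.2⟩

theorem mem_heaps2 {H : ℕ} : H ∈ heaps2 d ↔ 2 ≤ H ∧ H ≤ d.hmax := by
  unfold heaps2
  rw [List.mem_filter, List.mem_range, Nat.ble_eq]
  omega

theorem mem_rest2 {H : ℕ} : H ∈ rest2 ↔ 2 ≤ H ∧ H ≤ 31 ∧ H ≠ 30 := by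
  unfold rest2
  rw [List.mem_filter, List.mem_range, Bool.and_eq_true, Nat.ble_eq, isRest_iff]
  omega

theorem mem_big2 {H : ℕ} : H ∈ big2 d ↔ H ≤ d.hmax ∧ ¬ (H ≤ 31 ∧ H ≠ 30) := by
  unfold big2
  rw [List.mem_filter, List.mem_range, Bool.not_eq_true', ← isRest_iff, Bool.not_eq_true]
  constructor
  · rintro ⟨h1, h2⟩; exact ⟨by omega, h2⟩
  · rintro ⟨h1, h2⟩; exact ⟨by omega, h2⟩

theorem mem_nrl {H b : ℕ} : b ∈ nrl d H ↔ (b ≤ d.hmax ∧ ¬ (b ≤ 31 ∧ b ≠ 30)) ∧ b + 2 ≤ H := by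
  unfold nrl
  rw [List.mem_filter, mem_big2, Nat.ble_eq]

/-- consistency of the heap tables -/
theorem heaps_spec (ok : Ok d c) {h : ℕ} (hh : h ≤ d.hmax) :
    (¬ (h ≤ 31 ∧ h ≠ 30) → gi d h = d.ng) ∧ ((h ≤ 31 ∧ h ≠ 30) → gu d h = d.nU) ∧
    ((h = 30 ∨ h = 34) → gu d h = d.nU) ∧
    (¬ (h ≤ 31 ∧ h ≠ 30) → h ≠ 30 → h ≠ 34 → gu d h < d.nU ∧ c.Us.getD (gu d h) 0 = h) ∧
    gi d h ≤ d.ng := by
  have h1 := allB_spec ok.kheaps h (by omega)
  simp only [Bool.and_eq_true, Bool.or_eq_true, Bool.not_eq_true', isRest_iff, Nat.beq_eq,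
    Nat.ble_eq, Nat.blt_eq] at h1
  obtain ⟨a1, ⟨⟨a2, a3⟩, a4⟩, a5⟩ := h1
  refine ⟨fun h => a1.resolve_left h, fun h => ?_, fun h => ?_, fun h h30 h34 => ?_, a5⟩
  · rcases a2 with h2 | h2
    · have := isRest_iff.mpr h
      rw [h2] at this; exact absurd this (by decide)
    · exact h2
  · rcases a3 with h2 | h2
    · rcases h with h | h
      · subst h; exact absurd h2 (by decide)
      · subst h; exact absurd h2 (by decide)
    · exact h2
  · rcases a4 with ((h2 | h2) | h2) | h2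
    · exact absurd h2 h
    · exact absurd h2 h30
    · exact absurd h2 h34
    · exact h2

theorem gi0 (ok : Ok d c) : gi d 0 = d.ng := by
  have h := ok.kgi0
  rw [Bool.and_eq_true] at h
  exact Nat.eq_of_beq_eq_true h.1

theorem gi1 (ok : Ok d c) : gi d 1 = d.ng := by
  have h := ok.kgi0
  rw [Bool.and_eq_true] at h
  exact Nat.eq_of_beq_eq_true h.2

theorem rc_heap (ok : Ok d c) (a : ℕ) (R : Multiset ℕ) :
    rc d (heap a + R) = actR d (gi d a) (rc d R) := by
  by_cases h : a = 0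
  · subst h; rw [heap_zero, zero_add, gi0 ok, actR_id le_rfl]
  · rw [heap_pos h, Multiset.singleton_add, rc_cons ok.toR]

theorem gu0 (ok : Ok d c) : gu d 0 = d.nU := (heaps_spec ok (Nat.zero_le _)).2.1 (by omega)

theorem sc_heap (ok : Ok d c) (a : ℕ) (R : Multiset ℕ) :
    sc d (heap a + R) = actS d (gu d a) (sc d R) := by
  by_cases h : a = 0
  · subst h; rw [heap_zero, zero_add, gu0 ok, actS_id le_rfl]
  · rw [heap_pos h, Multiset.singleton_add, sc_cons ok]

theorem count_heap (x a : ℕ) (hx : x ≠ 0) (R : Multiset ℕ) :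
    (heap a + R).count x = (if a = x then 1 else 0) + R.count x := by
  rw [Multiset.count_add]
  congr 1
  by_cases h : a = 0
  · subst h; rw [heap_zero, if_neg (fun h => hx h.symm)]; simp
  · rw [heap_pos h, Multiset.count_singleton]
    by_cases h1 : a = x
    · rw [if_pos h1, if_pos h1.symm]
    · rw [if_neg h1, if_neg (fun h => h1 h.symm)]

theorem ra_actR {h z : ℕ} (hz : z < d.N) :
    (bif Nat.blt (gi d h) d.ng then ra d (d.Gs.getD (gi d h) 0) z else z) = actR d (gi d h) z := by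
  by_cases hg : gi d h < d.ng
  · have h3 : Nat.blt (gi d h) d.ng = true := by rw [Nat.blt_eq]; exact hg
    rw [h3, actR_of _ _ hg hz]; rfl
  · have h3 : Nat.blt (gi d h) d.ng = false :=
      Bool.eq_false_iff.mpr (fun h => hg (by rw [Nat.blt_eq] at h; exact h))
    rw [h3, actR_id (by omega)]; rfl

theorem ycl_eq (ok : Ok d c) (a b : ℕ) :
    ycl d a b = actR d (gi d a) (actR d (gi d b) 0) := by
  have h1 := ra_actR (d := d) (h := b) (Npos ok.toR)
  have h2 := ra_actR (d := d) (h := a) (actR_lt ok.toR (gi d b) 0 (Npos ok.toR))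
  unfold ycl
  simp only []
  rw [h1, h2]

theorem Tr_of_mem (ok : Ok d c) {y : ℕ} (h : memN c.PWl y = true) : Tr d y (PWof d c y) := by
  have key : ∀ l : List (ℕ × ℕ), (∀ p ∈ l, Tr d p.1 p.2) → memN l y = true →
      Tr d y (lookupN l y) := by
    intro l
    induction l with
    | nil => intro _ h; exact absurd h (by simp [memN])
    | cons p l ih =>
      intro h1 h2
      have h3 : (Nat.beq p.1 y || memN l y) = true := h2
      by_cases hp : Nat.beq p.1 y = true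
      · have e := Nat.eq_of_beq_eq_true hp
        have : lookupN (p :: l) y = p.2 := by
          show (bif Nat.beq p.1 y then p.2 else lookupN l y) = p.2
          rw [hp]; rfl
        rw [this, ← e]; exact h1 p List.mem_cons_self
      · rw [Bool.not_eq_true] at hp
        have : lookupN (p :: l) y = lookupN l y := by
          show (bif Nat.beq p.1 y then p.2 else lookupN l y) = lookupN l y
          rw [hp]; rfl
        rw [this]
        rw [hp, Bool.false_or] at h3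
        exact ih (fun q hq => h1 q (List.mem_cons_of_mem _ hq)) h3
  exact key _ ok.kTr h

/-- level of a position -/
def lev (d : Dat) (G : Multiset ℕ) : ℕ := tau d (sc d G) (G.count 30) (G.count 34)

theorem lev_lt (ok : Ok d c) (G : Multiset ℕ) : lev d G < d.SB := tau_lt ok (sc_lt ok G) _ _

theorem out_eq (G : Multiset ℕ) : out d G = bitAt d d.W (rc d G) (lev d G) := rfl

theorem sht_lev (ok : Ok d c) {b : ℕ} (hb : b ≤ d.hmax) (R : Multiset ℕ) :
    lev d (heap b + R) = sht d b (sc d R) (R.count 30) (R.count 34) := by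
  rw [sht_eq _ _ _ _ (sc_lt ok R)]
  unfold lev
  rw [sc_heap ok, count_heap 30 b (by norm_num), count_heap 34 b (by norm_num)]
  obtain ⟨-, -, h3, -, -⟩ := heaps_spec ok hb
  by_cases h30 : b = 30
  · subst h30
    rw [h3 (Or.inl rfl), actS_id le_rfl, if_pos rfl, if_neg (by norm_num), if_pos rfl,
      Nat.add_comm 1, Nat.zero_add]
  · by_cases h34 : b = 34
    · subst h34
      rw [h3 (Or.inr rfl), actS_id le_rfl, if_neg (by norm_num), if_pos rfl, if_neg (by norm_num),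
        if_pos rfl, Nat.add_comm 1, Nat.zero_add]
    · rw [if_neg h30, if_neg h34, if_neg h30, if_neg h34, Nat.zero_add, Nat.zero_add]

theorem sht_rest (ok : Ok d c) {b : ℕ} (hb : b ≤ 31 ∧ b ≠ 30) (s i j : ℕ) (hs : s < d.NS) :
    sht d b s i j = tau d s i j := by
  have h := heaps_spec ok (h := b) (by have := (hmax_bd ok).1; omega)
  rw [sht_eq _ _ _ _ hs, if_neg hb.2, if_neg (by omega), h.2.1 hb, actS_id le_rfl]

theorem out_pair (ok : Ok d c) {a b : ℕ} (ha : a ≤ 31 ∧ a ≠ 30) (hb : b ≤ d.hmax)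
    (R : Multiset ℕ) (hy : memN c.PWl (ycl d a b) = true) :
    out d (heap a + heap b + R) = bitAt d (PWof d c (ycl d a b)) (rc d R)
      (sht d b (sc d R) (R.count 30) (R.count 34)) := by
  have hl : lev d (heap a + heap b + R) = sht d b (sc d R) (R.count 30) (R.count 34) := by
    rw [← sht_lev ok hb, add_assoc, sht_lev ok (by have := (hmax_bd ok).1; omega),
      sht_rest ok ha _ _ _ (sc_lt ok _)]
    rfl
  rw [out_eq, hl]
  have hlt : sht d b (sc d R) (R.count 30) (R.count 34) < d.SB := by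
    rw [← sht_lev ok hb]; exact lev_lt ok _
  have h := Tr_apply ok.toR (Tr_of_mem ok hy) ((R.sort (· ≤ ·)).map (gi d)) [gi d a, gi d b]
    (by rw [ycl_eq ok]; rfl) _ hlt
  have e1 : ((R.sort (· ≤ ·)).map (gi d)).foldr (actR d) 0 = rc d R := rfl
  rw [e1] at h
  rw [h, add_assoc, rc_heap ok, rc_heap ok]
  congr 1
  rw [foldR_perm ok.toR (List.perm_append_comm) 0, List.foldr_append, e1]
  rfl

theorem DWof_bit (l : List (ℕ × ℕ)) (z t : ℕ) :
    bitAt d (DWof d c l) z t = true ↔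
      ∃ p ∈ l, bitAt d (PWof d c (ycl d p.1 p.2)) z t = true :=
  foldr_or_bit (fun p : ℕ × ℕ => PWof d c (ycl d p.1 p.2)) l z t

theorem mem_pairsR {H a b : ℕ} (hH : 2 ≤ H) :
    (a, b) ∈ pairsR H ↔ a + b + 2 = H ∧ (a ≤ 31 ∧ a ≠ 30) ∧ (b ≤ 31 ∧ b ≠ 30) := by
  unfold pairsR
  rw [List.mem_filter, List.mem_map, Bool.and_eq_true, isRest_iff, isRest_iff]
  constructor
  · rintro ⟨⟨x, hc, he⟩, h2⟩
    rw [List.mem_range] at hc
    have e1 : x = a := congrArg Prod.fst he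
    have e2 : H - 2 - x = b := congrArg Prod.snd he
    exact ⟨by omega, h2⟩
  · rintro ⟨h1, h2⟩
    refine ⟨⟨a, List.mem_range.mpr (by omega), ?_⟩, h2⟩
    have : H - 2 - a = b := by omega
    rw [this]

theorem pair_mem (ok : Ok d c) {H a b : ℕ} (hH : H ∈ heaps2 d) (hab : a + b + 2 = H)
    (ha : a ≤ 31 ∧ a ≠ 30) (hb : b ≤ 31 ∧ b ≠ 30) : memN c.PWl (ycl d a b) = true := by
  have hp := ok.kpairs
  rw [List.all_eq_true] at hp
  have hp2 := hp H hH
  rw [List.all_eq_true] at hp2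
  exact hp2 _ ((mem_pairsR (mem_heaps2.mp hH).1).mpr ⟨hab, ha, hb⟩)

theorem DW_bit (ok : Ok d c) {H : ℕ} (hH : H ∈ heaps2 d) (z t : ℕ) :
    bitAt d (DW d c H) z t = true ↔
      ∃ a b, a + b + 2 = H ∧ (a ≤ 31 ∧ a ≠ 30) ∧ (b ≤ 31 ∧ b ≠ 30) ∧
        bitAt d (PWof d c (ycl d a b)) z t = true := by
  have h := ok.kDW
  rw [List.all_eq_true] at h
  rw [Nat.eq_of_beq_eq_true (h H hH), DWof_bit]
  constructor
  · rintro ⟨⟨a, b⟩, hm, hb⟩
    have h1 := (mem_pairsR (mem_heaps2.mp hH).1).mp hm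
    exact ⟨a, b, h1.1, h1.2.1, h1.2.2, hb⟩
  · rintro ⟨a, b, h1, h2, h3, h4⟩
    exact ⟨(a, b), (mem_pairsR (mem_heaps2.mp hH).1).mpr ⟨h1, h2, h3⟩, h4⟩

/-- a winning option of the heap `H` of `H ::ₘ R` -/
def HasP (d : Dat) (H : ℕ) (R : Multiset ℕ) : Prop :=
  ∃ a b, a + b + 2 = H ∧ out d (heap a + heap b + R) = true

theorem hasP_iff (ok : Ok d c) {H : ℕ} (hH : H ∈ heaps2 d) (R : Multiset ℕ) :
    HasP d H R ↔ bitAt d (DD d c H (sc d R) (R.count 30) (R.count 34)) (rc d R) 0 = true := by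
  have hb := hmax_bd ok
  have hH2 := mem_heaps2.mp hH
  rw [DD_bit ok hH, DW_bit ok hH]
  have hp2 := ok.kpairs2
  rw [List.all_eq_true] at hp2
  have hp3 := hp2 H hH
  rw [List.all_eq_true] at hp3
  have key : ∀ a b, a + b + 2 = H → (a ≤ 31 ∧ a ≠ 30) → out d (heap a + heap b + R) = true →
      ((∃ a b, a + b + 2 = H ∧ (a ≤ 31 ∧ a ≠ 30) ∧ (b ≤ 31 ∧ b ≠ 30) ∧
        bitAt d (PWof d c (ycl d a b)) (rc d R) (tau d (sc d R) (R.count 30) (R.count 34)) = true) ∨
      ∃ b ∈ nrl d H, bitAt d (PWof d c (ycl d (H - 2 - b) b)) (rc d R)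
        (sht d b (sc d R) (R.count 30) (R.count 34)) = true) := by
    intro a b hab ha ho
    by_cases hbr : b ≤ 31 ∧ b ≠ 30
    · left
      rw [out_pair ok ha (by omega) R (pair_mem ok hH hab ha hbr),
        sht_rest ok hbr _ _ _ (sc_lt ok R)] at ho
      exact ⟨a, b, hab, ha, hbr, ho⟩
    · right
      have hm : b ∈ nrl d H := mem_nrl.mpr ⟨⟨by omega, hbr⟩, by omega⟩
      have h3 := hp3 b hm
      rw [Bool.and_eq_true] at h3
      have e : H - 2 - b = a := by omega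
      rw [e] at h3
      rw [out_pair ok ha (by omega) R h3.2] at ho
      exact ⟨b, hm, by rw [e]; exact ho⟩
  constructor
  · rintro ⟨a, b, hab, ho⟩
    by_cases ha : a ≤ 31 ∧ a ≠ 30
    · exact key a b hab ha ho
    · have hb' : b ≤ 31 ∧ b ≠ 30 := by omega
      refine key b a (by omega) hb' ?_
      rw [add_comm (heap b)]; exact ho
  · rintro (⟨a, b, hab, ha, hbr, h⟩ | ⟨b, hm, h⟩)
    · refine ⟨a, b, hab, ?_⟩
      rw [out_pair ok ha (by omega) R (pair_mem ok hH hab ha hbr),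
        sht_rest ok hbr _ _ _ (sc_lt ok R)]
      exact h
    · have hm' := mem_nrl.mp hm
      have h3 := hp3 b hm
      rw [Bool.and_eq_true, isRest_iff] at h3
      refine ⟨H - 2 - b, b, by omega, ?_⟩
      rw [out_pair ok h3.1 hm'.1.1 R h3.2]
      exact h

end Pool.Agent.Helper77.MK.Gen
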