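import Pool.Agent.Helper77.MK.GenMon

namespace Pool.Agent.Helper77.MK.Gen

theorem psi_count {n : ℕ} (v : Fin n → ℕ) (k : Fin n) :
    (psi n v).count (k.val + 1) = v k := by
  show Multiset.count (k.val + 1) (∑ i : Fin n, v i • ({i.val + 1} : Multiset ℕ)) = v k
  rw [Multiset.count_sum']
  rw [Finset.sum_eq_single k]
  · rw [Multiset.count_nsmul, Multiset.count_singleton, if_pos rfl, Nat.mul_one]
  · intro b _ hb
    rw [Multiset.count_nsmul, Multiset.count_singleton, if_neg, Nat.mul_zero]
    intro h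
    apply hb
    apply Fin.ext
    omega
  · intro h
    exact absurd (Finset.mem_univ k) h

/-- lowering a multiplicity -/
def low (m p n : ℕ) : ℕ := if n < m + p then n else m + (n - m) % p

theorem low_same (m p n : ℕ) : Same m p n (low m p n) := by
  unfold low Same
  split_ifs with h
  · exact Or.inl rfl
  · right
    refine ⟨by omega, by omega, ?_⟩
    have h1 : (m + (n - m) % p) % p = (m + (n - m)) % p := Nat.add_mod_mod _ _ _
    rw [h1, show m + (n - m) = n by omega]

theorem low_lt (m p n : ℕ) (hp : 0 < p) : low m p n < m + p := by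
  unfold low
  split_ifs with h
  · exact h
  · have := Nat.mod_lt (n - m) hp
    omega

/-- the pair of multiplicities of 30 and 34 can be moved into a small box -/
theorem pair_red (i j : ℕ) : ∃ i' j', i' ≤ 4 ∧ j' ≤ 10 ∧ Same 3 2 i i' ∧ Same 2 2 j j' ∧
    min 5 (j - i) = min 5 (j' - i') := by
  unfold Same
  have hi : ∃ i', i' ≤ 4 ∧ (i = i' ∨ (3 ≤ i ∧ 3 ≤ i' ∧ i % 2 = i' % 2)) := by
    by_cases h : i ≤ 4
    · exact ⟨i, h, Or.inl rfl⟩
    · exact ⟨4 - i % 2, by omega, Or.inr ⟨by omega, by omega, by omega⟩⟩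
  obtain ⟨i', h1, h2⟩ := hi
  by_cases h3 : j ≤ i
  · by_cases h4 : j ≤ 3
    · by_cases h5 : j ≤ i'
      · exact ⟨i', j, h1, by omega, h2, Or.inl rfl, by omega⟩
      · exfalso; omega
    · refine ⟨i', 2 + j % 2, h1, by omega, h2, Or.inr ⟨by omega, by omega, by omega⟩, by omega⟩
  · by_cases h4 : j < i + 5
    · refine ⟨i', i' + (j - i), h1, by omega, h2, ?_, by omega⟩
      rcases h2 with h2 | h2
      · left; omega
      · right; exact ⟨by omega, by omega, by omega⟩
    · exact ⟨i', i' + 5 + (i' + 5 + j) % 2, h1, by omega, h2, Or.inr ⟨by omega, by omega, by omega⟩,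
        by omega⟩

end Pool.Agent.Helper77.MK.Gen
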