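import Pool.Agent.Helper77.MK.GenOpt

namespace Pool.Agent.Helper77.MK.Gen

variable {d : Dat} {c : Cert d}

/-- all heaps between 1 and `hmax` -/
def okG (d : Dat) (G : Multiset ℕ) : Prop := ∀ h ∈ G, 1 ≤ h ∧ h ≤ d.hmax

theorem nrl_small {H : ℕ} (hH : H ≤ 31) : nrl d H = [] := by
  apply List.eq_nil_iff_forall_not_mem.mpr
  intro b hb
  have := mem_nrl.mp hb
  omega

theorem rc_cons' (ok : Ok d c) (h : ℕ) (G : Multiset ℕ) :
    rc d (h ::ₘ G) = actR d (gi d h) (rc d G) := rc_cons ok.toR h G

theorem rc_erase (ok : Ok d c) {G : Multiset ℕ} {H : ℕ} (h : H ∈ G) :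
    rc d G = actR d (gi d H) (rc d (G.erase H)) := by
  conv_lhs => rw [← Multiset.cons_erase h]
  rw [rc_cons' ok]

theorem sc_erase (ok : Ok d c) {G : Multiset ℕ} {H : ℕ} (h : H ∈ G) :
    sc d G = actS d (gu d H) (sc d (G.erase H)) := by
  conv_lhs => rw [← Multiset.cons_erase h]
  rw [sc_cons ok]

/-- removing a rest heap does not change the level -/
theorem lev_erase_rest (ok : Ok d c) {G : Multiset ℕ} {H : ℕ} (hm : H ∈ G)
    (h : H ≤ 31 ∧ H ≠ 30) :
    sc d (G.erase H) = sc d G ∧ (G.erase H).count 30 = G.count 30 ∧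
      (G.erase H).count 34 = G.count 34 := by
  refine ⟨?_, ?_, ?_⟩
  · rw [sc_erase ok hm, (heaps_spec ok (by have := (hmax_bd ok).1; omega)).2.1 h, actS_id le_rfl]
  · exact Multiset.count_erase_of_ne (by omega) _
  · exact Multiset.count_erase_of_ne (by omega) _

/-- no rest heap of `G` has a winning option -/
def Stuck (c : Cert d) (G : Multiset ℕ) : Prop :=
  ∀ H ∈ G, H ∈ rest2 → bitAt d (DW d c H) (rc d (G.erase H)) (lev d G) = false

theorem stuck_of (ok : Ok d c) {G : Multiset ℕ} (hno : ∀ H ∈ G, ¬ HasP d H (G.erase H)) :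
    Stuck c G := by
  intro H hm hr
  by_contra h1
  rw [Bool.not_eq_false] at h1
  have hr' := mem_rest2.mp hr
  have hb := hmax_bd ok
  have hH : H ∈ heaps2 d := mem_heaps2.mpr ⟨hr'.1, by omega⟩
  refine hno H hm ((hasP_iff ok hH _).mpr ?_)
  rw [DD_bit ok hH]
  left
  obtain ⟨e1, e2, e3⟩ := lev_erase_rest ok hm hr'.2
  rw [e1, e2, e3]
  exact h1

/-- generator number `a` (or a trivial heap) belongs to the submonoid number `m` -/
def genM (c : Cert d) (m H : ℕ) : Bool := Nat.testBit (c.GM.getD (gi d H) 0) m

theorem memM_cls (ok : Ok d c) (m : ℕ) (hm : m < c.nM) (G : Multiset ℕ)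
    (hG : ∀ H ∈ G, H ≤ d.hmax)
    (h : ∀ H ∈ G, gi d H = d.ng ∨ genM c m H = true) : bitAt d c.MW (rc d G) m = true := by
  have hnS := Nat.le_of_ble_eq_true ok.knM
  induction G using Multiset.induction with
  | empty =>
    have h0 := Nat.eq_of_beq_eq_true ok.kM0
    rw [rc_zero, ← word_testBit ok.kWM _ _ _ (by omega)]
    have h2 : (word d c c.MW 0 &&& c.MF).testBit m = true := by
      rw [h0, ok.kMF, Nat.testBit_two_pow_sub_one]
      simp [hm]
    rw [Nat.testBit_and, Bool.and_eq_true] at h2
    exact h2.1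
  | cons H G ih =>
    have ih' := ih (fun K hK => hG K (Multiset.mem_cons_of_mem hK))
      (fun K hK => h K (Multiset.mem_cons_of_mem hK))
    rw [rc_cons' ok]
    have hle := (heaps_spec ok (hG H (Multiset.mem_cons_self _ _))).2.2.2.2
    rcases h H (Multiset.mem_cons_self _ _) with h1 | h1
    · rw [h1, actR_id le_rfl]; exact ih'
    · by_cases h2 : gi d H < d.ng
      · have hc := ok.kM
        rw [List.all_eq_true] at hc
        have hc1 := allB_spec (hc (gi d H) (List.mem_range.mpr h2)) (rc d G) (rc_lt ok.toR G)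
        have hc2 := Nat.eq_of_beq_eq_true hc1
        rw [← actR_of _ _ h2 (rc_lt ok.toR G)] at hc2
        have h3 : ((word d c c.MW (rc d G) &&& c.GM.getD (gi d H) 0) &&&
            word d c c.MW (actR d (gi d H) (rc d G))).testBit m = true := by
          rw [hc2, Nat.testBit_and, word_testBit ok.kWM _ _ _ (by omega), ih']
          exact h1
        rw [Nat.testBit_and, Bool.and_eq_true, word_testBit ok.kWM _ _ _ (by omega)] at h3
        exact h3.2
      · rw [show gi d H = d.ng by omega, actR_id le_rfl]; exact ih'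

theorem nt2_spec {H : ℕ} (h : H ∈ nt2 d) : H ∈ rest2 ∧ gi d H < d.ng := by
  unfold nt2 at h
  rw [List.mem_filter, Nat.blt_eq] at h
  exact h

theorem nt_of (ok : Ok d c) {H : ℕ} (hH : 1 ≤ H ∧ H ≤ d.hmax) (h : gi d H ≠ d.ng) :
    H ∈ nt2 d := by
  have hs := heaps_spec ok hH.2
  have h1 : H ≤ 31 ∧ H ≠ 30 := by
    by_contra h2
    exact h (hs.1 h2)
  have h2 : H ≠ 1 := by
    intro h3; rw [h3] at h; exact h (gi1 ok)
  unfold nt2
  rw [List.mem_filter, Nat.blt_eq, mem_rest2]
  have := hs.2.2.2.2
  exact ⟨⟨by omega, h1⟩, by omega⟩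

theorem full_bit (ok : Ok d c) (t : ℕ) (ht : t < d.SB) : c.FULL.testBit t = true := by
  rw [ok.kFULL, Nat.testBit_two_pow_sub_one]
  simp [ht]

/-- if `z` is not in the table `TW` of the heap `H`, then `H` has a winning option -/
theorem TW_use (ok : Ok d c) {H : ℕ} (hH : H ∈ nt2 d) (y t : ℕ) (hy : y < d.N) (ht : t < d.SB)
    (h : bitAt d (c.TWs.getD (gi d H) 0) (actR d (gi d H) y) t = false) :
    bitAt d (DW d c H) y t = true := by
  have hc := ok.kTW
  rw [List.all_eq_true] at hc
  have h1 := Nat.eq_of_beq_eq_true (allB_spec (hc H hH) y hy)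
  rw [← actR_of _ _ (nt2_spec hH).2 hy] at h1
  have h2 := congrArg (fun x => Nat.testBit x t) h1
  simp only [Nat.testBit_and, Nat.testBit_or] at h2
  rw [full_bit ok t ht, word_testBit ok.kWM _ _ _ ht, word_testBit ok.kWM _ _ _ ht, h] at h2
  simpa using h2

theorem chain_sound (ok : Ok d c) {G : Multiset ℕ} (ho : okG d G) (hs : Stuck c G) :
    ∀ (ms : List ℕ) (m : ℕ), m < c.nM → (∀ k ∈ ms, k < c.nM) →
      (∀ H ∈ G, gi d H = d.ng ∨ genM c m H = true) →
      chainB d c (lev d G) (rc d G) m ms = true → False := by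
  intro ms
  induction ms with
  | nil =>
    intro m hm _ h1 h2
    have h3 := memM_cls ok m hm G (fun H hH => (ho H hH).2) h1
    have h4 : (!(bitAt d c.MW (rc d G) m)) = true := h2
    rw [h3] at h4
    exact absurd h4 (by decide)
  | cons m' ms ih =>
    intro m hm hms h1 h2
    have h3 : ((nt2 d).all (stepB d c (lev d G) (rc d G) m m') &&
      chainB d c (lev d G) (rc d G) m' ms) = true := h2
    rw [Bool.and_eq_true, List.all_eq_true] at h3
    refine ih m' (hms m' List.mem_cons_self) (fun k hk => hms k (List.mem_cons_of_mem _ hk)) ?_ h3.2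
    intro H hH
    by_cases hg : gi d H = d.ng
    · exact Or.inl hg
    · right
      have hnt := nt_of ok (ho H hH) hg
      have h4 := h3.1 H hnt
      have h5 : genM c m H = true := (h1 H hH).resolve_left hg
      unfold stepB at h4
      rw [Bool.or_eq_true, Bool.or_eq_true] at h4
      rcases h4 with (h4 | h4) | h4
      · unfold genM at h5; rw [h5] at h4; exact absurd h4 (by decide)
      · exact h4
      · exfalso
        have hy := rc_lt ok.toR (G.erase H)
        have h6 := allB_spec h4 _ hy
        have h7 : bitAt d c.MW (rc d (G.erase H)) m = true :=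
          memM_cls ok m hm _ (fun K hK => (ho K (Multiset.mem_of_mem_erase hK)).2)
            (fun K hK => h1 K (Multiset.mem_of_mem_erase hK))
        rw [h7, ← actR_of _ _ (nt2_spec hnt).2 hy, ← rc_erase ok hH,
          hs H hH (nt2_spec hnt).1] at h6
        simp at h6

theorem foldr_and_bit (f : ℕ → ℕ) (l : List ℕ) (X i : ℕ) :
    Nat.testBit (l.foldr (fun k acc => f k &&& acc) X) i = true ↔
      (Nat.testBit X i = true ∧ ∀ k ∈ l, Nat.testBit (f k) i = true) := by
  induction l with
  | nil => simp
  | cons k l ih =>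
    rw [List.foldr_cons, Nat.testBit_and, Bool.and_eq_true, ih]
    simp only [List.forall_mem_cons]
    tauto

theorem exw_bit (l : List (ℕ × ℕ × List ℕ)) (i : ℕ) :
    Nat.testBit (l.foldr (fun e acc => 2 ^ (d.SB * e.2.1 + e.1) ||| acc) 0) i = true →
      ∃ e ∈ l, d.SB * e.2.1 + e.1 = i := by
  induction l with
  | nil => simp
  | cons e l ih =>
    rw [List.foldr_cons, Nat.testBit_or, Bool.or_eq_true, Nat.testBit_two_pow]
    rintro (h | h)
    · exact ⟨e, List.mem_cons_self, by simpa using h⟩
    · obtain ⟨e', he, h'⟩ := ih h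
      exact ⟨e', List.mem_cons_of_mem _ he, h'⟩

theorem KW_bit {k a i : ℕ} (ha : a < d.ng) (hk : Nat.testBit (c.GM.getD a 0) k = false)
    (h : Nat.testBit (KW d c k) i = false) : Nat.testBit (c.TWs.getD a 0) i = false := by
  have aux : ∀ l : List ℕ, a ∈ l →
      Nat.testBit (l.foldr (fun a acc =>
        (bif Nat.testBit (c.GM.getD a 0) k then 0 else c.TWs.getD a 0) ||| acc) 0) i = false →
      Nat.testBit (c.TWs.getD a 0) i = false := by
    intro l
    induction l with
    | nil => simp
    | cons b l ih =>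
      intro h1 h2
      rw [List.foldr_cons, Nat.testBit_or, Bool.or_eq_false_iff] at h2
      rcases List.mem_cons.mp h1 with rfl | h3
      · rw [hk] at h2; exact h2.1
      · exact ih h3 h2.2
  exact aux _ (List.mem_range.mpr ha) h

theorem pos_inj {S z t z' t' : ℕ} (ht : t < S) (ht' : t' < S) (h : S * z + t = S * z' + t') :
    z = z' ∧ t = t' := by
  have hS : 0 < S := by omega
  have h1 : (S * z + t) / S = z := by
    rw [Nat.mul_add_div hS, Nat.div_eq_of_lt ht, Nat.add_zero]
  have h2 : (S * z' + t') / S = z' := by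
    rw [Nat.mul_add_div hS, Nat.div_eq_of_lt ht', Nat.add_zero]
  have h3 : z = z' := by rw [← h1, ← h2, h]
  subst h3
  exact ⟨rfl, by omega⟩

/-- a class listed in `SSW` is never stuck -/
theorem SS_sound (ok : Ok d c) {G : Multiset ℕ} (ho : okG d G) (hs : Stuck c G)
    (h : bitAt d c.SSW (rc d G) (lev d G) = true) : False := by
  have hz := rc_lt ok.toR G
  have ht := lev_lt ok G
  have hin := Nat.eq_of_beq_eq_true ok.kSS
  have hnS := Nat.le_of_ble_eq_true ok.knM
  have hnch := Nat.le_of_ble_eq_true ok.knch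
  by_cases hex : bitAt d (EXW d c) (rc d G) (lev d G) = true
  · obtain ⟨e, he, hi⟩ := exw_bit (d := d) _ _ hex
    have hc := ok.kex
    rw [List.all_eq_true] at hc
    have h1 := hc e he
    obtain ⟨t, z, ms⟩ := e
    cases ms with
    | nil => exact absurd h1 (by simp [exB])
    | cons m ms =>
      have h2 : (Nat.ble (t + 1) d.SB && (headB d c t z m && (ms.all (fun k => Nat.ble (k + 1) c.nM) &&
        (Nat.ble (m + 1) c.nM && chainB d c t z m ms)))) = true := h1
      simp only [Bool.and_eq_true] at h2
      obtain ⟨a1, a2, a3, a4, a5⟩ := h2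
      have ht28 := Nat.le_of_ble_eq_true a1
      have hm12 := Nat.le_of_ble_eq_true a4
      have e1 : z = rc d G ∧ t = lev d G := pos_inj (by omega) ht hi
      obtain ⟨rfl, rfl⟩ := e1
      refine chain_sound ok ho hs ms m (by omega) ?_ ?_ a5
      · intro k hk
        rw [List.all_eq_true] at a3
        have := Nat.le_of_ble_eq_true (a3 k hk)
        omega
      · intro H hH
        by_cases hg : gi d H = d.ng
        · exact Or.inl hg
        · right
          have hnt := nt_of ok (ho H hH) hg
          unfold headB at a2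
          rw [List.all_eq_true] at a2
          have h3 := a2 H hnt
          rw [Bool.or_eq_true] at h3
          rcases h3 with h3 | h3
          · exact h3
          · exfalso
            rw [rc_erase ok hH] at h3
            have h4 := TW_use ok hnt _ _ (rc_lt ok.toR (G.erase H)) (lev_lt ok G)
              (by simpa using h3)
            rw [hs H hH (nt2_spec hnt).1] at h4
            exact absurd h4 (by decide)
  · have h1 : ¬ (∀ k ∈ List.range c.nch,
        Nat.testBit (KW d c k ||| M1 d c k) (d.SB * rc d G + lev d G) = true) := by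
      intro h2
      apply hex
      have h3 := (foldr_and_bit (fun k => KW d c k ||| M1 d c k) (List.range c.nch) c.SSW
        (d.SB * rc d G + lev d G)).mpr ⟨h, h2⟩
      unfold bitAt
      rw [← hin]
      exact h3
    push Not at h1
    obtain ⟨k, hk, hk2⟩ := h1
    rw [List.mem_range] at hk
    have hk3 : Nat.testBit (KW d c k ||| M1 d c k) (d.SB * rc d G + lev d G) = false := by
      simpa using hk2
    rw [Nat.testBit_or, Bool.or_eq_false_iff] at hk3
    have hM : bitAt d c.MW (rc d G) k = false := by
      have h4 := allB_spec (allB_spec ok.kM1 k hk) (rc d G) hz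
      have h5 := Nat.eq_of_beq_eq_true h4
      by_contra h6
      rw [Bool.not_eq_false] at h6
      rw [h6] at h5
      have h7 := congrArg (fun x => Nat.testBit x (lev d G)) h5
      simp only [word_testBit ok.kWM _ _ _ ht] at h7
      have h8 : bitAt d (M1 d c k) (rc d G) (lev d G) = false := hk3.2
      rw [h8] at h7
      simp only [cond_true] at h7
      rw [full_bit ok _ ht] at h7
      exact absurd h7 (by decide)
    have hall : ∀ H ∈ G, gi d H = d.ng ∨ genM c k H = true := by
      intro H hH
      by_cases hg : gi d H = d.ng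
      · exact Or.inl hg
      · right
        by_contra hgen
        have hnt := nt_of ok (ho H hH) hg
        have h5 : bitAt d (c.TWs.getD (gi d H) 0) (rc d G) (lev d G) = false := by
          unfold bitAt
          refine KW_bit (nt2_spec hnt).2 ?_ hk3.1
          unfold genM at hgen
          simpa using hgen
        rw [rc_erase ok hH] at h5
        have h6 := TW_use ok hnt _ _ (rc_lt ok.toR (G.erase H)) (lev_lt ok G) h5
        rw [hs H hH (nt2_spec hnt).1] at h6
        exact absurd h6 (by decide)
    have h9 := memM_cls ok k (by omega) G (fun H hH => (ho H hH).2) hall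
    rw [hM] at h9
    exact absurd h9 (by decide)

end Pool.Agent.Helper77.MK.Gen
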