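import Pool.Agent.Helper77.MK.GenStk

namespace Pool.Agent.Helper77.MK.Gen

variable {d : Dat} {c : Cert d}

/-- dependence of the table `DD` on the levels -/
theorem DD_congr (ok : Ok d c) {H : ℕ} (hH : H ∈ heaps2 d) (s i j s' i' j' z : ℕ)
    (h0 : tau d s i j = tau d s' i' j') (h1 : ∀ b ∈ nrl d H, sht d b s i j = sht d b s' i' j') :
    bitAt d (DD d c H s i j) z 0 = true ↔ bitAt d (DD d c H s' i' j') z 0 = true := by
  rw [DD_bit ok hH, DD_bit ok hH, h0]
  constructor
  · rintro (h | ⟨b, hb, h⟩)
    · exact Or.inl h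
    · exact Or.inr ⟨b, hb, by rw [← h1 b hb]; exact h⟩
  · rintro (h | ⟨b, hb, h⟩)
    · exact Or.inl h
    · exact Or.inr ⟨b, hb, by rw [h1 b hb]; exact h⟩

theorem sht_win {i j i' j' : ℕ} (hw : SameWin d i j i' j') (b s : ℕ) (hs : s < d.NS) :
    sht d b s i j = sht d b s i' j' := by
  rw [sht_eq _ _ _ _ hs, sht_eq _ _ _ _ hs]
  obtain ⟨-, a2, a3, -, -, -⟩ := hw.2.2 s
  rw [a2, a3, (hw.2.2 (actS d (gu d b) s)).1]

theorem DD_win (ok : Ok d c) {H : ℕ} (hH : H ∈ heaps2 d) {i j i' j' : ℕ}
    (hw : SameWin d i j i' j') (s z : ℕ) (hs : s < d.NS) :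
    bitAt d (DD d c H s i j) z 0 = true ↔ bitAt d (DD d c H s i' j') z 0 = true :=
  DD_congr ok hH _ _ _ _ _ _ _ (hw.2.2 s).1 (fun b _ => sht_win hw b s hs)

theorem DD30_win (ok : Ok d c) {i j i' j' : ℕ} (hw : SameWin d i j i' j') (s z : ℕ) :
    bitAt d (DD d c 30 s (i - 1) j) z 0 = true ↔
      bitAt d (DD d c 30 s (i' - 1) j') z 0 = true := by
  have hH : 30 ∈ heaps2 d := mem_heaps2.mpr ⟨by norm_num, by have := (hmax_bd ok).1; omega⟩
  refine DD_congr ok hH _ _ _ _ _ _ _ (hw.2.2 s).2.2.2.1 (fun b hb => ?_)
  rw [nrl_small (by norm_num)] at hb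
  exact absurd hb (by simp)

theorem DD34_win (ok : Ok d c) {i j i' j' : ℕ} (hw : SameWin d i j i' j') (s z : ℕ)
    (hs : s < d.NS) :
    bitAt d (DD d c 34 s i (j - 1)) z 0 = true ↔
      bitAt d (DD d c 34 s i' (j' - 1)) z 0 = true := by
  have hH : 34 ∈ heaps2 d := mem_heaps2.mpr ⟨by norm_num, by have := (hmax_bd ok).1; omega⟩
  refine DD_congr ok hH _ _ _ _ _ _ _ (hw.2.2 s).2.2.2.2.1 (fun b hb => ?_)
  have hb' := mem_nrl.mp hb
  rw [sht_eq _ _ _ _ hs, sht_eq _ _ _ _ hs]
  by_cases h30 : b = 30
  · rw [if_pos h30, if_pos h30]; exact (hw.2.2 s).2.2.2.2.2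
  · rw [if_neg h30, if_neg h30, if_neg (by omega), if_neg (by omega)]
    exact (hw.2.2 (actS d (gu d b) s)).2.2.2.2.1

/-! ### consistency -/

theorem memN_spec {l : List (ℕ × ℕ)} {y : ℕ} (h : memN l y = true) : memN l y = true := h

theorem consistent (ok : Ok d c) {H : ℕ} (hH : H ∈ heaps2 d) (R : Multiset ℕ)
    (h1 : out d (H ::ₘ R) = true) (h2 : HasP d H R) : False := by
  have hH2 := mem_heaps2.mp hH
  have hb := hmax_bd ok
  have h3 := (hasP_iff ok hH R).mp h2
  by_cases hr : H ≤ 31 ∧ H ≠ 30
  · have hrest : H ∈ rest2 := mem_rest2.mpr ⟨hH2.1, hr⟩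
    rw [DD_bit ok hH, nrl_small hr.1] at h3
    have h4 : bitAt d (DW d c H) (rc d R) (tau d (sc d R) (R.count 30) (R.count 34)) = true := by
      rcases h3 with h3 | ⟨b, hb, -⟩
      · exact h3
      · exact absurd hb (by simp)
    have hA := ok.kA
    rw [List.all_eq_true] at hA
    have hS := ok.ksingle
    rw [List.all_eq_true] at hS
    have h7 := out_pair ok hr (show 0 ≤ d.hmax by omega) R (hS H hrest)
    rw [heap_zero, add_zero, heap_pos (show H ≠ 0 by omega), Multiset.singleton_add, h1,
      sht_rest ok (show 0 ≤ 31 ∧ 0 ≠ 30 by omega) _ _ _ (sc_lt ok R)] at h7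
    have h8 := Nat.eq_of_beq_eq_true (hA H hrest)
    have h9 : bitAt d (PWof d c (ycl d H 0) &&& DW d c H) (rc d R)
        (tau d (sc d R) (R.count 30) (R.count 34)) = true := by
      rw [bitAt_and, ← h7, h4]; rfl
    rw [h8, bitAt_zero] at h9
    exact absurd h9 (by simp)
  · have hbig : H ∈ big2 d := mem_big2.mpr ⟨hH2.2, hr⟩
    obtain ⟨p, hp, hw⟩ := exists_rep ok (R.count 30) (R.count 34)
    have hA := (ctx_spec ok (sc_lt ok R) hp).2.1 H hbig
    unfold ctxA at hA
    refine disj_of ok hA (rc_lt ok.toR R) ?_ ((DD_win ok hH hw _ _ (sc_lt ok R)).mp h3)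
    rw [bitAt_shift, ← sht_win hw _ _ (sc_lt ok R), ← sht_lev ok hH2.2, heap_pos (by omega),
      Multiset.singleton_add]
    have e : rc d (H ::ₘ R) = rc d R := by
      rw [rc_cons' ok, (heaps_spec ok hH2.2).1 hr, actR_id le_rfl]
    rw [← e]
    exact h1

/-! ### the upper heaps -/

/-- the generators of the upper heaps of `G` belong to the set `gm` -/
def UpIn (d : Dat) (gm : ℕ) (G : Multiset ℕ) : Prop :=
  ∀ H ∈ G, gu d H = d.nU ∨ Nat.testBit gm (gu d H) = true

/-- all classes generated by `gm` are in `mm` -/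
def Clo (d : Dat) (gm mm : ℕ) : Prop :=
  ∀ G : Multiset ℕ, okG d G → UpIn d gm G → Nat.testBit mm (sc d G) = true

theorem gu_le (ok : Ok d c) {H : ℕ} (hH : H ≤ d.hmax) : gu d H ≤ d.nU := by
  have h := heaps_spec ok hH
  by_cases h1 : H ≤ 31 ∧ H ≠ 30
  · rw [h.2.1 h1]
  · by_cases h30 : H = 30
    · rw [h.2.2.1 (Or.inl h30)]
    · by_cases h34 : H = 34
      · rw [h.2.2.1 (Or.inr h34)]
      · exact (h.2.2.2.1 h1 h30 h34).1.le

theorem clo_all (ok : Ok d c) : Clo d (allG d) (allS d) := by
  intro G _ _
  unfold allS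
  rw [Nat.testBit_two_pow_sub_one]
  simp [sc_lt ok G]

theorem up_all (ok : Ok d c) {G : Multiset ℕ} (ho : okG d G) : UpIn d (allG d) G := by
  intro H hH
  by_cases h : gu d H = d.nU
  · exact Or.inl h
  · right
    have := gu_le ok (ho H hH).2
    unfold allG
    rw [Nat.testBit_two_pow_sub_one]
    simp; omega

theorem clo_ms (ok : Ok d c) {m : ℕ} (hm : m < c.nMS) :
    Clo d (c.GMS.getD m 0) (c.MMS.getD m 0) := by
  have h := allB_spec ok.kMS m hm
  rw [Bool.and_eq_true] at h
  intro G
  induction G using Multiset.induction with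
  | empty => intro _ _; rw [sc_zero]; exact h.1
  | cons H G ih =>
    intro ho hu
    have ih' := ih (fun K hK => ho K (Multiset.mem_cons_of_mem hK))
      (fun K hK => hu K (Multiset.mem_cons_of_mem hK))
    rw [sc_cons ok]
    rcases hu H (Multiset.mem_cons_self _ _) with h1 | h1
    · rw [h1, actS_id le_rfl]; exact ih'
    · by_cases hg : gu d H < d.nU
      · have h2 := allB_spec h.2 _ hg
        rw [h1] at h2
        have h3 : allB d.NS (fun s => (!(Nat.testBit (c.MMS.getD m 0) s)) ||
          Nat.testBit (c.MMS.getD m 0) (rs d (gu d H) s)) = true := by simpa using h2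
        have h4 := allB_spec h3 _ (sc_lt ok G)
        rw [ih'] at h4
        rw [actS_of _ _ hg (sc_lt ok G)]
        simpa using h4
      · rw [actS_id (by omega)]; exact ih'

theorem pre_spec (ok : Ok d c) {g s : ℕ} (hg : g < d.nU) (hs : s < d.NS) :
    s ∈ (c.PRE.getD (rs d g s) []).getD g [] := by
  have h := allB_spec (allB_spec ok.kPRE g hg) s hs
  rw [List.any_eq_true] at h
  obtain ⟨x, hx, he⟩ := h
  rwa [Nat.eq_of_beq_eq_true he] at hx

theorem killPre_bit {s i j g mm z : ℕ} (h : bitAt d (killPre d c s i j g mm) z 0 = true)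
    {s' : ℕ} (hs' : s' ∈ (c.PRE.getD s []).getD g []) (hm : Nat.testBit mm s' = true) :
    bitAt d (DD d c (c.Us.getD g 0) s' i j) z 0 = true := by
  have aux : ∀ l : List ℕ, bitAt d (l.foldr
      (fun s' acc => bif Nat.testBit mm s' then DD d c (c.Us.getD g 0) s' i j &&& acc else acc)
      c.PL) z 0 = true → s' ∈ l → bitAt d (DD d c (c.Us.getD g 0) s' i j) z 0 = true := by
    intro l
    induction l with
    | nil => intro _ h; exact absurd h (by simp)
    | cons a l ih =>
      intro h1 h2
      rw [List.foldr_cons] at h1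
      rcases List.mem_cons.mp h2 with rfl | h3
      · rw [hm, cond_true, bitAt_and, Bool.and_eq_true] at h1
        exact h1.1
      · refine ih ?_ h3
        cases hb : Nat.testBit mm a
        · rw [hb, cond_false] at h1; exact h1
        · rw [hb, cond_true, bitAt_and, Bool.and_eq_true] at h1
          exact h1.2
  exact aux _ h hs'

theorem killStep_bit {s i j gp mp gm z : ℕ} (h : bitAt d (killStep d c s i j gp mp gm) z 0 = true)
    {g : ℕ} (hg : g < d.nU) (h1 : Nat.testBit gp g = true) (h2 : Nat.testBit gm g = false) :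
    bitAt d (killPre d c s i j g mp) z 0 = true := by
  have aux : ∀ l : List ℕ, bitAt d (l.foldr (fun g acc =>
      bif Nat.testBit gp g && !(Nat.testBit gm g) then killPre d c s i j g mp &&& acc
      else acc) c.PL) z 0 = true → g ∈ l → bitAt d (killPre d c s i j g mp) z 0 = true := by
    intro l
    induction l with
    | nil => intro _ h; exact absurd h (by simp)
    | cons a l ih =>
      intro h3 h4
      rw [List.foldr_cons] at h3
      rcases List.mem_cons.mp h4 with rfl | h5
      · rw [h1, h2] at h3
        simp only [Bool.not_false, Bool.and_self, cond_true] at h3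
        rw [bitAt_and, Bool.and_eq_true] at h3
        exact h3.1
      · refine ih ?_ h5
        cases hb : (Nat.testBit gp a && !(Nat.testBit gm a))
        · rw [hb, cond_false] at h3; exact h3
        · rw [hb, cond_true, bitAt_and, Bool.and_eq_true] at h3
          exact h3.2
  exact aux _ h (List.mem_range.mpr hg)

theorem upper_opt (ok : Ok d c) {G : Multiset ℕ} (ho : okG d G)
    (hno : ∀ H ∈ G, ¬ HasP d H (G.erase H)) {i' j' : ℕ}
    (hw : SameWin d (G.count 30) (G.count 34) i' j') {gp mp gm : ℕ} (hu : UpIn d gp G)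
    (hc : Clo d gp mp) (h : bitAt d (killStep d c (sc d G) i' j' gp mp gm) (rc d G) 0 = true) :
    UpIn d gm G := by
  intro H hH
  by_cases hg : gu d H = d.nU
  · exact Or.inl hg
  · right
    by_contra hgm
    rw [Bool.not_eq_true] at hgm
    have hHm := ho H hH
    have hsp := heaps_spec ok hHm.2
    have hlt : gu d H < d.nU := by have := gu_le ok hHm.2; omega
    have hnr : ¬ (H ≤ 31 ∧ H ≠ 30) := fun h => hg (hsp.2.1 h)
    have h30 : H ≠ 30 := fun h => hg (hsp.2.2.1 (Or.inl h))
    have h34 : H ≠ 34 := fun h => hg (hsp.2.2.1 (Or.inr h))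
    have hUs := (hsp.2.2.2.1 hnr h30 h34).2
    have hgp := (hu H hH).resolve_left hg
    have hH2 : H ∈ heaps2 d := mem_heaps2.mpr ⟨by omega, hHm.2⟩
    have hso : okG d (G.erase H) := fun K hK => ho K (Multiset.mem_of_mem_erase hK)
    have hsu : UpIn d gp (G.erase H) := fun K hK => hu K (Multiset.mem_of_mem_erase hK)
    have hmem := pre_spec ok hlt (sc_lt ok (G.erase H))
    rw [← actS_of _ _ hlt (sc_lt ok _), ← sc_erase ok hH] at hmem
    have h5 := killPre_bit (killStep_bit h hlt hgp hgm) hmem (hc _ hso hsu)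
    rw [hUs] at h5
    have h6 := (DD_win ok hH2 hw _ _ (sc_lt ok _)).mpr h5
    refine hno H hH ((hasP_iff ok hH2 _).mpr ?_)
    rw [Multiset.count_erase_of_ne (Ne.symm h30), Multiset.count_erase_of_ne (Ne.symm h34)]
    have e : rc d (G.erase H) = rc d G := by
      rw [rc_erase ok hH, hsp.1 hnr, actR_id le_rfl]
    rw [e]
    exact h6

theorem killChain_sound (ok : Ok d c) {G : Multiset ℕ} (ho : okG d G)
    (hno : ∀ H ∈ G, ¬ HasP d H (G.erase H)) {i' j' : ℕ}
    (hw : SameWin d (G.count 30) (G.count 34) i' j') :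
    ∀ (ms : List ℕ) (gp mp : ℕ), UpIn d gp G → Clo d gp mp → (∀ m ∈ ms, m < c.nMS) →
      bitAt d (killChain d c (sc d G) i' j' gp mp ms) (rc d G) 0 = true → False := by
  intro ms
  induction ms with
  | nil =>
    intro gp mp hu hc _ h
    have h1 : bitAt d (bif Nat.testBit mp (sc d G) then 0 else c.PL) (rc d G) 0 = true := h
    rw [hc G ho hu, cond_true, bitAt_zero] at h1
    exact absurd h1 (by simp)
  | cons m ms ih =>
    intro gp mp hu hc hm h
    have h1 : bitAt d (killStep d c (sc d G) i' j' gp mp (c.GMS.getD m 0) &&&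
      killChain d c (sc d G) i' j' (c.GMS.getD m 0) (c.MMS.getD m 0) ms) (rc d G) 0 = true := h
    rw [bitAt_and, Bool.and_eq_true] at h1
    exact ih _ _ (upper_opt ok ho hno hw hu hc h1.1) (clo_ms ok (hm m List.mem_cons_self))
      (fun k hk => hm k (List.mem_cons_of_mem _ hk)) h1.2

theorem kill_sound (ok : Ok d c) {G : Multiset ℕ} (ho : okG d G)
    (hno : ∀ H ∈ G, ¬ HasP d H (G.erase H)) {i' j' : ℕ}
    (hw : SameWin d (G.count 30) (G.count 34) i' j')
    (h : bitAt d (kill d c (sc d G) i' j') (rc d G) 0 = true) : False := by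
  unfold kill at h
  rw [foldr_or_bit (fun ch => killChain d c (sc d G) i' j' (allG d) (allS d) ch)] at h
  obtain ⟨ch, hch, h1⟩ := h
  refine killChain_sound ok ho hno hw ch _ _ (up_all ok ho) (clo_all ok) ?_ h1
  have hk := ok.kKC
  unfold chkKC at hk
  rw [List.all_eq_true] at hk
  have hl : c.KC.getD (sc d G) [] ∈ c.KC := by
    by_cases hlen : sc d G < c.KC.length
    · rw [List.getD_eq_getElem _ _ hlen]; exact List.getElem_mem _
    · rw [List.getD_eq_default _ _ (by omega)] at hch
      exact absurd hch (by simp)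
  have h2 := hk _ hl
  rw [List.all_eq_true] at h2
  have h3 := h2 ch hch
  rw [List.all_eq_true] at h3
  intro m hm
  have := Nat.le_of_ble_eq_true (h3 m hm)
  omega

/-! ### completeness -/

theorem complete (ok : Ok d c) {G : Multiset ℕ} (ho : okG d G) (h0 : out d G = false)
    (hno : ∀ H ∈ G, ¬ HasP d H (G.erase H)) : ∀ H ∈ G, H = 1 := by
  have hs := stuck_of ok hno
  have hz := rc_lt ok.toR G
  have hb := hmax_bd ok
  have hS1 := Nat.le_of_ble_eq_true ok.kSB1
  obtain ⟨p, hp, hw⟩ := exists_rep ok (G.count 30) (G.count 34)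
  have hB := (ctx_spec ok (sc_lt ok G) hp).2.2
  have hrc : ∀ H ∈ G, ¬ (H ≤ 31 ∧ H ≠ 30) → rc d (G.erase H) = rc d G := by
    intro H hH hr
    rw [rc_erase ok hH, (heaps_spec ok (ho H hH).2).1 hr, actR_id le_rfl]
  have hPLb : ∀ X, Nat.beq (X &&& c.PL) c.PL = true → bitAt d X (rc d G) 0 = true := by
    intro X hX
    have h1 := Nat.eq_of_beq_eq_true hX
    have h2 : bitAt d (X &&& c.PL) (rc d G) 0 = true := by rw [h1]; exact PL_bit ok hz
    rw [bitAt_and, Bool.and_eq_true] at h2
    exact h2.1
  have hbase : bitAt d (base d c (sc d G) p.1 p.2) (rc d G) 0 = true → False := by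
    intro h
    unfold base at h
    rw [bitAt_or, bitAt_or, bitAt_or, bitAt_shift, bitAt_shift, tauK_eq,
      ← (hw.2.2 (sc d G)).1] at h
    simp only [Bool.or_eq_true] at h
    rcases h with h | h | h | h
    · have h1 : out d G = true := h
      rw [h0] at h1; exact absurd h1 (by simp)
    · exact SS_sound ok ho hs h
    · cases hi : Nat.beq p.1 0
      · rw [hi, cond_false] at h
        have hi0 : G.count 30 ≠ 0 := by
          intro h1
          rw [hw.1.mp h1] at hi
          exact absurd hi (by simp)
        have hm : 30 ∈ G := Multiset.count_pos.mp (by omega)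
        have hH : 30 ∈ heaps2 d := mem_heaps2.mpr ⟨by norm_num, by omega⟩
        refine hno 30 hm ((hasP_iff ok hH _).mpr ?_)
        rw [hrc 30 hm (by omega), Multiset.count_erase_self, Multiset.count_erase_of_ne
          (by norm_num)]
        have e : sc d (G.erase 30) = sc d G := by
          rw [sc_erase ok hm, (heaps_spec ok (ho 30 hm).2).2.2.1 (Or.inl rfl), actS_id le_rfl]
        rw [e]
        exact (DD30_win ok hw _ _).mpr h
      · rw [hi, cond_true, bitAt_zero] at h
        exact absurd h (by simp)
    · cases hi : Nat.beq p.2 0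
      · rw [hi, cond_false] at h
        have hi0 : G.count 34 ≠ 0 := by
          intro h1
          rw [hw.2.1.mp h1] at hi
          exact absurd hi (by simp)
        have hm : 34 ∈ G := Multiset.count_pos.mp (by omega)
        have hH : 34 ∈ heaps2 d := mem_heaps2.mpr ⟨by norm_num, by omega⟩
        refine hno 34 hm ((hasP_iff ok hH _).mpr ?_)
        rw [hrc 34 hm (by omega), Multiset.count_erase_self, Multiset.count_erase_of_ne
          (by norm_num)]
        have e : sc d (G.erase 34) = sc d G := by
          rw [sc_erase ok hm, (heaps_spec ok (ho 34 hm).2).2.2.1 (Or.inr rfl), actS_id le_rfl]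
        rw [e]
        exact (DD34_win ok hw _ _ (sc_lt ok G)).mpr h
      · rw [hi, cond_true, bitAt_zero] at h
        exact absurd h (by simp)
  unfold ctxB at hB
  rw [Bool.or_eq_true] at hB
  rcases hB with hB | hB
  · exact (hbase (hPLb _ hB)).elim
  · have h1 := hPLb _ hB
    rw [bitAt_or, bitAt_or, Bool.or_eq_true, Bool.or_eq_true] at h1
    rcases h1 with h1 | h1 | h1
    · exact (hbase h1).elim
    · exact (kill_sound ok ho hno hw h1).elim
    · cases hsum : Nat.beq (sc d G + p.1 + p.2) 0
      · rw [hsum, cond_false, bitAt_zero] at h1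
        exact absurd h1 (by simp)
      · have h2 := Nat.eq_of_beq_eq_true hsum
        rw [hsum, cond_true] at h1
        have hz0 : rc d G = 0 := by
          unfold bitAt at h1
          by_contra hz0
          have h3 : Nat.testBit (2 ^ 0) (d.SB * rc d G + 0) = false := by
            rw [Nat.testBit_two_pow]
            have : 0 < d.SB * rc d G := Nat.mul_pos (by omega) (by omega)
            simp
            omega
          rw [pow_zero] at h3
          rw [h3] at h1
          exact absurd h1 (by simp)
        have hi0 : G.count 30 = 0 := hw.1.mpr (by omega)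
        have hj0 : G.count 34 = 0 := hw.2.1.mpr (by omega)
        have hs0 : sc d G = 0 := by omega
        intro H hH
        by_contra hne
        have hHm := ho H hH
        have hsp := heaps_spec ok hHm.2
        have h30 : H ≠ 30 := by
          rintro rfl; have := Multiset.count_pos.mpr hH; omega
        have h34 : H ≠ 34 := by
          rintro rfl; have := Multiset.count_pos.mpr hH; omega
        have hr : H ≤ 31 ∧ H ≠ 30 := by
          by_contra hr
          have hlt := (hsp.2.2.2.1 hr h30 h34).1
          have := actS_pos ok _ _ hlt (sc_lt ok (G.erase H))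
          rw [← sc_erase ok hH, hs0] at this
          omega
        have hrest : H ∈ rest2 := mem_rest2.mpr ⟨by omega, hr⟩
        have hchk := ok.kzero
        rw [List.all_eq_true] at hchk
        have h3 := allB_spec (hchk H hrest) _ (rc_lt ok.toR (G.erase H))
        rw [ra_actR (rc_lt ok.toR (G.erase H)), ← rc_erase ok hH, hz0] at h3
        have h4 : Nat.testBit (DW d c H) (d.SB * rc d (G.erase H)) = true := by simpa using h3
        have h5 := hs H hH hrest
        have h6 : lev d G = 0 := by
          unfold lev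
          rw [hs0, hi0, hj0]
          exact Nat.eq_of_beq_eq_true ok.ktau0
        rw [h6] at h5
        unfold bitAt at h5
        rw [Nat.add_zero, h4] at h5
        exact absurd h5 (by decide)

theorem ok_opt {H a b : ℕ} {R : Multiset ℕ} (hH : H ≤ d.hmax) (hab : a + b + 2 = H)
    (hR : okG d R) : okG d (heap a + heap b + R) := by
  have key : ∀ k, k ≤ d.hmax → ∀ x ∈ heap k, 1 ≤ x ∧ x ≤ d.hmax := by
    intro k hk x hx
    by_cases h0 : k = 0
    · rw [h0, heap_zero] at hx; simp at hx
    · rw [heap_pos h0, Multiset.mem_singleton] at hx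
      subst hx
      exact ⟨by omega, hk⟩
  intro x hx
  rw [Multiset.mem_add, Multiset.mem_add] at hx
  rcases hx with (hx | hx) | hx
  · exact key a (by omega) x hx
  · exact key b (by omega) x hx
  · exact hR x hx

theorem out_ones (ok : Ok d c) {G : Multiset ℕ} (h : ∀ H ∈ G, H = 1) : out d G = false := by
  have h1 : G = Multiset.replicate (Multiset.card G) 1 := Multiset.eq_replicate_card.mpr h
  have hb := hmax_bd ok
  have hrc : ∀ n, rc d (Multiset.replicate n 1) = 0 := by
    intro n
    induction n with
    | zero => exact rc_zero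
    | succ n ih => rw [Multiset.replicate_succ, rc_cons' ok, ih, gi1 ok, actR_id le_rfl]
  have hsc : ∀ n, sc d (Multiset.replicate n 1) = 0 := by
    intro n
    induction n with
    | zero => exact sc_zero
    | succ n ih => rw [Multiset.replicate_succ, sc_cons ok, ih,
        (heaps_spec ok (h := 1) (by omega)).2.1 (by omega), actS_id le_rfl]
  unfold out
  rw [h1, hrc, hsc]
  have hc : ∀ x, x ≠ 1 → Multiset.count x (Multiset.replicate (Multiset.card G) 1) = 0 := by
    intro x hx
    rw [Multiset.count_replicate, if_neg (fun h => hx h.symm)]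
  rw [hc 30 (by norm_num), hc 34 (by norm_num)]
  unfold bitAt
  rw [Nat.mul_zero, Nat.zero_add]
  exact ok.kbit0

/-- The predicted outcome is the misere outcome. -/
theorem misereP_iff (ok : Ok d c) (G : Multiset ℕ) (ho : okG d G) :
    MisereP G ↔ out d G = true := by
  have main : ∀ n, ∀ G : Multiset ℕ, G.sum = n → okG d G → (MisereP G ↔ out d G = true) := by
    intro n
    induction n using Nat.strong_induction_on with
    | _ n ih =>
      intro G hn ho
      have step : ∀ H ∈ G, ∀ a b, a + b + 2 = H →
          (MisereP (heap a + heap b + G.erase H) ↔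
            out d (heap a + heap b + G.erase H) = true) := by
        intro H hH a b hab
        have hok : okG d (heap a + heap b + G.erase H) :=
          ok_opt (ho H hH).2 hab (fun x hx => ho x (Multiset.mem_of_mem_erase hx))
        have hmv : Move G (heap a + heap b + G.erase H) :=
          ⟨G.erase H, a, b, by rw [hab, Multiset.cons_erase hH], rfl⟩
        have := hmv.sum_lt
        exact ih _ (by omega) _ rfl hok
      rw [MisereP]
      constructor
      · rintro ⟨⟨G', R, a, b, hG, -⟩, hall⟩
        by_contra hout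
        rw [Bool.not_eq_true] at hout
        have hno : ∀ H ∈ G, ¬ HasP d H (G.erase H) := by
          rintro H hH ⟨a, b, hab, hp⟩
          refine hall (heap a + heap b + G.erase H)
            ⟨G.erase H, a, b, by rw [hab, Multiset.cons_erase hH], rfl⟩ ?_
          exact (step H hH a b hab).mpr hp
        have h1 := complete ok ho hout hno (a + b + 2)
          (by rw [hG]; exact Multiset.mem_cons_self _ _)
        omega
      · intro hout
        refine ⟨?_, ?_⟩
        · by_contra hnm
          have hones : ∀ H ∈ G, H = 1 := by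
            intro H hH
            by_contra h
            apply hnm
            have := ho H hH
            exact ⟨heap (H - 2) + heap 0 + G.erase H, G.erase H, H - 2, 0,
              by rw [show H - 2 + 0 + 2 = H by omega, Multiset.cons_erase hH], rfl⟩
          rw [out_ones ok hones] at hout
          exact absurd hout (by decide)
        · rintro G' ⟨R, a, b, hG, rfl⟩ hP
          have hmem : (a + b + 2) ∈ G := by rw [hG]; exact Multiset.mem_cons_self _ _
          have hR : G.erase (a + b + 2) = R := by rw [hG, Multiset.erase_cons_head]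
          have h1 := (step (a + b + 2) hmem a b rfl).mp (by rw [hR]; exact hP)
          rw [hR] at h1
          have hHh : (a + b + 2) ∈ heaps2 d := mem_heaps2.mpr ⟨by omega, (ho _ hmem).2⟩
          rw [hG] at hout
          exact consistent ok hHh R hout ⟨a, b, rfl, h1⟩
  exact main _ G rfl ho

end Pool.Agent.Helper77.MK.Gen
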